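import Pool.Agent.Helper53.LT.Mx

/-!
PROJECT LT, block B, file My: coordinates on `C^Ψ`. Conventions and the matrices `A`, `B`: header of `Mx.lean`,
whose lemmas are used.
-/

namespace Pool.Agent.Helper53.LT

open Finset Pool.Agent.Helper34.LT

noncomputable section

private def myE (b : Bool) : ℂ := if b = true then 1 else -1

private lemma my_fib_dbl {U G : Type} [Fintype U] [DecidableEq U] [DecidableEq G] {s : U → G}
    {sg : U → Bool} (hinj : ∀ u v, s u = s v → sg u = sg v → u = v) {g : G} {u v : U}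
    (hu : s u = g) (hv : s v = g) (hu' : sg u = true) (hv' : sg v = false) :
    u ≠ v ∧ (univ.filter fun x => s x = g) = {u, v} := by
  refine ⟨fun h => ?_, ?_⟩
  · rw [h, hv'] at hu'
    exact Bool.false_ne_true hu'
  · ext x
    simp only [mem_filter, mem_univ, true_and, mem_insert, mem_singleton]
    constructor
    · intro hx
      cases hsx : sg x
      · exact Or.inr (hinj x v (hx.trans hv.symm) (hsx.trans hv'.symm))
      · exact Or.inl (hinj x u (hx.trans hu.symm) (hsx.trans hu'.symm))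
    · rintro (h | h)
      · rw [h]; exact hu
      · rw [h]; exact hv

private lemma my_fib_sgl {U G : Type} [Fintype U] [DecidableEq U] [DecidableEq G] {s : U → G}
    {sg : U → Bool} (hinj : ∀ u v, s u = s v → sg u = sg v → u = v) {g : G}
    (hd : ¬ ∃ u v, s u = g ∧ s v = g ∧ sg u = true ∧ sg v = false) {u : U}
    (hu : s u = g) : (univ.filter fun x => s x = g) = {u} := by
  ext x
  simp only [mem_filter, mem_univ, true_and, mem_singleton]
  constructor
  · intro hx
    by_contra hne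
    apply hd
    have hsg : sg x ≠ sg u := fun h => hne (hinj x u (hx.trans hu.symm) h)
    cases hsx : sg x <;> cases hsu : sg u
    · exact absurd (hsx.trans hsu.symm) hsg
    · exact ⟨u, x, hu, hx, hsu, hsx⟩
    · exact ⟨x, u, hx, hu, hsx, hsu⟩
    · exact absurd (hsx.trans hsu.symm) hsg
  · intro h
    rw [h]; exact hu

private lemma my_card {U G : Type} [Fintype U] [Fintype G] [DecidableEq U] [DecidableEq G]
    {s : U → G} {sg : U → Bool} (hinj : ∀ u v, s u = s v → sg u = sg v → u = v)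
    (hsurj : Function.Surjective s)
    [Fintype {g : G // ∃ u v, s u = g ∧ s v = g ∧ sg u = true ∧ sg v = false}] :
    Fintype.card {g : G // ∃ u v, s u = g ∧ s v = g ∧ sg u = true ∧ sg v = false} =
      Fintype.card U - Fintype.card G := by
  classical
  have h1 : Fintype.card U = ∑ g : G, (univ.filter fun x => s x = g).card := by
    rw [← Finset.card_univ]
    exact Finset.card_eq_sum_card_fiberwise (fun x _ => mem_univ _)
  have h2 : ∀ g : G, (univ.filter fun x => s x = g).card =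
      1 + if ∃ u v, s u = g ∧ s v = g ∧ sg u = true ∧ sg v = false then 1 else 0 := by
    intro g
    by_cases hd : ∃ u v, s u = g ∧ s v = g ∧ sg u = true ∧ sg v = false
    · rw [if_pos hd]
      obtain ⟨u, v, hu, hv, hu', hv'⟩ := hd
      obtain ⟨h3, h4⟩ := my_fib_dbl hinj hu hv hu' hv'
      rw [h4, Finset.card_pair h3]
    · rw [if_neg hd]
      obtain ⟨u, hu⟩ := hsurj g
      rw [my_fib_sgl hinj hd hu, card_singleton]
  rw [h1, Finset.sum_congr rfl fun g _ => h2 g, Finset.sum_add_distrib, Finset.sum_const,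
    Finset.card_univ, smul_eq_mul, mul_one, Nat.add_sub_cancel_left, Finset.sum_boole,
    Fintype.card_subtype]
  simp

private lemma my_abs {U G : Type} [Fintype U] [Fintype G] [DecidableEq U] [DecidableEq G]
    (s : U → G) (sg : U → Bool) (hinj : ∀ u v, s u = s v → sg u = sg v → u = v)
    (hsurj : Function.Surjective s) (A A' B B' : Matrix G G ℂ) (hA : A * A' = 1) (hB : B * B' = 1)
    (K : U → ℂ) (hK1 : ∀ u, (∀ v, s v = s u → v = u) → K u ≠ 0)
    (hK2 : ∀ u v, s u = s v → u ≠ v → K u ≠ K v) :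
    ∃ (η : Type) (_ : Fintype η) (T : ((G → ℂ) × (η → ℂ)) →ₗ[ℂ] (U → ℂ))
      (w : (G → ℤ) →+ (U → ℂ)) (α : (G → ℤ) →+ (G → ℂ)) (β : (G → ℤ) →+ (η → ℂ)) (R0 : ℝ),
      Fintype.card η = Fintype.card U - Fintype.card G ∧
      (∀ j u, T (Pi.single j 1, 0) u = A (s u) j) ∧
      (∀ b u, w b u = myE (sg u) * ∑ k, (b k : ℂ) * B (s u) k) ∧
      (∀ b, T (α b, β b) = w b) ∧
      (∀ b : G → ℤ, (∀ j, ∑ u, K u * w b u * A (s u) j = 0) → b = 0) ∧
      (∀ z : U → ℂ, ‖z‖ ≤ 1 → ∃ x y, ‖x‖ ≤ R0 ∧ ‖y‖ ≤ R0 ∧ T (x, y) = z) := by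
  classical
  set D : G → Prop := fun g => ∃ u v, s u = g ∧ s v = g ∧ sg u = true ∧ sg v = false with hD
  -- the linear map
  set T : ((G → ℂ) × ({g : G // D g} → ℂ)) →ₗ[ℂ] (U → ℂ) :=
    { toFun := fun X u => (∑ j, A (s u) j * X.1 j) +
        myE (sg u) * (if h : D (s u) then X.2 ⟨s u, h⟩ else 0)
      map_add' := by
        intro X Y
        funext u
        simp only [Prod.fst_add, Prod.snd_add, Pi.add_apply, mul_add, Finset.sum_add_distrib]
        split_ifs <;> ring
      map_smul' := by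
        intro c X
        funext u
        simp only [Prod.smul_fst, Prod.smul_snd, Pi.smul_apply, smul_eq_mul, RingHom.id_apply,
          mul_add, Finset.mul_sum]
        congr 1
        · exact Finset.sum_congr rfl fun j _ => by ring
        · split_ifs <;> ring } with hT
  have hTv : ∀ x y u, T (x, y) u = (∑ j, A (s u) j * x j) +
        myE (sg u) * (if h : D (s u) then y ⟨s u, h⟩ else 0) := fun x y u => rfl
  have hAX : ∀ X : G → ℂ, ∀ g, ∑ j, A g j * (A'.mulVec X) j = X g := by
    intro X g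
    have h4 : A.mulVec (A'.mulVec X) = X := by
      rw [Matrix.mulVec_mulVec, hA, Matrix.one_mulVec]
    exact congrFun h4 g
  have hsur : Function.Surjective T := by
    intro z
    have key : ∃ (X : G → ℂ) (Y : {g : G // D g} → ℂ), ∀ u, X (s u) +
        myE (sg u) * (if h : D (s u) then Y ⟨s u, h⟩ else 0) = z u := by
      refine ⟨fun g => (∑ x ∈ univ.filter (fun x => s x = g), z x) /
        ((univ.filter (fun x => s x = g)).card : ℂ),
        fun g => (∑ x ∈ univ.filter (fun x => s x = (g : G)), myE (sg x) * z x) / 2, fun u => ?_⟩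
      by_cases hd : D (s u)
      · rw [dif_pos hd]
        obtain ⟨u1, u2, h5, h6, h7, h8⟩ := hd
        obtain ⟨h9, h10⟩ := my_fib_dbl hinj h5 h6 h7 h8
        simp only [h10, Finset.sum_pair h9, Finset.card_pair h9, h7, h8]
        have h11 : u = u1 ∨ u = u2 := by
          have : u ∈ (univ.filter fun x => s x = s u) := by simp
          rw [h10] at this
          simpa using this
        rcases h11 with h11 | h11
        · rw [h11, h7]
          simp only [myE]
          push_cast
          norm_num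
          ring
        · rw [h11, h8]
          simp only [myE]
          push_cast
          norm_num
          ring
      · rw [dif_neg hd]
        simp only [my_fib_sgl hinj hd rfl]
        simp
    obtain ⟨X, Y, h⟩ := key
    refine ⟨(A'.mulVec X, Y), ?_⟩
    funext u
    rw [hTv, hAX]
    exact h u
  obtain ⟨S, hS⟩ := LinearMap.exists_rightInverse_of_surjective T (LinearMap.range_eq_top.2 hsur)
  have hS' : ∀ z, T (S z) = z := fun z => by
    have := congrArg (fun f => f z) hS
    simpa using this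
  set w : (G → ℤ) →+ (U → ℂ) := AddMonoidHom.mk'
    (fun b u => myE (sg u) * ∑ k, (b k : ℂ) * B (s u) k) (by
      intro a b
      funext u
      simp only [Pi.add_apply, Int.cast_add, add_mul, Finset.sum_add_distrib, mul_add]) with hw
  have hwv : ∀ b u, w b u = myE (sg u) * ∑ k, (b k : ℂ) * B (s u) k := fun b u => rfl
  refine ⟨{g : G // D g}, inferInstance, T, w,
    ((LinearMap.fst ℂ _ _).comp S).toAddMonoidHom.comp w,
    ((LinearMap.snd ℂ _ _).comp S).toAddMonoidHom.comp w,
    ‖LinearMap.toContinuousLinearMap S‖, my_card hinj hsurj, ?_, hwv, ?_, ?_, ?_⟩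
  · intro j u
    rw [hTv]
    simp [Pi.single_apply]
  · intro b
    have : T (S (w b)) = w b := hS' (w b)
    exact this
  · intro b hb
    -- group the sum
    set M : G → ℂ := fun g => ∑ u ∈ univ.filter (fun u => s u = g), K u * myE (sg u) with hM
    set Bb : G → ℂ := fun g => ∑ k, (b k : ℂ) * B g k with hBb
    have h1 : ∀ j, ∑ g, M g * Bb g * A g j = 0 := by
      intro j
      rw [← hb j, ← Finset.sum_fiberwise univ s (fun u => K u * w b u * A (s u) j)]
      refine Finset.sum_congr rfl fun g _ => ?_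
      rw [hM]
      simp only [Finset.sum_mul]
      refine Finset.sum_congr rfl fun u hu => ?_
      have hsu : s u = g := (mem_filter.1 hu).2
      rw [hwv, hBb, hsu]
      ring
    have h2 : ∀ g, M g * Bb g = 0 := by
      have h3 : Matrix.vecMul (fun g => M g * Bb g) A = 0 := by
        funext j
        exact h1 j
      have h4 : Matrix.vecMul (fun g => M g * Bb g) (A * A') = 0 := by
        rw [← Matrix.vecMul_vecMul, h3, Matrix.zero_vecMul]
      rw [hA, Matrix.vecMul_one] at h4
      exact fun g => congrFun h4 g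
    have h5 : ∀ g, M g ≠ 0 := by
      intro g
      by_cases hd : D g
      · obtain ⟨u1, u2, h5, h6, h7, h8⟩ := hd
        obtain ⟨h9, h10⟩ := my_fib_dbl hinj h5 h6 h7 h8
        rw [hM]
        simp only [h10, Finset.sum_pair h9, h7, h8, myE]
        intro h0
        refine hK2 u1 u2 (h5.trans h6.symm) h9 ?_
        simp only [if_true, Bool.false_eq_true, if_false] at h0
        linear_combination h0
      · obtain ⟨u, hu⟩ := hsurj g
        have h10 := my_fib_sgl hinj hd hu
        rw [hM]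
        simp only [h10, Finset.sum_singleton]
        have h11 : K u ≠ 0 := by
          refine hK1 u fun v hv => ?_
          have : v ∈ (univ.filter fun x => s x = g) := by
            simp [hv, hu]
          rw [h10] at this
          simpa using this
        have h12 : myE (sg u) ≠ 0 := by
          unfold myE
          split_ifs
          · exact one_ne_zero
          · exact neg_ne_zero.2 one_ne_zero
        exact mul_ne_zero h11 h12
    have h6 : B.mulVec (fun k => (b k : ℂ)) = 0 := by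
      funext g
      have h7 := (mul_eq_zero.1 (h2 g)).resolve_left (h5 g)
      show ∑ k, B g k * (b k : ℂ) = 0
      rw [← h7]
      exact Finset.sum_congr rfl fun k _ => by ring
    have h7 : (fun k => (b k : ℂ)) = 0 := by
      have h8 : B'.mulVec (B.mulVec (fun k => (b k : ℂ))) = 0 := by
        rw [h6, Matrix.mulVec_zero]
      rw [Matrix.mulVec_mulVec, mul_eq_one_comm.1 hB, Matrix.one_mulVec] at h8
      exact h8
    funext k
    have h8 := congrFun h7 k
    simp only [Pi.zero_apply] at h8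
    exact_mod_cast h8
  · intro z hz
    have h1 : ‖S z‖ ≤ ‖LinearMap.toContinuousLinearMap S‖ := by
      have h2 : ‖S z‖ ≤ ‖LinearMap.toContinuousLinearMap S‖ * ‖z‖ :=
        (LinearMap.toContinuousLinearMap S).le_opNorm z
      refine h2.trans ?_
      exact mul_le_of_le_one_right (norm_nonneg _) hz
    refine ⟨(S z).1, (S z).2, (norm_fst_le (S z)).trans h1, (norm_snd_le (S z)).trans h1, ?_⟩
    exact hS' z

private lemma my_pow {q : ℕ} (hq : 0 < q) : zt q ^ q = 1 := by
  unfold zt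
  rw [← Complex.exp_nat_mul]
  have h : ((q : ℕ) : ℂ) ≠ 0 := by exact_mod_cast hq.ne'
  rw [mul_div_cancel₀ _ h]
  exact Complex.exp_two_pi_mul_I

/-- `(ζ^(q-t))^m = (ζ^t)^(q-m)` -/
private lemma my_flip {q t m : ℕ} (hq : 0 < q) (ht : t ≤ q) (hm : m ≤ q) :
    (zt q ^ (q - t)) ^ m = (zt q ^ t) ^ (q - m) := by
  have h1 : (zt q ^ t) ^ m * (zt q ^ (q - t)) ^ m = 1 := by
    rw [← mul_pow, ← pow_add, Nat.add_sub_cancel' ht, my_pow hq, one_pow]
  have h2 : (zt q ^ t) ^ m * (zt q ^ t) ^ (q - m) = 1 := by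
    rw [← pow_add, Nat.add_sub_cancel' hm, ← pow_mul, mul_comm, pow_mul, my_pow hq, one_pow]
  have h3 : (zt q ^ t) ^ m ≠ 0 := left_ne_zero_of_mul_eq_one h1
  exact mul_left_cancel₀ h3 (h1.trans h2.symm)

private lemma my_Pc {q : ℕ} (hq : 0 < q) {t : ℕ} (ht : t ≤ q) (j : Fin ((q - 1) / 2)) :
    Polynomial.aeval (zt q ^ (q - t)) (Pc q j) = Polynomial.aeval (zt q ^ t) (Pc q j) := by
  have hj := j.2
  unfold Pc
  simp only [map_add, map_pow, Polynomial.aeval_X]
  rw [my_flip hq ht (m := (j : ℕ) + 1) (by omega), my_flip hq ht (m := q - 1 - (j : ℕ)) (by omega)]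
  have e1 : q - ((j : ℕ) + 1) = q - 1 - (j : ℕ) := by omega
  have e2 : q - (q - 1 - (j : ℕ)) = (j : ℕ) + 1 := by omega
  rw [e1, e2, add_comm]

private lemma my_Ps {q : ℕ} (hq : 0 < q) {t : ℕ} (ht : t ≤ q) (j : Fin ((q - 1) / 2)) :
    Polynomial.aeval (zt q ^ (q - t)) (Ps q j) = -Polynomial.aeval (zt q ^ t) (Ps q j) := by
  have hj := j.2
  unfold Ps
  simp only [map_sub, map_pow, Polynomial.aeval_X]
  rw [my_flip hq ht (m := (j : ℕ) + 1) (by omega), my_flip hq ht (m := q - 1 - (j : ℕ)) (by omega)]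
  have e1 : q - ((j : ℕ) + 1) = q - 1 - (j : ℕ) := by omega
  have e2 : q - (q - 1 - (j : ℕ)) = (j : ℕ) + 1 := by omega
  rw [e1, e2, neg_sub]

/-- Proof. `η = {s : Fin g // s + 1 ∈ Ψ ∧ q - (s + 1) ∈ Ψ}` (double classes).
`T (x, y)_u = ∑_j x_j Pc j (ζ^u) + ε(u) y_{s(u)}` (the second term only if `s(u)` is double).
`(w b)_u = ∑_k b_k Ps k (ζ^u) = ε(u) (B b)_{s(u)}`. `β b = (B b)` on the double classes; `α b = A⁻¹ X`,
`X_s = 0` for `s` double, `X_s = ε(u) (B b)_s` for `s` single, `u` the element of `Ψ` with `s(u) = s`.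
`card η = |Ψ| - g`: `Ψ` is the union of `{u ∈ Ψ : u ≤ g}` and `{u ∈ Ψ : q - u ≤ g}`.
`hM`: `∑_u K_u (w b)_u Pc j (ζ^u) = ∑_s M_s (B b)_s A_js`, `M_s = ∑_{u ∈ Ψ, s(u) = s} ε(u) K_u ≠ 0` by `hK1`,
`hK2`; so `(M_s (B b)_s)_s = 0` (`A` invertible), `B b = 0`, `b = 0`.
`z ∈ C^Ψ`: `X_s = z_u` (single), `X_s = (z_s + z_{q-s})/2`, `y_s = (z_s - z_{q-s})/2` (double), `x = A⁻¹ X`. -/
theorem coord (q : ℕ) (hq : q.Prime) (h3 : 3 ≤ q) (Ψ : Finset ℕ) (h1 : ∀ u ∈ Ψ, 1 ≤ u ∧ u < q)
    (h2 : ∀ u, 1 ≤ u → u < q → u ∈ Ψ ∨ q - u ∈ Ψ) (K : Ψ → ℂ)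
    (hK1 : ∀ u : Ψ, q - (u : ℕ) ∉ Ψ → K u ≠ 0)
    (hK2 : ∀ u : Ψ, ∀ hv : q - (u : ℕ) ∈ Ψ, K u ≠ K ⟨q - (u : ℕ), hv⟩) :
    ∃ (η : Type) (_ : Fintype η) (T : ((Fin ((q - 1) / 2) → ℂ) × (η → ℂ)) →ₗ[ℂ] (Ψ → ℂ))
      (w : (Fin ((q - 1) / 2) → ℤ) →+ (Ψ → ℂ))
      (α : (Fin ((q - 1) / 2) → ℤ) →+ (Fin ((q - 1) / 2) → ℂ))
      (β : (Fin ((q - 1) / 2) → ℤ) →+ (η → ℂ)) (R0 : ℝ),
      Fintype.card η = Ψ.card - (q - 1) / 2 ∧
      (∀ j, T (Pi.single j 1, 0) = pt q Ψ (Pc q j)) ∧
      (∀ b, w b = pt q Ψ (∑ k, b k • Ps q k)) ∧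
      (∀ b, T (α b, β b) = w b) ∧
      (∀ b : Fin ((q - 1) / 2) → ℤ,
        (∀ j, ∑ u, K u * w b u * pt q Ψ (Pc q j) u = 0) → b = 0) ∧
      (∀ z : Ψ → ℂ, ‖z‖ ≤ 1 → ∃ x y, ‖x‖ ≤ R0 ∧ ‖y‖ ≤ R0 ∧ T (x, y) = z) := by
  have hq0 : 0 < q := hq.pos
  have hodd : q % 2 = 1 := by
    rcases hq.eq_two_or_odd with h | h
    · omega
    · exact h
  set g := (q - 1) / 2 with hg
  have hqg : q = 2 * g + 1 := by omega
  -- the class and the sign of `u`
  have hs1 : ∀ u : Ψ, (if (u : ℕ) ≤ g then (u : ℕ) - 1 else q - (u : ℕ) - 1) < g := by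
    intro u
    have h4 := h1 u u.2
    split_ifs <;> omega
  set s : Ψ → Fin g := fun u => ⟨if (u : ℕ) ≤ g then (u : ℕ) - 1 else q - (u : ℕ) - 1, hs1 u⟩ with hs
  set sg : Ψ → Bool := fun u => decide ((u : ℕ) ≤ g) with hsg
  have hsv : ∀ u : Ψ, ((s u : Fin g) : ℕ) = if (u : ℕ) ≤ g then (u : ℕ) - 1 else q - (u : ℕ) - 1 :=
    fun u => rfl
  have hval : ∀ u : Ψ, (sg u = true → (u : ℕ) = (s u : ℕ) + 1) ∧
      (sg u = false → (u : ℕ) = q - ((s u : ℕ) + 1)) := by
    intro u
    have h4 := h1 u u.2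
    rw [hsv]
    constructor
    · intro h
      have h5 : (u : ℕ) ≤ g := of_decide_eq_true h
      rw [if_pos h5]
      omega
    · intro h
      have h5 : ¬ (u : ℕ) ≤ g := of_decide_eq_false h
      rw [if_neg h5]
      omega
  have hinj : ∀ u v, s u = s v → sg u = sg v → u = v := by
    intro u v huv hsuv
    apply Subtype.ext
    cases hb : sg u
    · rw [(hval u).2 hb, (hval v).2 (hsuv ▸ hb), huv]
    · rw [(hval u).1 hb, (hval v).1 (hsuv ▸ hb), huv]
  have hsurj : Function.Surjective s := by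
    intro t
    have ht := t.2
    rcases h2 ((t : ℕ) + 1) (by omega) (by omega) with h4 | h4
    · refine ⟨⟨(t : ℕ) + 1, h4⟩, ?_⟩
      apply Fin.ext
      rw [hsv]
      simp only
      rw [if_pos (by omega)]
      omega
    · refine ⟨⟨q - ((t : ℕ) + 1), h4⟩, ?_⟩
      apply Fin.ext
      rw [hsv]
      simp only
      rw [if_neg (by omega)]
      omega
  -- different elements of one class
  have hpair : ∀ u v : Ψ, s u = s v → u ≠ v → (v : ℕ) = q - (u : ℕ) := by
    intro u v huv hne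
    have hu := h1 u u.2
    have hv := h1 v v.2
    have hsne : sg u ≠ sg v := fun h => hne (hinj u v huv h)
    have ht := (s u).2
    cases hb : sg u <;> cases hb' : sg v
    · exact absurd (hb.trans hb'.symm) hsne
    · rw [(hval u).2 hb, (hval v).1 hb', huv]
      have ht := (s v).2
      omega
    · rw [(hval u).1 hb, (hval v).2 hb', huv]
    · exact absurd (hb.trans hb'.symm) hsne
  -- the matrices
  set A : Matrix (Fin g) (Fin g) ℂ := fun t j => Polynomial.aeval (zt q ^ ((t : ℕ) + 1)) (Pc q j)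
    with hA
  set B : Matrix (Fin g) (Fin g) ℂ := fun t j => Polynomial.aeval (zt q ^ ((t : ℕ) + 1)) (Ps q j)
    with hB
  have hq1 : (q : ℂ) ≠ 0 := by exact_mod_cast hq0.ne'
  have hAA : A * (A.transpose * ((q : ℂ)⁻¹ • (1 + (2 : ℂ) • Matrix.of fun _ _ => (1 : ℂ)))) = 1 := by
    have h4 : A * A.transpose = (q : ℂ) • 1 - (2 : ℂ) • Matrix.of fun _ _ => (1 : ℂ) := by
      ext t t'
      rw [Matrix.mul_apply]
      have h5 := orth_c q hq h3 t t'
      simp only [Matrix.transpose_apply, Matrix.sub_apply, Matrix.smul_apply, Matrix.one_apply,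
        Matrix.of_apply, smul_eq_mul, mul_one]
      rw [hA]
      simp only
      rw [h5]
      split_ifs <;> ring
    have h6 : (Matrix.of fun (_ _ : Fin g) => (1 : ℂ)) * (Matrix.of fun (_ _ : Fin g) => (1 : ℂ)) =
        (g : ℂ) • Matrix.of fun _ _ => (1 : ℂ) := by
      ext t t'
      simp [Matrix.mul_apply]
    have h7 : (q : ℂ) = 2 * (g : ℂ) + 1 := by exact_mod_cast hqg
    rw [← Matrix.mul_assoc, h4, Matrix.mul_smul, Matrix.sub_mul, Matrix.mul_add, Matrix.mul_add,
      Matrix.mul_one, Matrix.mul_one, Matrix.smul_mul, Matrix.one_mul, Matrix.smul_mul,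
      Matrix.mul_smul, h6, smul_smul, smul_smul, smul_smul]
    ext t t'
    simp only [Matrix.smul_apply, Matrix.sub_apply, Matrix.add_apply, Matrix.one_apply,
      Matrix.of_apply, smul_eq_mul, mul_one]
    split_ifs
    · field_simp
      rw [h7]
      ring
    · field_simp
      rw [h7]
      ring
  have hBB : B * ((-(q : ℂ)⁻¹) • B.transpose) = 1 := by
    rw [Matrix.mul_smul]
    ext t t'
    rw [Matrix.smul_apply, Matrix.mul_apply]
    have h5 := orth_s q hq h3 t t'
    simp only [Matrix.transpose_apply, Matrix.one_apply, smul_eq_mul]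
    rw [hB]
    simp only
    rw [h5]
    split_ifs
    · field_simp
    · ring
  -- values of `pt`
  have hPc : ∀ j u, pt q Ψ (Pc q j) u = A (s u) j := by
    intro j u
    unfold pt
    rw [hA]
    simp only
    cases hb : sg u
    · conv_lhs => rw [(hval u).2 hb]
      exact my_Pc hq0 (by have := (s u).2; omega) j
    · conv_lhs => rw [(hval u).1 hb]
  have hPs : ∀ (b : Fin g → ℤ) u, pt q Ψ (∑ k, b k • Ps q k) u =
      myE (sg u) * ∑ k, (b k : ℂ) * B (s u) k := by
    intro b u
    unfold pt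
    rw [hB, map_sum, Finset.mul_sum]
    simp only [zsmul_eq_mul, map_mul, map_intCast]
    refine Finset.sum_congr rfl fun k _ => ?_
    cases hb : sg u
    · conv_lhs => rw [(hval u).2 hb]
      rw [my_Ps hq0 (by have := (s u).2; omega) k]
      simp [myE]
    · conv_lhs => rw [(hval u).1 hb]
      simp [myE]
  obtain ⟨η, hη, T, w, α, β, R0, c1, c2, c3, c4, c5, c6⟩ := my_abs s sg hinj hsurj A _ B _ hAA hBB K
    (fun u hu => hK1 u fun hv => by
      have h4 := h1 u u.2
      have h5 : s ⟨q - (u : ℕ), hv⟩ = s u := by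
        apply Fin.ext
        rw [hsv, hsv]
        simp only
        split_ifs <;> omega
      have h6 := congrArg Subtype.val (hu _ h5)
      simp only at h6
      omega)
    (fun u v huv hne => by
      have h4 := hpair u v huv hne
      have h5 : q - (u : ℕ) ∈ Ψ := h4 ▸ v.2
      have h6 : v = ⟨q - (u : ℕ), h5⟩ := Subtype.ext h4
      rw [h6]
      exact hK2 u h5)
  refine ⟨η, hη, T, w, α, β, R0, ?_, ?_, ?_, c4, ?_, c6⟩
  · rw [c1, Fintype.card_coe, Fintype.card_fin]
  · intro j
    funext u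
    rw [c2, hPc]
  · intro b
    funext u
    rw [c3, hPs]
  · intro b hb
    refine c5 b fun j => ?_
    rw [← hb j]
    exact Finset.sum_congr rfl fun u _ => by rw [hPc]

end

end Pool.Agent.Helper53.LT
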