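import Pool.Agent.Helper53.LT.Ga
import Pool.Agent.Helper53.LT.My

/-!
PROJECT LT, block B, file Bm: `B_main`.
-/

namespace Pool.Agent.Helper53.LT

open Finset Pool.Agent.Helper34.LT

/-- `pt` on the subset, `emb (z + pt P) = emb z + lam P`. -/
theorem emb_add (q a b : ℕ) (s : Finset ℕ) (h : Phi q a b ⊆ s) (P : Polynomial ℤ) (z : s → ℂ) :
    emb h (fun u => rho q a b u) (z + pt q s P) =
      emb h (fun u => rho q a b u) z + lam q a b P := by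
  ext u
  simp only [emb, lam, pt, Pi.add_apply]
  ring

theorem emb_zero {s t : Finset ℕ} (h : t ⊆ s) (X : t → ℂ) : emb h X 0 = 0 := by
  ext u
  simp [emb]

theorem emb_diff {s t : Finset ℕ} (h : t ⊆ s) (X : t → ℂ) : Differentiable ℂ (emb h X) := by
  unfold emb
  fun_prop

theorem emb_norm {s t : Finset ℕ} (h : t ⊆ s) (X : t → ℂ) (z : s → ℂ) :
    ‖emb h X z‖ ≤ ‖X‖ * ‖z‖ := by
  rw [pi_norm_le_iff_of_nonneg (by positivity)]
  intro u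
  simp only [emb, norm_mul]
  exact mul_le_mul (norm_le_pi_norm X u) (norm_le_pi_norm z _) (norm_nonneg _) (norm_nonneg _)

theorem sum_sub {s t : Finset ℕ} (h : t ⊆ s) (a : t → ℂ) (b : s → ℂ) :
    ∑ u : t, a u * b ⟨u, h u.2⟩ =
      ∑ u : s, (if h' : (u : ℕ) ∈ t then a ⟨u, h'⟩ else 0) * b u := by
  let F : ℕ → ℂ := fun n => (if h' : n ∈ t then a ⟨n, h'⟩ else 0) *
        (if h'' : n ∈ s then b ⟨n, h''⟩ else 0)
  have e1 : ∑ u : t, a u * b ⟨u, h u.2⟩ = ∑ u : t, F u := by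
    refine Finset.sum_congr rfl fun u _ => ?_
    simp only [F, u.2, h u.2, dif_pos]
  have e2 : ∑ u : s, (if h' : (u : ℕ) ∈ t then a ⟨u, h'⟩ else 0) * b u = ∑ u : s, F u := by
    refine Finset.sum_congr rfl fun u _ => ?_
    simp only [F, u.2, dif_pos]
  rw [e1, e2, Finset.sum_coe_sort t F, Finset.sum_coe_sort s F]
  refine Finset.sum_subset h fun n _ hn => ?_
  simp [F, hn]

theorem mem_Phi (q a b u : ℕ) : u ∈ Phi q a b ↔
    (1 ≤ u ∧ u ≤ q - 1) ∧ q < (u * a) % q + (u * b) % q := by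
  simp [Phi]

theorem sub_mod (q a u : ℕ) (hq : q.Prime) (ha : ¬ q ∣ a) (h1 : 1 ≤ u) (h2 : u < q) :
    ((q - u) * a) % q = q - (u * a) % q ∧ 0 < (u * a) % q ∧ (u * a) % q < q := by
  have hu : ¬ q ∣ u := Nat.not_dvd_of_pos_of_lt h1 h2
  have hua : ¬ q ∣ u * a := fun h => ((hq.dvd_mul).1 h).elim hu ha
  have h3 : 0 < (u * a) % q := Nat.pos_of_ne_zero fun h => hua (Nat.dvd_of_mod_eq_zero h)
  have h4 : (u * a) % q < q := Nat.mod_lt _ hq.pos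
  refine ⟨?_, h3, h4⟩
  have h5 : (q - u) * a + u * a = q * a := by
    rw [← add_mul]
    congr 1
    omega
  have h7 : (((q - u) * a) % q + (u * a) % q) % q = 0 := by
    rw [← Nat.add_mod, h5]
    simp
  have h8 : ((q - u) * a) % q < q := Nat.mod_lt _ hq.pos
  obtain ⟨k, hk⟩ := Nat.dvd_of_mod_eq_zero h7
  have hk2 : k < 2 := by
    by_contra hc
    have : q * 2 ≤ q * k := Nat.mul_le_mul_left q (by omega)
    omega
  have hk1 : k ≠ 0 := by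
    rintro rfl
    omega
  have : k = 1 := by omega
  subst this
  omega

theorem mem_sub (q a b : ℕ) (hq : q.Prime) (ha : ¬ q ∣ a) (hb : ¬ q ∣ b) (hab : ¬ q ∣ a + b)
    (u : ℕ) (h1 : 1 ≤ u) (h2 : u < q) : q - u ∈ Phi q a b ↔ u ∉ Phi q a b := by
  obtain ⟨a1, a2, a3⟩ := sub_mod q a u hq ha h1 h2
  obtain ⟨b1, b2, b3⟩ := sub_mod q b u hq hb h1 h2
  have hu : ¬ q ∣ u := Nat.not_dvd_of_pos_of_lt h1 h2
  have hua : ¬ q ∣ u * (a + b) := fun h => ((hq.dvd_mul).1 h).elim hu hab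
  have h3 : (u * a) % q + (u * b) % q ≠ q := by
    intro h
    apply hua
    rw [mul_add]
    apply Nat.dvd_of_mod_eq_zero
    rw [Nat.add_mod, h]
    simp
  rw [mem_Phi, mem_Phi, a1, b1]
  omega

theorem mon_bound {ι : Type} [Fintype ι] (g L : ℕ) (f0 : (ι → ℂ) → ℂ) (f : Fin g → (ι → ℂ) → ℂ)
    (e : Fin g → Fin (L + 1)) (z : ι → ℂ) (B : ℝ) (h0 : ‖f0 z‖ ≤ B) (h : ∀ i, ‖f i z‖ ≤ B) :
    ‖mon g L f0 f e z‖ ≤ B ^ (g * L) := by
  have hB : 0 ≤ B := (norm_nonneg _).trans h0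
  have hs : ∑ i, (e i : ℕ) ≤ g * L := by
    calc ∑ i, (e i : ℕ) ≤ ∑ _i : Fin g, L := Finset.sum_le_sum fun i _ => by
          have := (e i).2
          omega
      _ = g * L := by simp
  unfold mon
  rw [norm_mul, norm_pow, norm_prod]
  calc ‖f0 z‖ ^ (g * L - ∑ i, (e i : ℕ)) * ∏ i, ‖f i z ^ (e i : ℕ)‖
      ≤ B ^ (g * L - ∑ i, (e i : ℕ)) * ∏ i, B ^ (e i : ℕ) := by
        refine mul_le_mul (pow_le_pow_left₀ (norm_nonneg _) h0 _) ?_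
          (Finset.prod_nonneg fun i _ => norm_nonneg _) (by positivity)
        refine Finset.prod_le_prod (fun i _ => norm_nonneg _) fun i _ => ?_
        rw [norm_pow]
        exact pow_le_pow_left₀ (norm_nonneg _) (h i) _
    _ = B ^ (g * L) := by
        rw [Finset.prod_pow_eq_pow_sum, ← pow_add]
        congr 1
        omega

theorem mon_mul {ι : Type} (g L : ℕ) (f0 : (ι → ℂ) → ℂ) (f : Fin g → (ι → ℂ) → ℂ)
    (e : Fin g → Fin (L + 1)) (z z' : ι → ℂ) (E : ℂ) (h0 : f0 z' = E * f0 z)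
    (h : ∀ i, f i z' = E * f i z) :
    mon g L f0 f e z' = E ^ (g * L) * mon g L f0 f e z := by
  have hs : ∑ i, (e i : ℕ) ≤ g * L := by
    calc ∑ i, (e i : ℕ) ≤ ∑ _i : Fin g, L := Finset.sum_le_sum fun i _ => by
          have := (e i).2
          omega
      _ = g * L := by simp
  unfold mon
  simp only [h0, h, mul_pow, Finset.prod_mul_distrib, Finset.prod_pow_eq_pow_sum]
  have : E ^ (g * L) = E ^ (g * L - ∑ i, (e i : ℕ)) * E ^ (∑ i, (e i : ℕ)) := by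
    rw [← pow_add]
    congr 1
    omega
  rw [this]
  ring

theorem mon_diff {ι : Type} [Fintype ι] (g L : ℕ) (f0 : (ι → ℂ) → ℂ) (f : Fin g → (ι → ℂ) → ℂ)
    (e : Fin g → Fin (L + 1)) (h0 : Differentiable ℂ f0) (h : ∀ i, Differentiable ℂ (f i)) :
    Differentiable ℂ (mon g L f0 f e) := by
  unfold mon
  refine Differentiable.mul (h0.pow _) ?_
  intro z
  classical
  exact (HasFDerivAt.finsetProd (u := Finset.univ) (g := fun i z => f i z ^ (e i : ℕ))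
    (fun i _ => (((h i).pow (e i : ℕ)) z).hasFDerivAt)).differentiableAt

noncomputable section

/-- combined coefficient of the multiplier -/
def Kf (q : ℕ) (κ1 : Phi q 1 1 → ℂ) (κ2 : Phi q 1 3 → ℂ) : Psi q → ℂ := fun u =>
  (if h : (u : ℕ) ∈ Phi q 1 1 then κ1 ⟨u, h⟩ * rho q 1 1 u else 0) +
  (if h : (u : ℕ) ∈ Phi q 1 3 then κ2 ⟨u, h⟩ * rho q 1 3 u else 0)

theorem sub1 (q : ℕ) : Phi q 1 1 ⊆ Psi q := subset_union_left

theorem sub2 (q : ℕ) : Phi q 1 3 ⊆ Psi q := subset_union_right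

/-- first component -/
def em1 (q : ℕ) (z : Psi q → ℂ) : Phi q 1 1 → ℂ := emb (sub1 q) (fun u => rho q 1 1 u) z

/-- second component -/
def em2 (q : ℕ) (z : Psi q → ℂ) : Phi q 1 3 → ℂ := emb (sub2 q) (fun u => rho q 1 3 u) z

theorem Kf_sum (q : ℕ) (κ1 : Phi q 1 1 → ℂ) (κ2 : Phi q 1 3 → ℂ) (P : Polynomial ℤ)
    (z : Psi q → ℂ) :
    (∑ u, κ1 u * (starRingEnd ℂ) (pt q _ P u) * em1 q z u) +
      ∑ u, κ2 u * (starRingEnd ℂ) (pt q _ P u) * em2 q z u =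
    ∑ u, Kf q κ1 κ2 u * (starRingEnd ℂ) (pt q (Psi q) P u) * z u := by
  have e1 : ∑ u, κ1 u * (starRingEnd ℂ) (pt q _ P u) * em1 q z u =
      ∑ u : Phi q 1 1, (κ1 u * rho q 1 1 u) *
        (fun v : Psi q => (starRingEnd ℂ) (pt q (Psi q) P v) * z v)
          ⟨u, sub1 q u.2⟩ := by
    refine Finset.sum_congr rfl fun u _ => ?_
    simp only [em1, emb, pt]
    ring
  have e2 : ∑ u, κ2 u * (starRingEnd ℂ) (pt q _ P u) * em2 q z u =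
      ∑ u : Phi q 1 3, (κ2 u * rho q 1 3 u) *
        (fun v : Psi q => (starRingEnd ℂ) (pt q (Psi q) P v) * z v)
          ⟨u, sub2 q u.2⟩ := by
    refine Finset.sum_congr rfl fun u _ => ?_
    simp only [em2, emb, pt]
    ring
  rw [e1, e2]
  have s1 := sum_sub (sub1 q)
    (fun u => κ1 u * rho q 1 1 u)
    (fun v : Psi q => (starRingEnd ℂ) (pt q (Psi q) P v) * z v)
  have s2 := sum_sub (sub2 q)
    (fun u => κ2 u * rho q 1 3 u)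
    (fun v : Psi q => (starRingEnd ℂ) (pt q (Psi q) P v) * z v)
  refine (congrArg₂ (· + ·) s1 s2).trans ?_
  rw [← Finset.sum_add_distrib]
  refine Finset.sum_congr rfl fun u _ => ?_
  simp only [Kf]
  ring

theorem em1_add (q : ℕ) (P : Polynomial ℤ) (z : Psi q → ℂ) :
    em1 q (z + pt q (Psi q) P) = em1 q z + lam q 1 1 P :=
  emb_add q 1 1 (Psi q) _ P z

theorem em2_add (q : ℕ) (P : Polynomial ℤ) (z : Psi q → ℂ) :
    em2 q (z + pt q (Psi q) P) = em2 q z + lam q 1 3 P :=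
  emb_add q 1 3 (Psi q) _ P z

theorem c_bound (q a b : ℕ) (κ : Phi q a b → ℂ) (c : Polynomial ℤ → ℂ)
    (f0 : (Phi q a b → ℂ) → ℂ) (h : QP q a b κ c f0) (C : ℝ)
    (hC : ∀ z, ‖f0 z‖ ≤ Real.exp (C * (1 + ‖z‖ ^ 2))) (hne : ∃ z, f0 z ≠ 0) :
    ∃ C' : ℝ, 0 ≤ C' ∧ ∀ P, (c P).re ≤ C' * (1 + ‖pt q (Phi q a b) P‖ ^ 2) := by
  obtain ⟨z0, hz0⟩ := hne
  set Cp : ℝ := max C 0 with hCp
  have hCp0 : 0 ≤ Cp := le_max_right _ _
  set R : Phi q a b → ℂ := fun u => rho q a b u with hR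
  refine ⟨Cp * (1 + 2 * ‖z0‖ ^ 2 + 2 * ‖R‖ ^ 2) + |Real.log ‖f0 z0‖| +
    Fintype.card (Phi q a b) * ‖κ‖ * ‖z0‖, by positivity, fun P => ?_⟩
  set p := pt q (Phi q a b) P with hp
  have h1 := h P z0
  have h2 : ‖f0 (z0 + lam q a b P)‖ =
      Real.exp ((∑ u, κ u * (starRingEnd ℂ) (p u) * z0 u + c P).re) * ‖f0 z0‖ := by
    rw [h1, norm_mul, Complex.norm_exp]
  have h3 := hC (z0 + lam q a b P)
  have hpos : 0 < ‖f0 z0‖ := norm_pos_iff.2 hz0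
  have hlam : ‖lam q a b P‖ ≤ ‖R‖ * ‖p‖ := by
    rw [pi_norm_le_iff_of_nonneg (by positivity)]
    intro u
    simp only [lam, norm_mul]
    exact mul_le_mul (norm_le_pi_norm R u) (norm_le_pi_norm p u) (norm_nonneg _) (norm_nonneg _)
  have h4 : ‖z0 + lam q a b P‖ ^ 2 ≤ 2 * ‖z0‖ ^ 2 + 2 * (‖R‖ * ‖p‖) ^ 2 := by
    have h5 : ‖z0 + lam q a b P‖ ≤ ‖z0‖ + ‖R‖ * ‖p‖ :=
      (norm_add_le _ _).trans (by linarith)
    calc ‖z0 + lam q a b P‖ ^ 2 ≤ (‖z0‖ + ‖R‖ * ‖p‖) ^ 2 :=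
          pow_le_pow_left₀ (norm_nonneg _) h5 2
      _ ≤ _ := by nlinarith [sq_nonneg (‖z0‖ - ‖R‖ * ‖p‖)]
  have h6 : (∑ u, κ u * (starRingEnd ℂ) (p u) * z0 u + c P).re + Real.log ‖f0 z0‖ ≤
      Cp * (1 + (2 * ‖z0‖ ^ 2 + 2 * (‖R‖ * ‖p‖) ^ 2)) := by
    have h7 : Real.exp ((∑ u, κ u * (starRingEnd ℂ) (p u) * z0 u + c P).re +
        Real.log ‖f0 z0‖) ≤ Real.exp (Cp * (1 + (2 * ‖z0‖ ^ 2 + 2 * (‖R‖ * ‖p‖) ^ 2))) := by
      rw [Real.exp_add, Real.exp_log hpos, ← h2]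
      refine h3.trans (Real.exp_le_exp.2 ?_)
      calc C * (1 + ‖z0 + lam q a b P‖ ^ 2) ≤ Cp * (1 + ‖z0 + lam q a b P‖ ^ 2) :=
            mul_le_mul_of_nonneg_right (le_max_left _ _) (by positivity)
        _ ≤ _ := mul_le_mul_of_nonneg_left (by linarith) hCp0
    exact Real.exp_le_exp.1 h7
  have h8 : -(Fintype.card (Phi q a b) * ‖κ‖ * ‖z0‖ * ‖p‖) ≤
      (∑ u, κ u * (starRingEnd ℂ) (p u) * z0 u).re := by
    have h9 : ‖∑ u, κ u * (starRingEnd ℂ) (p u) * z0 u‖ ≤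
        Fintype.card (Phi q a b) * ‖κ‖ * ‖z0‖ * ‖p‖ := by
      calc ‖∑ u, κ u * (starRingEnd ℂ) (p u) * z0 u‖
          ≤ ∑ u, ‖κ u * (starRingEnd ℂ) (p u) * z0 u‖ := norm_sum_le _ _
        _ ≤ ∑ _u : Phi q a b, ‖κ‖ * ‖p‖ * ‖z0‖ := by
            refine Finset.sum_le_sum fun u _ => ?_
            rw [norm_mul, norm_mul, RCLike.norm_conj]
            refine mul_le_mul (mul_le_mul (norm_le_pi_norm κ u) (norm_le_pi_norm p u)
              (norm_nonneg _) (norm_nonneg _)) (norm_le_pi_norm z0 u) (norm_nonneg _)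
              (by positivity)
        _ = _ := by
            rw [Finset.sum_const, Finset.card_univ, nsmul_eq_mul]
            ring
    have h10 := (abs_le.1 ((Complex.abs_re_le_norm _).trans h9)).1
    exact h10
  rw [Complex.add_re] at h6
  have h11 : ‖p‖ ≤ 1 + ‖p‖ ^ 2 := by nlinarith [sq_nonneg (‖p‖ - 1)]
  have h12 : -|Real.log ‖f0 z0‖| ≤ Real.log ‖f0 z0‖ := neg_abs_le _
  have hp2 : 0 ≤ ‖p‖ ^ 2 := by positivity
  have h13 : Fintype.card (Phi q a b) * ‖κ‖ * ‖z0‖ * ‖p‖ ≤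
      Fintype.card (Phi q a b) * ‖κ‖ * ‖z0‖ * (1 + ‖p‖ ^ 2) :=
    mul_le_mul_of_nonneg_left h11 (by positivity)
  have h14 : Cp * (1 + (2 * ‖z0‖ ^ 2 + 2 * (‖R‖ * ‖p‖) ^ 2)) ≤
      Cp * (1 + 2 * ‖z0‖ ^ 2 + 2 * ‖R‖ ^ 2) * (1 + ‖p‖ ^ 2) := by
    rw [mul_assoc]
    refine mul_le_mul_of_nonneg_left ?_ hCp0
    nlinarith [mul_nonneg (sq_nonneg ‖z0‖) hp2, sq_nonneg ‖R‖]
  have h15 : |Real.log ‖f0 z0‖| ≤ |Real.log ‖f0 z0‖| * (1 + ‖p‖ ^ 2) :=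
    le_mul_of_one_le_right (abs_nonneg _) (by linarith)
  nlinarith

/-- the antireal point, as an additive map -/
def wb (q : ℕ) (s : Finset ℕ) : (Fin ((q - 1) / 2) → ℤ) →+ (s → ℂ) :=
  AddMonoidHom.mk' (fun b => pt q s (∑ k, b k • Ps q k)) fun b c => by
    rw [← pt_add, ← Finset.sum_add_distrib]
    simp only [Pi.add_apply, add_smul]

theorem wb_apply (q : ℕ) (s : Finset ℕ) (b : Fin ((q - 1) / 2) → ℤ) :
    wb q s b = pt q s (∑ k, b k • Ps q k) := rfl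

theorem mul_qp (q : ℕ) (κ1 : Phi q 1 1 → ℂ) (c1 : Polynomial ℤ → ℂ)
    (G1 : (Phi q 1 1 → ℂ) → ℂ) (h1 : QP q 1 1 κ1 c1 G1) (κ2 : Phi q 1 3 → ℂ)
    (c2 : Polynomial ℤ → ℂ) (G2 : (Phi q 1 3 → ℂ) → ℂ) (h2 : QP q 1 3 κ2 c2 G2)
    (P : Polynomial ℤ) (z : Psi q → ℂ) :
    G1 (em1 q (z + pt q (Psi q) P)) * G2 (em2 q (z + pt q (Psi q) P)) =
      Complex.exp ((∑ u, Kf q κ1 κ2 u * (starRingEnd ℂ) (pt q (Psi q) P u) * z u) +
        (c1 P + c2 P)) * (G1 (em1 q z) * G2 (em2 q z)) := by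
  rw [em1_add, em2_add, h1, h2, ← Kf_sum, add_add_add_comm]
  generalize (∑ u, κ1 u * (starRingEnd ℂ) (pt q _ P u) * em1 q z u) + c1 P = A
  generalize (∑ u, κ2 u * (starRingEnd ℂ) (pt q _ P u) * em2 q z u) + c2 P = B
  rw [Complex.exp_add]
  ring

theorem mon_qp (q L : ℕ) (κ1 : Phi q 1 1 → ℂ) (c1 : Polynomial ℤ → ℂ)
    (f0 : (Phi q 1 1 → ℂ) → ℂ) (f : Fin ((q - 1) / 2) → (Phi q 1 1 → ℂ) → ℂ)
    (h10 : QP q 1 1 κ1 c1 f0) (h1 : ∀ i, QP q 1 1 κ1 c1 (f i))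
    (κ2 : Phi q 1 3 → ℂ) (c2 : Polynomial ℤ → ℂ)
    (g0 : (Phi q 1 3 → ℂ) → ℂ) (g : Fin ((q - 1) / 2) → (Phi q 1 3 → ℂ) → ℂ)
    (h20 : QP q 1 3 κ2 c2 g0) (h2 : ∀ i, QP q 1 3 κ2 c2 (g i))
    (e e' : Fin ((q - 1) / 2) → Fin (L + 1)) (P : Polynomial ℤ) (z : Psi q → ℂ) :
    mon ((q - 1) / 2) L f0 f e (em1 q (z + pt q (Psi q) P)) *
      mon ((q - 1) / 2) L g0 g e' (em2 q (z + pt q (Psi q) P)) =
    Complex.exp (((q - 1) / 2 * L : ℕ) *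
      ((∑ u, Kf q κ1 κ2 u * (starRingEnd ℂ) (pt q (Psi q) P u) * z u) + (c1 P + c2 P))) *
      (mon ((q - 1) / 2) L f0 f e (em1 q z) * mon ((q - 1) / 2) L g0 g e' (em2 q z)) := by
  rw [em1_add, em2_add]
  rw [mon_mul ((q - 1) / 2) L f0 f e (em1 q z) (em1 q z + lam q 1 1 P) _ (h10 P _)
      (fun i => h1 i P _),
    mon_mul ((q - 1) / 2) L g0 g e' (em2 q z) (em2 q z + lam q 1 3 P) _ (h20 P _)
      (fun i => h2 i P _), ← Kf_sum, add_add_add_comm]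
  generalize (∑ u, κ1 u * (starRingEnd ℂ) (pt q _ P u) * em1 q z u) + c1 P = A
  generalize (∑ u, κ2 u * (starRingEnd ℂ) (pt q _ P u) * em2 q z u) + c2 P = B
  rw [Complex.exp_nat_mul, Complex.exp_add]
  ring

theorem pow_exp_bound (C : ℝ) (x : ℝ) (n : ℕ) :
    Real.exp (C * (1 + x ^ 2)) ^ n = Real.exp (C * n * (1 + x ^ 2)) := by
  rw [← Real.exp_nat_mul]
  congr 1
  ring

theorem em_growth (q : ℕ) (C1 : ℝ) : ∃ C0 : ℝ, 0 ≤ C0 ∧ ∀ z : Psi q → ℂ,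
    Real.exp (C1 * (1 + ‖em1 q z‖ ^ 2)) ≤ Real.exp (C0 * (1 + ‖z‖ ^ 2)) ∧
    Real.exp (C1 * (1 + ‖em2 q z‖ ^ 2)) ≤ Real.exp (C0 * (1 + ‖z‖ ^ 2)) := by
  set X1 : Phi q 1 1 → ℂ := fun u => rho q 1 1 u with hX1
  set X2 : Phi q 1 3 → ℂ := fun u => rho q 1 3 u with hX2
  refine ⟨max C1 0 * (1 + ‖X1‖ ^ 2 + ‖X2‖ ^ 2), by positivity, fun z => ?_⟩
  have key : ∀ t X : ℝ, 0 ≤ t → t ≤ X * ‖z‖ → X ^ 2 ≤ ‖X1‖ ^ 2 + ‖X2‖ ^ 2 →
      C1 * (1 + t ^ 2) ≤ max C1 0 * (1 + ‖X1‖ ^ 2 + ‖X2‖ ^ 2) * (1 + ‖z‖ ^ 2) := by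
    intro t X ht hX hX2
    have h1 : t ^ 2 ≤ (‖X1‖ ^ 2 + ‖X2‖ ^ 2) * ‖z‖ ^ 2 := by
      calc t ^ 2 ≤ (X * ‖z‖) ^ 2 := pow_le_pow_left₀ ht hX 2
        _ = X ^ 2 * ‖z‖ ^ 2 := by ring
        _ ≤ _ := mul_le_mul_of_nonneg_right hX2 (by positivity)
    calc C1 * (1 + t ^ 2) ≤ max C1 0 * (1 + t ^ 2) :=
          mul_le_mul_of_nonneg_right (le_max_left _ _) (by positivity)
      _ ≤ max C1 0 * ((1 + ‖X1‖ ^ 2 + ‖X2‖ ^ 2) * (1 + ‖z‖ ^ 2)) := by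
          refine mul_le_mul_of_nonneg_left ?_ (le_max_right _ _)
          nlinarith [sq_nonneg ‖X1‖, sq_nonneg ‖X2‖, sq_nonneg ‖z‖]
      _ = _ := by ring
  constructor
  · refine Real.exp_le_exp.2 (key _ ‖X1‖ (norm_nonneg _) (emb_norm _ _ z) ?_)
    linarith [sq_nonneg ‖X2‖]
  · refine Real.exp_le_exp.2 (key _ ‖X2‖ (norm_nonneg _) (emb_norm _ _ z) ?_)
    linarith [sq_nonneg ‖X1‖]

theorem wb_bound (q a a' : ℕ) (κ : Phi q a a' → ℂ) (c : Polynomial ℤ → ℂ)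
    (f0 : (Phi q a a' → ℂ) → ℂ) (h : QP q a a' κ c f0) (C : ℝ)
    (hC : ∀ z, ‖f0 z‖ ≤ Real.exp (C * (1 + ‖z‖ ^ 2))) (hne : ∃ z, f0 z ≠ 0) :
    ∃ C' : ℝ, 0 ≤ C' ∧ ∀ b : Fin ((q - 1) / 2) → ℤ,
      (c (∑ k, b k • Ps q k)).re ≤ C' * (1 + ‖b‖ ^ 2) := by
  obtain ⟨D, hD0, hD⟩ := c_bound q a a' κ c f0 h C hC hne
  obtain ⟨E, hE0, hE⟩ := add_bound (wb q (Phi q a a'))
  refine ⟨D * (1 + E ^ 2), by positivity, fun b => (hD _).trans ?_⟩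
  have h1 := hE b
  rw [wb_apply] at h1
  rw [mul_assoc]
  refine mul_le_mul_of_nonneg_left ?_ hD0
  have h2 : ‖pt q (Phi q a a') (∑ k, b k • Ps q k)‖ ^ 2 ≤ E ^ 2 * ‖b‖ ^ 2 := by
    rw [← mul_pow]
    exact pow_le_pow_left₀ (norm_nonneg _) h1 2
  nlinarith [sq_nonneg E, sq_nonneg ‖b‖]

theorem Kf_ne (q : ℕ) (hq : q.Prime) (h5 : 5 ≤ q) (κ1 : Phi q 1 1 → ℂ) (κ2 : Phi q 1 3 → ℂ)
    (hk1 : ∀ u (hu : u ∈ Phi q 1 1) (hv : u ∈ Phi q 1 3),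
      κ1 ⟨u, hu⟩ * rho q 1 1 u + κ2 ⟨u, hv⟩ * rho q 1 3 u ≠ 0)
    (hk2 : ∀ u (hu : u ∈ Phi q 1 1) (hv : q - u ∈ Phi q 1 3),
      κ1 ⟨u, hu⟩ * rho q 1 1 u - κ2 ⟨q - u, hv⟩ * rho q 1 3 (q - u) ≠ 0) :
    (∀ u ∈ Psi q, 1 ≤ u ∧ u < q) ∧ (∀ u, 1 ≤ u → u < q → u ∈ Psi q ∨ q - u ∈ Psi q) ∧
    (∀ u : Psi q, q - (u : ℕ) ∉ Psi q → Kf q κ1 κ2 u ≠ 0) ∧
    (∀ u : Psi q, ∀ hv : q - (u : ℕ) ∈ Psi q, Kf q κ1 κ2 u ≠ Kf q κ1 κ2 ⟨q - (u : ℕ), hv⟩) := by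
  have d1 : ¬ q ∣ 1 := fun h => by have := Nat.le_of_dvd one_pos h; omega
  have d2 : ¬ q ∣ 1 + 1 := fun h => by have := Nat.le_of_dvd (by norm_num) h; omega
  have d3 : ¬ q ∣ 3 := fun h => by have := Nat.le_of_dvd (by norm_num) h; omega
  have d4 : ¬ q ∣ 1 + 3 := fun h => by have := Nat.le_of_dvd (by norm_num) h; omega
  have m1 := mem_sub q 1 1 hq d1 d1 d2
  have m2 := mem_sub q 1 3 hq d1 d3 d4
  have a1 : ∀ u ∈ Psi q, 1 ≤ u ∧ u < q := by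
    intro u hu
    rcases Finset.mem_union.1 hu with h | h
    · have := (mem_Phi q 1 1 u).1 h
      omega
    · have := (mem_Phi q 1 3 u).1 h
      omega
  refine ⟨a1, ?_, ?_, ?_⟩
  · intro u hu1 hu2
    by_cases h : u ∈ Phi q 1 1
    · exact Or.inl (Finset.mem_union_left _ h)
    · exact Or.inr (Finset.mem_union_left _ ((m1 u hu1 hu2).2 h))
  · rintro ⟨u, hu⟩ hn
    obtain ⟨u1, u2⟩ := a1 u hu
    simp only [Psi, Finset.mem_union, not_or] at hn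
    have h1 : u ∈ Phi q 1 1 := by
      by_contra h
      exact hn.1 ((m1 u u1 u2).2 h)
    have h2 : u ∈ Phi q 1 3 := by
      by_contra h
      exact hn.2 ((m2 u u1 u2).2 h)
    simp only [Kf, h1, h2, dif_pos]
    exact hk1 u h1 h2
  · rintro ⟨u, hu⟩ hv
    obtain ⟨u1, u2⟩ := a1 u hu
    have hqu : q - (q - u) = u := by omega
    have v1 : 1 ≤ q - u := by omega
    have v2 : q - u < q := by omega
    by_cases h : u ∈ Phi q 1 1
    · have h3 : q - u ∉ Phi q 1 1 := fun h' => (m1 u u1 u2).1 h' h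
      have h4 : q - u ∈ Phi q 1 3 := by
        rcases Finset.mem_union.1 hv with h' | h'
        · exact absurd h' h3
        · exact h'
      have h5 : u ∉ Phi q 1 3 := (m2 u u1 u2).1 h4
      simp only [Kf, h, h3, h4, h5, dif_pos, dif_neg, not_false_eq_true, add_zero, zero_add]
      intro hc
      exact hk2 u h h4 (sub_eq_zero.2 hc)
    · have h3 : q - u ∈ Phi q 1 1 := (m1 u u1 u2).2 h
      have h4 : u ∈ Phi q 1 3 := by
        rcases Finset.mem_union.1 hu with h' | h'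
        · exact absurd h' h
        · exact h'
      have h5 : q - u ∉ Phi q 1 3 := fun h' => (m2 u u1 u2).1 h' h4
      simp only [Kf, h, h3, h4, h5, dif_pos, dif_neg, not_false_eq_true, add_zero, zero_add]
      intro hc
      have h6 : q - (q - u) ∈ Phi q 1 3 := by rw [hqu]; exact h4
      have h7 := hk2 (q - u) h3 h6
      apply h7
      simp only [hqu]
      rw [← hc, sub_self]

/-- Block B, the statement of `Tg.lean` word for word. -/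
theorem B_main (q : ℕ) (hq : q.Prime) (h41 : 41 ≤ q) (κ1 : Phi q 1 1 → ℂ) (c1 : Polynomial ℤ → ℂ)
    (f0 : (Phi q 1 1 → ℂ) → ℂ) (f : Fin ((q - 1) / 2) → (Phi q 1 1 → ℂ) → ℂ)
    (h1 : IsSys q 1 1 κ1 c1 f0 f)
    (κ2 : Phi q 1 3 → ℂ) (c2 : Polynomial ℤ → ℂ)
    (g0 : (Phi q 1 3 → ℂ) → ℂ) (g : Fin ((q - 1) / 2) → (Phi q 1 3 → ℂ) → ℂ)
    (h2 : IsSys q 1 3 κ2 c2 g0 g)
    (hk1 : ∀ u (hu : u ∈ Phi q 1 1) (hv : u ∈ Phi q 1 3),
      κ1 ⟨u, hu⟩ * rho q 1 1 u + κ2 ⟨u, hv⟩ * rho q 1 3 u ≠ 0)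
    (hk2 : ∀ u (hu : u ∈ Phi q 1 1) (hv : q - u ∈ Phi q 1 3),
      κ1 ⟨u, hu⟩ * rho q 1 1 u - κ2 ⟨q - u, hv⟩ * rho q 1 3 (q - u) ≠ 0) :
    ∃ C : ℝ, 0 < C ∧ ∀ L : ℕ, 1 ≤ L → ∀ S U : ℝ, 1 ≤ S → S ≤ U → (L : ℝ) ≤ U →
      C * (L : ℝ) ^ ((q - 1) / 2) * U ^ ((Psi q).card - (q - 1) / 2 + 1) ≤
        (L : ℝ) ^ (2 * ((q - 1) / 2)) * S →
      ∃ c : (Fin ((q - 1) / 2) → Fin (L + 1)) × (Fin ((q - 1) / 2) → Fin (L + 1)) → ℤ,
        c ≠ 0 ∧ (∀ e, |(c e : ℝ)| ≤ Real.exp S) ∧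
        ∀ z : Psi q → ℂ, ‖z‖ ≤ 1 →
          ‖∑ e, (c e : ℂ) *
              mon ((q - 1) / 2) L f0 f e.1
                (emb (subset_union_left (s₂ := Phi q 1 3)) (fun u => rho q 1 1 u) z) *
              mon ((q - 1) / 2) L g0 g e.2
                (emb (subset_union_right (s₁ := Phi q 1 1)) (fun u => rho q 1 3 u) z)‖ ≤
            Real.exp (-U) := by
  classical
  obtain ⟨a1, a2, a3, a4⟩ := Kf_ne q hq (by omega) κ1 κ2 hk1 hk2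
  obtain ⟨η, _, T, w, α, β, R0, hcard, hT, hw, hab, hM, hz⟩ :=
    coord q hq (by omega) (Psi q) a1 a2 (Kf q κ1 κ2) a3 a4
  have hq1 : 1 ≤ q := by omega
  -- growth
  obtain ⟨G1, hG1⟩ := h1.growth
  obtain ⟨G2, hG2⟩ := h2.growth
  obtain ⟨E0, hE0, hE⟩ := em_growth q (max G1 G2)
  have g1 : ∀ (e : Fin 2 → ℕ) (L : ℕ) (x : Fin ((q - 1) / 2) → Fin (L + 1)) (z : Psi q → ℂ),
      ‖mon ((q - 1) / 2) L f0 f x (em1 q z)‖ ≤
        Real.exp (E0 * ((q - 1) / 2 * L : ℕ) * (1 + ‖z‖ ^ 2)) := by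
    intro _ L x z
    have b1 : ∀ t, Real.exp (G1 * (1 + t ^ 2)) ≤ Real.exp (max G1 G2 * (1 + t ^ 2)) := fun t =>
      Real.exp_le_exp.2 (mul_le_mul_of_nonneg_right (le_max_left _ _) (by positivity))
    have := mon_bound ((q - 1) / 2) L f0 f x (em1 q z) (Real.exp (E0 * (1 + ‖z‖ ^ 2)))
      ((hG1 _).1.trans ((b1 _).trans (hE z).1)) (fun i => ((hG1 _).2 i).trans ((b1 _).trans (hE z).1))
    rwa [pow_exp_bound] at this
  have g2 : ∀ (e : Fin 2 → ℕ) (L : ℕ) (x : Fin ((q - 1) / 2) → Fin (L + 1)) (z : Psi q → ℂ),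
      ‖mon ((q - 1) / 2) L g0 g x (em2 q z)‖ ≤
        Real.exp (E0 * ((q - 1) / 2 * L : ℕ) * (1 + ‖z‖ ^ 2)) := by
    intro _ L x z
    have b1 : ∀ t, Real.exp (G2 * (1 + t ^ 2)) ≤ Real.exp (max G1 G2 * (1 + t ^ 2)) := fun t =>
      Real.exp_le_exp.2 (mul_le_mul_of_nonneg_right (le_max_right _ _) (by positivity))
    have := mon_bound ((q - 1) / 2) L g0 g x (em2 q z) (Real.exp (E0 * (1 + ‖z‖ ^ 2)))
      ((hG2 _).1.trans ((b1 _).trans (hE z).2)) (fun i => ((hG2 _).2 i).trans ((b1 _).trans (hE z).2))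
    rwa [pow_exp_bound] at this
  -- not identically zero
  have hg : 1 ≤ (q - 1) / 2 := by omega
  have n1 : ∃ z, f0 z ≠ 0 := by
    by_contra hc
    push Not at hc
    have h3 := (h1.indep 1).ne_zero (fun _ => 0)
    apply h3
    funext z
    simp only [mon, hc, Pi.zero_apply, Fin.val_zero, Finset.sum_const_zero, Nat.sub_zero, mul_one]
    rw [zero_pow (by omega), zero_mul]
  have n2 : ∃ z, g0 z ≠ 0 := by
    by_contra hc
    push Not at hc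
    have h3 := (h2.indep 1).ne_zero (fun _ => 0)
    apply h3
    funext z
    simp only [mon, hc, Pi.zero_apply, Fin.val_zero, Finset.sum_const_zero, Nat.sub_zero, mul_one]
    rw [zero_pow (by omega), zero_mul]
  obtain ⟨D1, hD10, hD1⟩ := wb_bound q 1 1 κ1 c1 f0 h1.qp0 G1 (fun z => (hG1 z).1) n1
  obtain ⟨D2, hD20, hD2⟩ := wb_bound q 1 3 κ2 c2 g0 h2.qp0 G2 (fun z => (hG2 z).1) n2
  obtain ⟨F1, dF1, qF1, nF1⟩ := h1.bpf 0
  obtain ⟨F2, dF2, qF2, nF2⟩ := h2.bpf 0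
  have em10 : em1 q 0 = 0 := emb_zero _ _
  have em20 : em2 q 0 = 0 := emb_zero _ _
  -- conjugates
  have cv : ∀ (j : Fin ((q - 1) / 2)) (z : Psi q → ℂ),
      ∑ u, Kf q κ1 κ2 u * (starRingEnd ℂ) (pt q (Psi q) (Pc q j) u) * z u =
        ∑ u, Kf q κ1 κ2 u * pt q (Psi q) (Pc q j) u * z u := by
    intro j z
    simp only [conj_Pc q hq1]
  have cw : ∀ (b : Fin ((q - 1) / 2) → ℤ) (z : Psi q → ℂ),
      ∑ u, Kf q κ1 κ2 u * (starRingEnd ℂ) (pt q (Psi q) (∑ k, b k • Ps q k) u) * z u =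
        -∑ u, Kf q κ1 κ2 u * w b u * z u := by
    intro b z
    rw [hw, ← Finset.sum_neg_distrib]
    refine Finset.sum_congr rfl fun u _ => ?_
    rw [conj_Ps q hq1]
    ring
  obtain ⟨C, hC, hB⟩ := B15 T (Kf q κ1 κ2) (fun j => pt q (Psi q) (Pc q j)) hT w α β hab hM
    (fun j => c1 (Pc q j) + c2 (Pc q j))
    (fun b => c1 (∑ k, b k • Ps q k) + c2 (∑ k, b k • Ps q k)) (2 * E0 + D1 + D2) R0
    (by
      intro b
      have e1 := hD1 b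
      have e2 := hD2 b
      simp only [Complex.add_re]
      have : 0 ≤ E0 * (1 + ‖b‖ ^ 2) := by positivity
      linarith)
    (fun z => F1 (em1 q z) * F2 (em2 q z))
    (by
      intro j z
      have := mul_qp q κ1 c1 F1 qF1 κ2 c2 F2 qF2 (Pc q j) z
      rw [cv] at this
      exact this)
    (by
      intro b z
      have := mul_qp q κ1 c1 F1 qF1 κ2 c2 F2 qF2 (∑ k, b k • Ps q k) z
      rw [cw] at this
      rw [hw]
      rw [hw] at this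
      exact this)
    (by
      simp only [em10, em20]
      exact mul_ne_zero nF1 nF2)
  refine ⟨C * (((q - 1) / 2 : ℕ) : ℝ) ^ ((q - 1) / 2) * (2 * (((q - 1) / 2 : ℕ) : ℝ) + 1) ^ (Fintype.card η + 1), by positivity, ?_⟩
  intro L hL S U hS hSU hLU hcond
  have hn1 : (1 : ℝ) ≤ (((q - 1) / 2 : ℕ) : ℝ) := by exact_mod_cast hg
  have hL1 : (1 : ℝ) ≤ L := by exact_mod_cast hL
  have hU : 1 ≤ U := hS.trans hSU
  have hcI : (Fintype.card ((Fin ((q - 1) / 2) → Fin (L + 1)) × (Fin ((q - 1) / 2) → Fin (L + 1))) : ℝ) =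
      ((L : ℝ) + 1) ^ (2 * ((q - 1) / 2)) := by
    rw [Fintype.card_prod, Fintype.card_fun, Fintype.card_fin, Fintype.card_fin]
    push_cast
    rw [← pow_add]
    congr 1
    ring
  obtain ⟨c, hc0, hcS, hcz⟩ := hB ((q - 1) / 2 * L) (by
      have : 1 * 1 ≤ (q - 1) / 2 * L := Nat.mul_le_mul hg hL
      omega)
    ((Fin ((q - 1) / 2) → Fin (L + 1)) × (Fin ((q - 1) / 2) → Fin (L + 1)))
    (fun e z => mon ((q - 1) / 2) L f0 f e.1 (em1 q z) * mon ((q - 1) / 2) L g0 g e.2 (em2 q z))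
    (fun e => ((mon_diff ((q - 1) / 2) L f0 f e.1 h1.diff0 h1.diff).comp (emb_diff (sub1 q) _)).mul
      ((mon_diff ((q - 1) / 2) L g0 g e.2 h2.diff0 h2.diff).comp (emb_diff (sub2 q) _)))
    (by
      intro e j z
      have := mon_qp q L κ1 c1 f0 f h1.qp0 h1.qp κ2 c2 g0 g h2.qp0 h2.qp e.1 e.2 (Pc q j) z
      rw [cv] at this
      exact this)
    (by
      intro e b z
      have := mon_qp q L κ1 c1 f0 f h1.qp0 h1.qp κ2 c2 g0 g h2.qp0 h2.qp e.1 e.2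
        (∑ k, b k • Ps q k) z
      rw [cw] at this
      rw [hw]
      rw [hw] at this
      exact this)
    (by
      intro e z
      rw [norm_mul]
      calc ‖mon ((q - 1) / 2) L f0 f e.1 (em1 q z)‖ * ‖mon ((q - 1) / 2) L g0 g e.2 (em2 q z)‖
          ≤ Real.exp (E0 * ((q - 1) / 2 * L : ℕ) * (1 + ‖z‖ ^ 2)) *
            Real.exp (E0 * ((q - 1) / 2 * L : ℕ) * (1 + ‖z‖ ^ 2)) :=
            mul_le_mul (g1 (fun _ => 0) L e.1 z) (g2 (fun _ => 0) L e.2 z) (norm_nonneg _)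
              (Real.exp_nonneg _)
        _ = Real.exp (2 * E0 * ((q - 1) / 2 * L : ℕ) * (1 + ‖z‖ ^ 2)) := by
            rw [← Real.exp_add]
            congr 1
            ring
        _ ≤ _ := by
            refine Real.exp_le_exp.2 ?_
            have : 0 ≤ (D1 + D2) * ((q - 1) / 2 * L : ℕ) * (1 + ‖z‖ ^ 2) := by positivity
            linarith)
    S ((2 * (((q - 1) / 2 : ℕ) : ℝ) + 1) * U) hS
    (hSU.trans (le_mul_of_one_le_left (by linarith) (by linarith)))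
    (by
      push_cast
      nlinarith)
    (by
      rw [hcI]
      have e1 : (L : ℝ) + 1 ≤ Real.exp L := Real.add_one_le_exp _
      calc ((L : ℝ) + 1) ^ (2 * ((q - 1) / 2)) ≤ Real.exp L ^ (2 * ((q - 1) / 2)) :=
            pow_le_pow_left₀ (by positivity) e1 _
        _ = Real.exp ((2 * ((q - 1) / 2) : ℕ) * L) := by rw [Real.exp_nat_mul]
        _ ≤ _ := by
            refine Real.exp_le_exp.2 ?_
            push_cast
            nlinarith)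
    (by
      rw [hcI, Fintype.card_fin]
      push_cast
      have e2 : (L : ℝ) ^ (2 * ((q - 1) / 2)) ≤ ((L : ℝ) + 1) ^ (2 * ((q - 1) / 2)) :=
        pow_le_pow_left₀ (by positivity) (by linarith) _
      rw [← hcard] at hcond
      calc C * ((((q - 1) / 2 : ℕ) : ℝ) * L) ^ ((q - 1) / 2) * ((2 * (((q - 1) / 2 : ℕ) : ℝ) + 1) * U) ^ (Fintype.card η + 1)
          = C * (((q - 1) / 2 : ℕ) : ℝ) ^ ((q - 1) / 2) * (2 * (((q - 1) / 2 : ℕ) : ℝ) + 1) ^ (Fintype.card η + 1) * (L : ℝ) ^ ((q - 1) / 2) * U ^ (Fintype.card η + 1) := by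
            rw [mul_pow, mul_pow]
            ring
        _ ≤ (L : ℝ) ^ (2 * ((q - 1) / 2)) * S := hcond
        _ ≤ _ := mul_le_mul_of_nonneg_right e2 (by linarith))
  refine ⟨c, hc0, hcS, fun z hz1 => ?_⟩
  obtain ⟨x, y, hx, hy, hxy⟩ := hz z hz1
  have h5 := hcz x y hx hy
  rw [hxy] at h5
  have h6 : Real.exp (-((2 * (((q - 1) / 2 : ℕ) : ℝ) + 1) * U)) ≤ Real.exp (-U) := by
    refine Real.exp_le_exp.2 ?_
    nlinarith
  refine le_trans (le_of_eq ?_) (h5.trans h6)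
  congr 1
  refine Finset.sum_congr rfl fun e _ => ?_
  rw [mul_assoc]
  rfl

end

end Pool.Agent.Helper53.LT
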