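import Mathlib

/-!
PROJECT LT (MP_274814_nt), block B (box principle), captain helper53: definitions.

`C^ι × C^η`: the functions are periodic in `x ∈ C^ι` under `Z^ι`, and quasi-periodic under a second
lattice `(α b, β b)`, `b ∈ Z^ι`.
-/

namespace Pool.Agent.Helper53.LT

noncomputable section

variable {ι η : Type} [Fintype ι] [Fintype η]

/-- integer vectors as complex vectors -/
def co (a : ι → ℤ) : ι → ℂ := fun i => (a i : ℂ)

/-- real vectors as complex vectors -/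
def rv (x : ι → ℝ) : ι → ℂ := fun i => (x i : ℂ)

/-- `exp (2 pi i (n, z))` -/
def ev (n : ι → ℤ) (z : ι → ℂ) : ℂ :=
  Complex.exp (2 * Real.pi * Complex.I * ∑ i, (n i : ℂ) * z i)

/-- periodic under `Z^ι` -/
def Per (G : (ι → ℂ) → ℂ) : Prop := ∀ (a : ι → ℤ) (z : ι → ℂ), G (z + co a) = G z

/-- Fourier coefficient of the restriction to the real points -/
def fc (G : (ι → ℂ) → ℂ) (n : ι → ℤ) : ℂ :=
  ∫ x in {x : ι → ℝ | ∀ i, x i ∈ Set.Ioc (0 : ℝ) (0 + 1)}, ev (-n) (rv x) * G (rv x)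

/-- normalised Taylor coefficient: `fc` of `u ↦ h (R exp (2 pi i u_k))_k`, it is `R^|n|` times the
Taylor coefficient of index `n` of `h` -/
def tc (h : (η → ℂ) → ℂ) (R : ℝ) (n : η → ℤ) : ℂ :=
  fc (fun u : η → ℂ => h (fun k => (R : ℂ) * Complex.exp (2 * Real.pi * Complex.I * u k))) n

/-- the class of functions of level `N` -/
structure Qp (α : (ι → ℤ) →+ (ι → ℂ)) (β : (ι → ℤ) →+ (η → ℂ)) (μ : (ι → ℤ) →+ (ι → ℤ))
    (l : (ι → ℤ) →+ ((η → ℂ) →ₗ[ℂ] ℂ)) (N : ℕ) (e : (ι → ℤ) → ℂ)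
    (F : (ι → ℂ) × (η → ℂ) → ℂ) : Prop where
  diff : Differentiable ℂ F
  per : ∀ (a : ι → ℤ) (x : ι → ℂ) (y : η → ℂ), F (x + co a, y) = F (x, y)
  qp : ∀ (b : ι → ℤ) (x : ι → ℂ) (y : η → ℂ), F (x + α b, y + β b) =
    ev (-((N : ℤ) • μ b)) x * Complex.exp (N * (l b y + e b)) * F (x, y)

end

end Pool.Agent.Helper53.LT
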