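import Pool.Agent.Helper53.LT.Fb

/-!
PROJECT LT, block B, file Dc: Gaussian decay of the Fourier coefficients `c_m (y) = fc (F (·, y)) m` and
their functional equation.
-/

namespace Pool.Agent.Helper53.LT

noncomputable section

variable {ι η : Type} [Fintype ι] [Fintype η]

/-- Proof. `C₁ = max C0 1`. For real `x` reduce `x` to `[0, 1]^ι` by periodicity. With
`w = - I (s / N) m`: `‖rv x + w‖^2 ≤ 2 + 2 (s / N)^2 ‖m‖^2` and
`‖ev m w‖ = exp (2 pi (s / N) ∑ m_i^2) ≥ exp (2 pi (s / N) ‖m‖^2)`, so `fc_decay` gives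
`‖c_m (y)‖ ≤ exp (A + C₁ N (3 + ‖y‖^2) + (2 C₁ s^2 - 2 pi s) ‖m‖^2 / N)`; `s = pi / (2 C₁)`. -/
theorem dec (ι η : Type) [Fintype ι] [Fintype η] (C0 : ℝ) : ∃ C c : ℝ, 0 < C ∧ 0 < c ∧
    ∀ N : ℕ, 1 ≤ N → ∀ F : (ι → ℂ) × (η → ℂ) → ℂ, Differentiable ℂ F →
    (∀ (a : ι → ℤ) (x : ι → ℂ) (y : η → ℂ), F (x + co a, y) = F (x, y)) →
    ∀ A : ℝ, (∀ x y, ‖F (x, y)‖ ≤ Real.exp (A + C0 * N * (1 + ‖x‖ ^ 2 + ‖y‖ ^ 2))) →
    ∀ (m : ι → ℤ) (y : η → ℂ),
      ‖fc (fun x => F (x, y)) m‖ ≤ Real.exp (A + C * N * (1 + ‖y‖ ^ 2) - c * ‖m‖ ^ 2 / N) := by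
  set C1 : ℝ := max C0 1 with hC1
  have hC1p : 0 < C1 := lt_of_lt_of_le one_pos (le_max_right _ _)
  have hC01 : C0 ≤ C1 := le_max_left _ _
  have hpi := Real.pi_pos
  refine ⟨3 * C1, Real.pi ^ 2 / (2 * C1), by positivity, by positivity, ?_⟩
  intro N hN F hF hper A hA m y
  have hNp : (0 : ℝ) < N := by exact_mod_cast hN
  set s : ℝ := Real.pi / (2 * C1) with hs
  have hsp : 0 < s := by positivity
  set w : ι → ℂ := fun i => -(Complex.I * ((s / N * (m i : ℝ) : ℝ) : ℂ)) with hw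
  have hwn : ‖w‖ ≤ s / N * ‖m‖ := by
    rw [pi_norm_le_iff_of_nonneg (by positivity)]
    intro i
    rw [hw]
    simp only [norm_neg, norm_mul, Complex.norm_I, one_mul, Complex.norm_real, norm_div,
      Real.norm_eq_abs]
    rw [abs_of_pos hsp, abs_of_pos hNp]
    refine mul_le_mul_of_nonneg_left ?_ (by positivity)
    have h1 := norm_le_pi_norm m i
    rwa [Int.norm_eq_abs] at h1
  have hev : Real.exp (2 * Real.pi * (s / N) * ‖m‖ ^ 2) ≤ ‖ev m w‖ := by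
    rw [norm_ev]
    refine Real.exp_le_exp.2 ?_
    have h1 : ∀ i, (m i : ℝ) * (w i).im = -(s / N * (m i : ℝ) ^ 2) := by
      intro i
      have h2 : (w i).im = -(s / N * (m i : ℝ)) := by
        rw [hw]
        simp only [Complex.neg_im, Complex.mul_im, Complex.I_re, Complex.I_im, Complex.ofReal_re,
          Complex.ofReal_im]
        ring
      rw [h2]
      ring
    simp only [h1, Finset.sum_neg_distrib, ← Finset.mul_sum]
    have h3 : ‖m‖ ^ 2 ≤ ∑ i, (m i : ℝ) ^ 2 := by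
      rcases isEmpty_or_nonempty ι with hι | hι
      · have h4 : m = 0 := Subsingleton.elim _ _
        rw [h4, norm_zero]
        simp
      · obtain ⟨i, hi⟩ : ∃ i, ‖m‖ = ‖m i‖ := by
          obtain ⟨i, -, hi⟩ := Finset.exists_mem_eq_sup (Finset.univ : Finset ι)
            Finset.univ_nonempty (fun b => ‖m b‖₊)
          refine ⟨i, ?_⟩
          rw [Pi.norm_def, hi]
          rfl
        rw [hi, Int.norm_eq_abs, sq_abs]
        exact Finset.single_le_sum (f := fun i => (m i : ℝ) ^ 2) (fun j _ => sq_nonneg _)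
          (Finset.mem_univ i)
    have h5 : 0 ≤ 2 * Real.pi * (s / N) := by positivity
    calc 2 * Real.pi * (s / N) * ‖m‖ ^ 2 ≤ 2 * Real.pi * (s / N) * ∑ i, (m i : ℝ) ^ 2 :=
          mul_le_mul_of_nonneg_left h3 h5
      _ = -(2 * Real.pi * -(s / N * ∑ i, (m i : ℝ) ^ 2)) := by ring
  have hG : Differentiable ℂ (fun x => F (x, y)) :=
    hF.comp (differentiable_id.prodMk (differentiable_const y))
  have hP : Per (fun x => F (x, y)) := fun a z => hper a z y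
  have hbound : ∀ x : ι → ℝ, ‖(fun x => F (x, y)) (rv x + w)‖ ≤
      Real.exp (A + C1 * N * (3 + 2 * (s / N * ‖m‖) ^ 2 + ‖y‖ ^ 2)) := by
    intro x
    have h1 : rv x + w = (rv (fun i => Int.fract (x i)) + w) + co (fun i => ⌊x i⌋) := by
      funext i
      simp only [Pi.add_apply, rv, co]
      have h2 : (x i : ℂ) = ((Int.fract (x i) : ℝ) : ℂ) + ((⌊x i⌋ : ℤ) : ℂ) := by
        have h3 := Int.fract_add_floor (x i)
        calc (x i : ℂ) = ((Int.fract (x i) + (⌊x i⌋ : ℝ) : ℝ) : ℂ) := by rw [h3]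
          _ = _ := by push_cast; rfl
      rw [h2]
      ring
    have h4 : ‖rv (fun i => Int.fract (x i))‖ ≤ 1 := by
      rw [pi_norm_le_iff_of_nonneg zero_le_one]
      intro i
      simp only [rv, Complex.norm_real, Real.norm_eq_abs]
      rw [abs_of_nonneg (Int.fract_nonneg _)]
      exact (Int.fract_lt_one _).le
    have h5 : ‖rv (fun i => Int.fract (x i)) + w‖ ^ 2 ≤ 2 + 2 * (s / N * ‖m‖) ^ 2 := by
      have h6 : ‖rv (fun i => Int.fract (x i)) + w‖ ≤ 1 + s / N * ‖m‖ :=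
        (norm_add_le _ _).trans (add_le_add h4 hwn)
      have h7 : 0 ≤ s / N * ‖m‖ := by positivity
      calc ‖rv (fun i => Int.fract (x i)) + w‖ ^ 2 ≤ (1 + s / N * ‖m‖) ^ 2 :=
            pow_le_pow_left₀ (norm_nonneg _) h6 2
        _ ≤ 2 + 2 * (s / N * ‖m‖) ^ 2 := by nlinarith [sq_nonneg (1 - s / N * ‖m‖)]
    show ‖F (rv x + w, y)‖ ≤ _
    rw [h1, hper]
    refine (hA _ _).trans (Real.exp_le_exp.2 ?_)
    have h8 : C0 * N * (1 + ‖rv (fun i => Int.fract (x i)) + w‖ ^ 2 + ‖y‖ ^ 2) ≤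
        C1 * N * (1 + ‖rv (fun i => Int.fract (x i)) + w‖ ^ 2 + ‖y‖ ^ 2) := by
      refine mul_le_mul_of_nonneg_right (mul_le_mul_of_nonneg_right hC01 hNp.le) (by positivity)
    have h9 : C1 * N * (1 + ‖rv (fun i => Int.fract (x i)) + w‖ ^ 2 + ‖y‖ ^ 2) ≤
        C1 * N * (3 + 2 * (s / N * ‖m‖) ^ 2 + ‖y‖ ^ 2) := by
      refine mul_le_mul_of_nonneg_left ?_ (by positivity)
      linarith
    linarith
  have key := fc_decay (fun x => F (x, y)) hG hP m w _ hbound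
  have h1 : ‖fc (fun x => F (x, y)) m‖ * Real.exp (2 * Real.pi * (s / N) * ‖m‖ ^ 2) ≤
      Real.exp (A + C1 * N * (3 + 2 * (s / N * ‖m‖) ^ 2 + ‖y‖ ^ 2)) :=
    (mul_le_mul_of_nonneg_left hev (norm_nonneg _)).trans key
  have h2 : ‖fc (fun x => F (x, y)) m‖ ≤
      Real.exp (A + C1 * N * (3 + 2 * (s / N * ‖m‖) ^ 2 + ‖y‖ ^ 2) -
        2 * Real.pi * (s / N) * ‖m‖ ^ 2) := by
    rw [Real.exp_sub, le_div_iff₀ (Real.exp_pos _)]
    exact h1
  refine h2.trans (Real.exp_le_exp.2 ?_)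
  have h3 : C1 * N * (2 * (s / N * ‖m‖) ^ 2) = Real.pi ^ 2 / (2 * C1) * ‖m‖ ^ 2 / N := by
    rw [hs]
    field_simp
  have h4 : 2 * Real.pi * (s / N) * ‖m‖ ^ 2 = 2 * (Real.pi ^ 2 / (2 * C1) * ‖m‖ ^ 2 / N) := by
    rw [hs]
    field_simp
  have h5 : C1 * N * (3 + ‖y‖ ^ 2) ≤ 3 * C1 * N * (1 + ‖y‖ ^ 2) := by
    have h6 : 0 ≤ C1 * N * ‖y‖ ^ 2 := by positivity
    nlinarith
  have h7 : C1 * N * (3 + 2 * (s / N * ‖m‖) ^ 2 + ‖y‖ ^ 2) =
      C1 * N * (3 + ‖y‖ ^ 2) + C1 * N * (2 * (s / N * ‖m‖) ^ 2) := by ring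
  rw [h7, h3, h4]
  linarith

/-- Proof. Take `fc · m` of `x ↦ F (x + α b, y + β b) = ev (-N μ b) x * E * F (x, y)`,
`E = exp (N (l b y + e b))`: the left side is `ev m (α b) * fc (F (·, y + β b)) m` (`fc_shift`), the right side
`E * fc (F (·, y)) (m + N μ b)` (`fc_ev`, `fc_const`). -/
theorem fc_qp {α : (ι → ℤ) →+ (ι → ℂ)} {β : (ι → ℤ) →+ (η → ℂ)} {μ : (ι → ℤ) →+ (ι → ℤ)}
    {l : (ι → ℤ) →+ ((η → ℂ) →ₗ[ℂ] ℂ)} {N : ℕ} {e : (ι → ℤ) → ℂ}
    {F : (ι → ℂ) × (η → ℂ) → ℂ} (h : Qp α β μ l N e F) (b m : ι → ℤ) (y : η → ℂ) :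
    Complex.exp (N * (l b y + e b)) * fc (fun x => F (x, y)) (m + (N : ℤ) • μ b) =
      ev m (α b) * fc (fun x => F (x, y + β b)) m := by
  have hG : Differentiable ℂ (fun x => F (x, y + β b)) :=
    h.diff.comp (differentiable_id.prodMk (differentiable_const _))
  have hP : Per (fun x => F (x, y + β b)) := fun a z => h.per a z _
  have h1 := fc_shift (fun x => F (x, y + β b)) hG hP m (α b)
  rw [← h1]
  have h2 : (fun z => (fun x => F (x, y + β b)) (z + α b)) =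
      fun z => ev (-((N : ℤ) • μ b)) z *
        (fun x => Complex.exp (N * (l b y + e b)) * F (x, y)) z := by
    funext z
    show F (z + α b, y + β b) = _
    rw [h.qp, mul_assoc]
  rw [h2, fc_ev, fc_const, sub_neg_eq_add]

end

end Pool.Agent.Helper53.LT
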