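import Pool.Agent.Helper53.LT.Da
import Pool.Agent.Helper53.LT.Dc

/-!
PROJECT LT, block B, file Ds: the lemma `small`.
It uses `Fa.lean`, `Fb.lean`, `Da.lean`, `Dc.lean`.
-/

namespace Pool.Agent.Helper53.LT

noncomputable section

variable {ι η : Type} [Fintype ι] [Fintype η]

private theorem B7_lin {κ : Type} [Fintype κ] (l : (ι → ℤ) →+ ((κ → ℂ) →ₗ[ℂ] ℂ)) :
    ∃ C : ℝ, 0 < C ∧ ∀ b y, ‖l b y‖ ≤ C * ‖b‖ * ‖y‖ := by
  classical
  let φ : (ι → ℤ) →+ (κ → ℂ) :=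
    { toFun := fun b j => l b (Pi.single j 1)
      map_zero' := by
        funext j
        rw [map_zero, LinearMap.zero_apply]
        rfl
      map_add' := fun a b => by
        funext j
        rw [map_add, LinearMap.add_apply]
        rfl }
  obtain ⟨C, hC, hb⟩ := add_bound φ
  refine ⟨(Fintype.card κ + 1) * C, by positivity, fun b y => ?_⟩
  have h1 : y = ∑ j, y j • (Pi.single j (1 : ℂ) : κ → ℂ) := by
    funext t
    rw [Finset.sum_apply]
    simp [Pi.single_apply]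
  have h2 : l b y = ∑ j, y j * φ b j := by
    conv_lhs => rw [h1]
    rw [map_sum]
    refine Finset.sum_congr rfl fun j _ => ?_
    rw [map_smul, smul_eq_mul]
    rfl
  rw [h2]
  calc ‖∑ j, y j * φ b j‖ ≤ ∑ j, ‖y j * φ b j‖ := norm_sum_le _ _
    _ ≤ ∑ _j : κ, ‖y‖ * (C * ‖b‖) := by
      refine Finset.sum_le_sum fun j _ => ?_
      rw [norm_mul]
      exact mul_le_mul (norm_le_pi_norm y j) ((norm_le_pi_norm (φ b) j).trans (hb b))
        (norm_nonneg _) (norm_nonneg _)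
    _ = Fintype.card κ * (‖y‖ * (C * ‖b‖)) := by
      rw [Finset.sum_const, Finset.card_univ, nsmul_eq_mul]
    _ ≤ (Fintype.card κ + 1) * (‖y‖ * (C * ‖b‖)) :=
      mul_le_mul_of_nonneg_right (by linarith) (by positivity)
    _ = (Fintype.card κ + 1) * C * ‖b‖ * ‖y‖ := by ring

private theorem B7_case1 {cd B0 Cg a n U M : ℝ} (hcd : 0 < cd) (hB : 0 ≤ B0) (hCg : 0 ≤ Cg)
    (hn : 1 ≤ n) (hU : n ≤ U)
    (hM : 2 * (3 + B0 + Cg + a ^ 2 / cd) / cd * n * U ≤ M ^ 2) :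
    2 * U + B0 * n - cd * M ^ 2 / n + a * M ≤ -U - Cg * n - cd / 4 * M ^ 2 / n := by
  have hn0 : 0 < n := by linarith
  obtain ⟨z, hz⟩ : ∃ z, z = M ^ 2 / n := ⟨_, rfl⟩
  have h1 : a * M ≤ cd / 4 * z + a ^ 2 / cd * n := by
    have h2 : cd / 4 * z + a ^ 2 / cd * n - a * M = (cd * M / 2 - a * n) ^ 2 / (cd * n) := by
      rw [hz]
      field_simp
      ring
    have h3 : 0 ≤ (cd * M / 2 - a * n) ^ 2 / (cd * n) := by positivity
    linarith
  have h4 : (3 + B0 + Cg + a ^ 2 / cd) * U ≤ cd / 2 * z := by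
    have h5 : 2 * (3 + B0 + Cg + a ^ 2 / cd) / cd * U ≤ z := by
      rw [hz, le_div_iff₀ hn0]
      calc 2 * (3 + B0 + Cg + a ^ 2 / cd) / cd * U * n =
          2 * (3 + B0 + Cg + a ^ 2 / cd) / cd * n * U := by ring
        _ ≤ M ^ 2 := hM
    calc (3 + B0 + Cg + a ^ 2 / cd) * U =
        cd / 2 * (2 * (3 + B0 + Cg + a ^ 2 / cd) / cd * U) := by
          field_simp
      _ ≤ cd / 2 * z := mul_le_mul_of_nonneg_left h5 (by linarith)
  have h6 : cd * M ^ 2 / n = cd * z := by rw [hz, mul_div_assoc]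
  have h7 : cd / 4 * M ^ 2 / n = cd / 4 * z := by rw [hz, mul_div_assoc]
  rw [h6, h7]
  have h8 : B0 * n ≤ B0 * U := mul_le_mul_of_nonneg_left hU hB
  have h9 : Cg * n ≤ Cg * U := mul_le_mul_of_nonneg_left hU hCg
  have h10 : a ^ 2 / cd * n ≤ a ^ 2 / cd * U := mul_le_mul_of_nonneg_left hU (by positivity)
  have h11 : (3 + B0 + Cg + a ^ 2 / cd) * U = 3 * U + B0 * U + Cg * U + a ^ 2 / cd * U := by ring
  linarith

/-- `F` is small if the `c_m`, `m ∈ Q`, are small.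
Proof. `Q` from `rep`. For `m ∈ Z^ι` let `b` with `m - N μ b = m₀ ∈ Q`, `‖b‖ ≤ C₁ (‖m‖ / N + 1)`. `fc_qp`
with `-b`, `m`, `y + β b`:
`exp (N (l (-b) (y + β b) + e (-b))) * c_{m₀} (y + β b) = ev m (-α b) * c_m (y)`,
so `|c_m (y)| ≤ exp (N |l b (y + β b)| + N Re e (-b)) |ev m (α b)| |c_{m₀} (y + β b)|`.
`F (x, y) = ∑ c_m (y) ev m x` (`hasSum_fc`), `|ev m x| ≤ exp (2 pi g ‖m‖ R0)` (`norm_ev_le`). Let `C₂, c` be the
constants of `dec`.
* `‖m‖^2 ≥ K^2 N U`: the term is `≤ exp (2 U + C₂ N (1 + R0^2) - c ‖m‖^2 / N + 2 pi g R0 ‖m‖)`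
  `≤ exp (C₃ U - (3/4) c ‖m‖^2 / N) ≤ exp (-3 U - C₄ N) exp (-(c/4) ‖m‖^2 / N)` if `K` is large, where
  `C₄` is the constant of `gauss_sum` for `c/4` (`N ≤ U` and
  `2 pi g R0 ‖m‖ ≤ (c/4) ‖m‖^2 / N + const N`).
* `‖m‖^2 < K^2 N U`: then `‖b‖ ≤ C₅ √(U/N)`, `N ‖b‖^2 ≤ C₆ U`, `N ‖b‖ ≤ C₆ U`, `‖y + β b‖ ≤ C √(U/N)`,
  `‖m‖ ‖b‖ ≤ C₆ U`, so the term is `≤ exp (C₇ U) exp (-C U)`
  `≤ exp (C₇ U + (c/4) K^2 U - C U) exp (-(c/4) ‖m‖^2 / N)`.
Now `C` large, and `gauss_sum`. -/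
theorem small (α : (ι → ℤ) →+ (ι → ℂ)) (β : (ι → ℤ) →+ (η → ℂ)) (μ : (ι → ℤ) →+ (ι → ℤ))
    (l : (ι → ℤ) →+ ((η → ℂ) →ₗ[ℂ] ℂ)) (hμ : Function.Injective μ) (C0 R0 : ℝ) :
    ∃ C : ℝ, 0 < C ∧ ∀ N : ℕ, 1 ≤ N → ∃ Q : Finset (ι → ℤ), Q.Nonempty ∧
      (Q.card : ℝ) ≤ C * (N : ℝ) ^ Fintype.card ι ∧
      ∀ U : ℝ, (N : ℝ) ≤ U → ∀ (e : (ι → ℤ) → ℂ) (F : (ι → ℂ) × (η → ℂ) → ℂ),
        Qp α β μ l N e F → (∀ b, (e b).re ≤ C0 * (1 + ‖b‖ ^ 2)) →
        (∀ x y, ‖F (x, y)‖ ≤ Real.exp (2 * U + C0 * N * (1 + ‖x‖ ^ 2 + ‖y‖ ^ 2))) →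
        (∀ m ∈ Q, ∀ y, ‖y‖ ≤ C * Real.sqrt (U / N) →
          ‖fc (fun x => F (x, y)) m‖ ≤ Real.exp (-(C * U))) →
        ∀ x y, ‖x‖ ≤ R0 → ‖y‖ ≤ R0 → ‖F (x, y)‖ ≤ Real.exp (-U) := by
  obtain ⟨Cr, hCr, hrep⟩ := rep μ hμ
  obtain ⟨Ca, hCa, hα⟩ := add_bound α
  obtain ⟨Cb, hCb, hβ⟩ := add_bound β
  obtain ⟨Cl, hCl, hl⟩ := B7_lin l
  obtain ⟨Cd, cd, hCd, hcd, hdec⟩ := dec ι η C0
  obtain ⟨Cg, hCg, hgauss⟩ := gauss_sum ι (cd / 4) (by linarith)
  obtain ⟨g, hg⟩ : ∃ g : ℝ, g = Fintype.card ι := ⟨_, rfl⟩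
  have hg0 : 0 ≤ g := by
    rw [hg]
    exact Nat.cast_nonneg _
  have hpi := Real.pi_pos
  obtain ⟨R1, hR1⟩ : ∃ R1 : ℝ, R1 = max R0 1 := ⟨_, rfl⟩
  have hR1a : 1 ≤ R1 := by
    rw [hR1]
    exact le_max_right _ _
  have hR1b : R0 ≤ R1 := by
    rw [hR1]
    exact le_max_left _ _
  obtain ⟨a, ha⟩ : ∃ a : ℝ, a = 2 * Real.pi * g * R1 := ⟨_, rfl⟩
  have ha0 : 0 ≤ a := by
    rw [ha]
    positivity
  obtain ⟨B0, hB0⟩ : ∃ B0 : ℝ, B0 = Cd * (1 + R1 ^ 2) := ⟨_, rfl⟩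
  have hB00 : 0 ≤ B0 := by
    rw [hB0]
    positivity
  obtain ⟨K2, hK2⟩ : ∃ K2 : ℝ, K2 = 2 * (3 + B0 + Cg + a ^ 2 / cd) / cd := ⟨_, rfl⟩
  have hK20 : 0 ≤ K2 := by
    rw [hK2]
    positivity
  obtain ⟨k, hk⟩ : ∃ k : ℝ, k = Real.sqrt K2 := ⟨_, rfl⟩
  have hk0 : 0 ≤ k := by
    rw [hk]
    exact Real.sqrt_nonneg _
  have hkk : k ^ 2 = K2 := by
    rw [hk]
    exact Real.sq_sqrt hK20
  obtain ⟨C5, hC5⟩ : ∃ C5 : ℝ, C5 = Cr * (k + 1) := ⟨_, rfl⟩
  have hC50 : 0 ≤ C5 := by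
    rw [hC5]
    positivity
  obtain ⟨C6, hC6⟩ : ∃ C6 : ℝ, C6 = R1 + Cb * C5 := ⟨_, rfl⟩
  have hC60 : 0 ≤ C6 := by
    rw [hC6]
    positivity
  obtain ⟨C7, hC7⟩ : ∃ C7 : ℝ, C7 = 2 * Real.pi * g * (k * (Ca * C5)) + Cl * C5 * C6 +
      |C0| * (1 + C5 ^ 2) + a * k := ⟨_, rfl⟩
  have hC70 : 0 ≤ C7 := by
    rw [hC7]
    positivity
  refine ⟨Cr + C6 + C7 + 1 + Cg + cd / 4 * K2, by positivity, ?_⟩
  intro N hN
  obtain ⟨Q, hQ0, hQ1, hQ2⟩ := hrep N hN
  refine ⟨Q, hQ0, ?_, ?_⟩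
  · refine hQ1.trans (mul_le_mul_of_nonneg_right ?_ (by positivity))
    have : 0 ≤ cd / 4 * K2 := by positivity
    linarith
  intro U hU e F hF he hgrow hsm x y hx hy
  obtain ⟨C, hC⟩ : ∃ C : ℝ, C = Cr + C6 + C7 + 1 + Cg + cd / 4 * K2 := ⟨_, rfl⟩
  rw [← hC] at hsm
  have hN1 : (1 : ℝ) ≤ N := by exact_mod_cast hN
  have hN0 : (0 : ℝ) < N := by linarith
  have hU0 : 0 < U := by linarith
  obtain ⟨s, hs⟩ : ∃ s : ℝ, s = Real.sqrt (U / N) := ⟨_, rfl⟩
  have hUN : 1 ≤ U / N := by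
    rw [le_div_iff₀ hN0]
    linarith
  have hs1 : 1 ≤ s := by
    rw [hs]
    exact Real.one_le_sqrt.2 hUN
  have hs2 : N * s ^ 2 = U := by
    rw [hs, Real.sq_sqrt (by linarith)]
    field_simp
  have hNs : N * s ≤ U := by
    rw [← hs2]
    refine mul_le_mul_of_nonneg_left ?_ hN0.le
    nlinarith
  have hx1 : ‖x‖ ≤ R1 := hx.trans hR1b
  have hy1 : ‖y‖ ≤ R1 := hy.trans hR1b
  obtain ⟨hsum, htsum⟩ := hgauss N hN
  have hdiff : Differentiable ℂ (fun x => F (x, y)) :=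
    hF.diff.comp (differentiable_id.prodMk (differentiable_const y))
  have hHS := hasSum_fc (fun x => F (x, y)) hdiff (fun a z => hF.per a z y) x
  have hterm : ∀ m : ι → ℤ, ‖fc (fun x => F (x, y)) m * ev m x‖ ≤
      Real.exp (-U - Cg * N) * Real.exp (-(cd / 4 * ‖m‖ ^ 2 / N)) := by
    intro m
    obtain ⟨M, hM⟩ : ∃ M : ℝ, M = ‖m‖ := ⟨_, rfl⟩
    have hM0 : 0 ≤ M := by
      rw [hM]
      exact norm_nonneg _
    have hev : ‖ev m x‖ ≤ Real.exp (a * M) := by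
      refine (norm_ev_le m x).trans (Real.exp_le_exp.2 ?_)
      rw [← hg, ← hM, ha]
      calc 2 * Real.pi * g * M * ‖x‖ ≤ 2 * Real.pi * g * M * R1 :=
            mul_le_mul_of_nonneg_left hx1 (by positivity)
        _ = 2 * Real.pi * g * R1 * M := by ring
    rw [norm_mul, ← Real.exp_add, ← hM]
    by_cases hcase : K2 * N * U ≤ M ^ 2
    · have h1 := hdec N hN F hF.diff hF.per (2 * U) hgrow m y
      rw [← hM] at h1
      have h2 : 2 * U + Cd * N * (1 + ‖y‖ ^ 2) - cd * M ^ 2 / N ≤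
          2 * U + B0 * N - cd * M ^ 2 / N := by
        have h3 : ‖y‖ ^ 2 ≤ R1 ^ 2 := pow_le_pow_left₀ (norm_nonneg _) hy1 2
        have h4 : Cd * N * (1 + ‖y‖ ^ 2) ≤ Cd * N * (1 + R1 ^ 2) :=
          mul_le_mul_of_nonneg_left (by linarith) (by positivity)
        have h5 : B0 * N = Cd * N * (1 + R1 ^ 2) := by
          rw [hB0]
          ring
        linarith
      have h6 := h1.trans (Real.exp_le_exp.2 h2)
      calc ‖fc (fun x => F (x, y)) m‖ * ‖ev m x‖ ≤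
          Real.exp (2 * U + B0 * N - cd * M ^ 2 / N) * Real.exp (a * M) :=
            mul_le_mul h6 hev (norm_nonneg _) (Real.exp_pos _).le
        _ = Real.exp (2 * U + B0 * N - cd * M ^ 2 / N + a * M) := by rw [← Real.exp_add]
        _ ≤ Real.exp (-U - Cg * N + -(cd / 4 * M ^ 2 / N)) := by
            refine Real.exp_le_exp.2 ?_
            rw [hK2] at hcase
            have h7 := B7_case1 hcd hB00 hCg.le hN1 hU hcase
            linarith
    · have hcase' : M ^ 2 < K2 * N * U := not_le.1 hcase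
      have hMk : M ≤ k * (N * s) := by
        refine (sq_le_sq₀ hM0 (by positivity)).1 ?_
        calc M ^ 2 ≤ K2 * N * U := hcase'.le
          _ = (k * (N * s)) ^ 2 := by
            rw [← hkk, ← hs2]
            ring
      obtain ⟨b, hb1, hb2⟩ := hQ2 m
      rw [← hM] at hb2
      have hb3 : ‖b‖ ≤ C5 * s := by
        refine hb2.trans ?_
        have h1 : M / N ≤ k * s := by
          rw [div_le_iff₀ hN0]
          calc M ≤ k * (N * s) := hMk
            _ = k * s * N := by ring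
        calc Cr * (M / N + 1) ≤ Cr * (k * s + s) :=
              mul_le_mul_of_nonneg_left (by linarith) hCr.le
          _ = C5 * s := by
            rw [hC5]
            ring
      have hyb : ‖y + β b‖ ≤ C6 * s := by
        calc ‖y + β b‖ ≤ ‖y‖ + ‖β b‖ := norm_add_le _ _
          _ ≤ R1 * s + Cb * (C5 * s) := by
            refine add_le_add (hy1.trans (le_mul_of_one_le_right (by linarith) hs1)) ?_
            exact (hβ b).trans (mul_le_mul_of_nonneg_left hb3 hCb.le)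
          _ = C6 * s := by
            rw [hC6]
            ring
      have hfc0 := hsm _ hb1 (y + β b) (by
        rw [← hs]
        refine hyb.trans (mul_le_mul_of_nonneg_right ?_ (by linarith))
        rw [hC]
        have : 0 ≤ cd / 4 * K2 := by positivity
        linarith)
      have hqp := fc_qp hF (-b) m (y + β b)
      have e1 : m + (N : ℤ) • μ (-b) = m - (N : ℤ) • μ b := by
        rw [map_neg, smul_neg, sub_eq_add_neg]
      have e2 : y + β b + β (-b) = y := by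
        rw [map_neg, add_neg_cancel_right]
      rw [e1, e2] at hqp
      have hevα : ev m (α b) * ev m (α (-b)) = 1 := by
        rw [← ev_add, ← map_add, add_neg_cancel, map_zero]
        unfold ev
        simp
      have hfcm : fc (fun x => F (x, y)) m = ev m (α b) *
          (Complex.exp (N * (l (-b) (y + β b) + e (-b))) *
            fc (fun x => F (x, y + β b)) (m - (N : ℤ) • μ b)) := by
        rw [hqp, ← mul_assoc, hevα, one_mul]
      have n1 : ‖ev m (α b)‖ ≤ Real.exp (2 * Real.pi * g * (k * (Ca * C5)) * U) := by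
        refine (norm_ev_le m (α b)).trans (Real.exp_le_exp.2 ?_)
        rw [← hg, ← hM]
        have h1 : ‖α b‖ ≤ Ca * (C5 * s) := (hα b).trans (mul_le_mul_of_nonneg_left hb3 hCa.le)
        calc 2 * Real.pi * g * M * ‖α b‖ ≤ 2 * Real.pi * g * (k * (N * s)) * (Ca * (C5 * s)) := by
              refine mul_le_mul (mul_le_mul_of_nonneg_left hMk (by positivity)) h1
                (norm_nonneg _) (by positivity)
          _ = 2 * Real.pi * g * (k * (Ca * C5)) * (N * s ^ 2) := by ring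
          _ = 2 * Real.pi * g * (k * (Ca * C5)) * U := by rw [hs2]
      have n2 : ‖Complex.exp (N * (l (-b) (y + β b) + e (-b)))‖ ≤
          Real.exp ((Cl * C5 * C6 + |C0| * (1 + C5 ^ 2)) * U) := by
        rw [Complex.norm_exp]
        refine Real.exp_le_exp.2 ?_
        have h1 : ((N : ℂ) * (l (-b) (y + β b) + e (-b))).re =
            N * ((l (-b) (y + β b)).re + (e (-b)).re) := by
          rw [← Complex.ofReal_natCast, Complex.re_ofReal_mul, Complex.add_re]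
        rw [h1]
        have h2 : (l (-b) (y + β b)).re ≤ Cl * (C5 * s) * (C6 * s) := by
          refine (Complex.re_le_norm _).trans ((hl (-b) (y + β b)).trans ?_)
          rw [norm_neg]
          exact mul_le_mul (mul_le_mul_of_nonneg_left hb3 hCl.le) hyb (norm_nonneg _)
            (by positivity)
        have h3 : (e (-b)).re ≤ |C0| * (1 + C5 ^ 2 * s ^ 2) := by
          refine (he (-b)).trans ?_
          rw [norm_neg]
          have h4 : ‖b‖ ^ 2 ≤ C5 ^ 2 * s ^ 2 := by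
            rw [← mul_pow]
            exact pow_le_pow_left₀ (norm_nonneg _) hb3 2
          calc C0 * (1 + ‖b‖ ^ 2) ≤ |C0| * (1 + ‖b‖ ^ 2) :=
                mul_le_mul_of_nonneg_right (le_abs_self _) (by positivity)
            _ ≤ |C0| * (1 + C5 ^ 2 * s ^ 2) :=
                mul_le_mul_of_nonneg_left (by linarith) (abs_nonneg _)
        calc (N : ℝ) * ((l (-b) (y + β b)).re + (e (-b)).re) ≤
            N * (Cl * (C5 * s) * (C6 * s) + |C0| * (1 + C5 ^ 2 * s ^ 2)) :=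
              mul_le_mul_of_nonneg_left (add_le_add h2 h3) hN0.le
          _ = Cl * C5 * C6 * (N * s ^ 2) + |C0| * (N + C5 ^ 2 * (N * s ^ 2)) := by ring
          _ = Cl * C5 * C6 * U + |C0| * (N + C5 ^ 2 * U) := by rw [hs2]
          _ ≤ Cl * C5 * C6 * U + |C0| * (U + C5 ^ 2 * U) := by
              refine add_le_add le_rfl (mul_le_mul_of_nonneg_left (by linarith) (abs_nonneg _))
          _ = (Cl * C5 * C6 + |C0| * (1 + C5 ^ 2)) * U := by ring
      have n3 : Real.exp (a * M) ≤ Real.exp (a * k * U) := by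
        refine Real.exp_le_exp.2 ?_
        calc a * M ≤ a * (k * (N * s)) := mul_le_mul_of_nonneg_left hMk ha0
          _ ≤ a * (k * U) := mul_le_mul_of_nonneg_left (mul_le_mul_of_nonneg_left hNs hk0) ha0
          _ = a * k * U := by ring
      have n4 : ‖fc (fun x => F (x, y)) m‖ ≤
          Real.exp (2 * Real.pi * g * (k * (Ca * C5)) * U) *
            (Real.exp ((Cl * C5 * C6 + |C0| * (1 + C5 ^ 2)) * U) * Real.exp (-(C * U))) := by
        rw [hfcm, norm_mul, norm_mul]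
        exact mul_le_mul n1 (mul_le_mul n2 hfc0 (norm_nonneg _) (Real.exp_pos _).le)
          (by positivity) (Real.exp_pos _).le
      calc ‖fc (fun x => F (x, y)) m‖ * ‖ev m x‖ ≤
          (Real.exp (2 * Real.pi * g * (k * (Ca * C5)) * U) *
            (Real.exp ((Cl * C5 * C6 + |C0| * (1 + C5 ^ 2)) * U) * Real.exp (-(C * U)))) *
              Real.exp (a * k * U) :=
            mul_le_mul n4 (hev.trans n3) (norm_nonneg _) (by positivity)
        _ = Real.exp (C7 * U - C * U) := by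
            rw [← Real.exp_add, ← Real.exp_add, ← Real.exp_add]
            congr 1
            rw [hC7]
            ring
        _ ≤ Real.exp (-U - Cg * N + -(cd / 4 * M ^ 2 / N)) := by
            refine Real.exp_le_exp.2 ?_
            have h1 : cd / 4 * M ^ 2 / N ≤ cd / 4 * K2 * U := by
              rw [div_le_iff₀ hN0]
              calc cd / 4 * M ^ 2 ≤ cd / 4 * (K2 * N * U) :=
                    mul_le_mul_of_nonneg_left hcase'.le (by linarith)
                _ = cd / 4 * K2 * U * N := by ring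
            have h2 : Cg * N ≤ Cg * U := mul_le_mul_of_nonneg_left hU hCg.le
            have h3 : C * U = Cr * U + C6 * U + C7 * U + U + Cg * U + cd / 4 * K2 * U := by
              rw [hC]
              ring
            have h4 : 0 ≤ Cr * U := by positivity
            have h5 : 0 ≤ C6 * U := by positivity
            linarith
  have hb := hHS.norm_le_of_bounded ((hsum.hasSum).mul_left (Real.exp (-U - Cg * N))) hterm
  refine hb.trans ?_
  calc Real.exp (-U - Cg * N) * ∑' m : ι → ℤ, Real.exp (-(cd / 4 * ‖m‖ ^ 2 / N)) ≤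
      Real.exp (-U - Cg * N) * Real.exp (Cg * N) :=
        mul_le_mul_of_nonneg_left htsum (Real.exp_pos _).le
    _ = Real.exp (-U) := by
        rw [← Real.exp_add]
        congr 1
        ring

end

end Pool.Agent.Helper53.LT
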