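import Pool.Agent.Helper53.LT.Bx
import Pool.Agent.Helper53.LT.Ds

/-!
PROJECT LT, block B, file Bp: the box principle for the class `Qp`.
-/

namespace Pool.Agent.Helper53.LT

noncomputable section

variable {ι η : Type} [Fintype ι] [Fintype η]

/-- Proof. `C'`, `Q` from `small`; `box` with `R = C' √(U/N)`, `h i q y = fc (F_i (·, y)) q`,
`V = C'' U`; `dec` with `A = 0` bounds `h` on `‖y‖ ≤ 4 R`; then `small` for `∑ c_i F_i` (`fc_sum`). -/
theorem B1 (α : (ι → ℤ) →+ (ι → ℂ)) (β : (ι → ℤ) →+ (η → ℂ)) (μ : (ι → ℤ) →+ (ι → ℤ))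
    (l : (ι → ℤ) →+ ((η → ℂ) →ₗ[ℂ] ℂ)) (hμ : Function.Injective μ) (C0 R0 : ℝ) :
    ∃ C : ℝ, 0 < C ∧ ∀ N : ℕ, 1 ≤ N → ∀ (I : Type) [Fintype I]
      (F : I → (ι → ℂ) × (η → ℂ) → ℂ) (e : (ι → ℤ) → ℂ), (∀ i, Qp α β μ l N e (F i)) →
      (∀ b, (e b).re ≤ C0 * (1 + ‖b‖ ^ 2)) →
      (∀ i x y, ‖F i (x, y)‖ ≤ Real.exp (C0 * N * (1 + ‖x‖ ^ 2 + ‖y‖ ^ 2))) →
      ∀ S U : ℝ, 1 ≤ S → S ≤ U → (N : ℝ) ≤ U → (Fintype.card I : ℝ) ≤ Real.exp U →
      C * (N : ℝ) ^ Fintype.card ι * U ^ (Fintype.card η + 1) ≤ Fintype.card I * S →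
      ∃ c : I → ℤ, c ≠ 0 ∧ (∀ i, |(c i : ℝ)| ≤ Real.exp S) ∧
        ∀ x y, ‖x‖ ≤ R0 → ‖y‖ ≤ R0 → ‖∑ i, (c i : ℂ) * F i (x, y)‖ ≤ Real.exp (-U) := by
  obtain ⟨C1, hC1, hsm⟩ := small α β μ l hμ C0 R0
  obtain ⟨Cd, cd, hCd, hcd, hdec⟩ := dec ι η C0
  obtain ⟨Cb, hCb, hbox⟩ := box η
  set C2 : ℝ := 1 + C1 + Cd + 16 * Cd * C1 ^ 2 with hC2
  have hC2p : 0 < C2 := by positivity
  have hC2a : 1 ≤ C2 := by
    have h1 : 0 ≤ 16 * Cd * C1 ^ 2 := by positivity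
    linarith
  have hC2b : C1 ≤ C2 := by
    have h1 : 0 ≤ 16 * Cd * C1 ^ 2 := by positivity
    linarith
  refine ⟨Cb * C1 * C2 ^ (Fintype.card η + 1), by positivity, ?_⟩
  intro N hN I _ F e hQp he hF S U hS hSU hNU hI hC
  obtain ⟨Q, hQne, hQcard, hQ⟩ := hsm N hN
  have hN1 : (1 : ℝ) ≤ N := by exact_mod_cast hN
  have hN0 : (0 : ℝ) < N := by linarith
  have hU0 : 0 < U := by linarith
  have hne : Nonempty {m // m ∈ Q} := by
    obtain ⟨m, hm⟩ := hQne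
    exact ⟨⟨m, hm⟩⟩
  set R : ℝ := C1 * Real.sqrt (U / N) with hR
  have hR0 : 0 < R := mul_pos hC1 (Real.sqrt_pos.2 (div_pos hU0 hN0))
  have hR2 : (N : ℝ) * R ^ 2 = C1 ^ 2 * U := by
    rw [hR, mul_pow, Real.sq_sqrt (div_pos hU0 hN0).le]
    field_simp
  have hdiff : ∀ i (q : {m // m ∈ Q}),
      Differentiable ℂ (fun y : η → ℂ => fc (fun x => F i (x, y)) q.1) := fun i q =>
    differentiable_fc (F i) (hQp i).diff q.1
  have hbd : ∀ i (q : {m // m ∈ Q}) (y : η → ℂ), ‖y‖ ≤ 4 * R →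
      ‖fc (fun x => F i (x, y)) q.1‖ ≤ Real.exp (C2 * U) := by
    intro i q y hy
    have h1 := hdec N hN (F i) (hQp i).diff (hQp i).per 0
      (fun x y => by rw [zero_add]; exact hF i x y) q.1 y
    refine h1.trans (Real.exp_le_exp.2 ?_)
    have h2 : 0 ≤ cd * ‖q.1‖ ^ 2 / N := by positivity
    have h3 : ‖y‖ ^ 2 ≤ 16 * R ^ 2 := by
      have := pow_le_pow_left₀ (norm_nonneg y) hy 2
      rw [mul_pow] at this
      norm_num at this
      exact this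
    have h4 : Cd * N * (1 + ‖y‖ ^ 2) ≤ Cd * N * (1 + 16 * R ^ 2) :=
      mul_le_mul_of_nonneg_left (by linarith) (by positivity)
    have h5 : Cd * N * (1 + 16 * R ^ 2) = Cd * N + 16 * Cd * C1 ^ 2 * U := by
      linear_combination 16 * Cd * hR2
    have h6 : Cd * N ≤ Cd * U := mul_le_mul_of_nonneg_left hNU hCd.le
    have h7 : C2 * U = U + C1 * U + Cd * U + 16 * Cd * C1 ^ 2 * U := by rw [hC2]; ring
    have h8 : 0 < C1 * U := by positivity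
    rw [h7]
    linarith
  have hSV : S ≤ C2 * U := hSU.trans (by nlinarith)
  have hIV : (Fintype.card I : ℝ) ≤ Real.exp (C2 * U) :=
    hI.trans (Real.exp_le_exp.2 (by nlinarith))
  have hcond : Cb * Fintype.card {m // m ∈ Q} * (C2 * U) ^ (Fintype.card η + 1) ≤
      Fintype.card I * S := by
    refine le_trans ?_ hC
    rw [Fintype.card_coe, mul_pow]
    calc Cb * (Q.card : ℝ) * (C2 ^ (Fintype.card η + 1) * U ^ (Fintype.card η + 1)) =
        (Cb * C2 ^ (Fintype.card η + 1) * U ^ (Fintype.card η + 1)) * (Q.card : ℝ) := by ring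
      _ ≤ (Cb * C2 ^ (Fintype.card η + 1) * U ^ (Fintype.card η + 1)) *
          (C1 * (N : ℝ) ^ Fintype.card ι) := mul_le_mul_of_nonneg_left hQcard (by positivity)
      _ = _ := by ring
  obtain ⟨c, hc0, hc1, hc2⟩ := hbox I {m // m ∈ Q} R hR0
    (fun i q y => fc (fun x => F i (x, y)) q.1) hdiff S (C2 * U) hS hSV hIV hbd hcond
  refine ⟨c, hc0, hc1, ?_⟩
  refine hQ U hNU e (fun p => ∑ i, (c i : ℂ) * F i p) ⟨?_, ?_, ?_⟩ he ?_ ?_
  · exact Differentiable.fun_sum fun i _ => (hQp i).diff.const_mul _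
  · intro a x y
    exact Finset.sum_congr rfl fun i _ => by rw [(hQp i).per]
  · intro b x y
    rw [Finset.mul_sum]
    refine Finset.sum_congr rfl fun i _ => ?_
    rw [(hQp i).qp]
    ring
  · intro x y
    calc ‖∑ i, (c i : ℂ) * F i (x, y)‖ ≤ ∑ i, ‖(c i : ℂ) * F i (x, y)‖ := norm_sum_le _ _
      _ ≤ ∑ _i : I, Real.exp S * Real.exp (C0 * N * (1 + ‖x‖ ^ 2 + ‖y‖ ^ 2)) := by
        refine Finset.sum_le_sum fun i _ => ?_
        rw [norm_mul, Complex.norm_intCast]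
        exact mul_le_mul (hc1 i) (hF i x y) (norm_nonneg _) (Real.exp_pos S).le
      _ = (Fintype.card I : ℝ) *
          (Real.exp S * Real.exp (C0 * N * (1 + ‖x‖ ^ 2 + ‖y‖ ^ 2))) := by
        rw [Finset.sum_const, Finset.card_univ, nsmul_eq_mul]
      _ ≤ Real.exp U * (Real.exp U * Real.exp (C0 * N * (1 + ‖x‖ ^ 2 + ‖y‖ ^ 2))) := by
        refine mul_le_mul hI (mul_le_mul_of_nonneg_right (Real.exp_le_exp.2 hSU)
          (Real.exp_pos _).le) (by positivity) (Real.exp_pos U).le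
      _ = Real.exp (2 * U + C0 * N * (1 + ‖x‖ ^ 2 + ‖y‖ ^ 2)) := by
        rw [← Real.exp_add, ← Real.exp_add]
        congr 1
        ring
  · intro m hm y hy
    have h1 := fc_sum Finset.univ (fun i => (c i : ℂ)) (fun i x => F i (x, y))
      (fun i => (hQp i).diff.continuous.comp (by fun_prop)) m
    change ‖fc (fun x => ∑ i, (c i : ℂ) * F i (x, y)) m‖ ≤ _
    rw [h1]
    refine (hc2 ⟨m, hm⟩ y hy).trans (Real.exp_le_exp.2 ?_)
    have h2 : C1 * U ≤ C2 * U := mul_le_mul_of_nonneg_right hC2b hU0.le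
    linarith

end

end Pool.Agent.Helper53.LT
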