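import Pool.Agent.Helper53.LT.Fb

/-!
PROJECT LT, block B, file Bt: normalised Taylor coefficients on a polydisc.
Everything on `tc` follows from the lemmas on `fc` in `Fa.lean`, `Fb.lean`.
-/

namespace Pool.Agent.Helper53.LT

noncomputable section

variable {η : Type} [Fintype η]

/-- `u ↦ h (R exp (2 pi i u_k))` is differentiable and periodic. -/
theorem tc_diff (h : (η → ℂ) → ℂ) (hh : Differentiable ℂ h) (R : ℝ) :
    Differentiable ℂ (fun u : η → ℂ => h (fun k =>
      (R : ℂ) * Complex.exp (2 * Real.pi * Complex.I * u k))) ∧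
    Per (fun u : η → ℂ => h (fun k =>
      (R : ℂ) * Complex.exp (2 * Real.pi * Complex.I * u k))) := by
  refine ⟨hh.comp (by fun_prop), fun a z => ?_⟩
  have h1 : (fun k => (R : ℂ) * Complex.exp (2 * Real.pi * Complex.I * (z + co a) k)) =
      fun k => (R : ℂ) * Complex.exp (2 * Real.pi * Complex.I * z k) := by
    funext k
    have h2 : Complex.exp (2 * Real.pi * Complex.I * (z + co a) k) =
        Complex.exp (2 * Real.pi * Complex.I * z k) := by
      rw [Complex.exp_eq_exp_iff_exists_int]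
      refine ⟨a k, ?_⟩
      simp only [Pi.add_apply, co]
      ring
    rw [h2]
  exact congrArg h h1

private theorem tc_pt {R : ℝ} (hR : 0 ≤ R) (z : η → ℂ) (hz : ∀ k, 0 ≤ (z k).im) :
    ‖(fun k => (R : ℂ) * Complex.exp (2 * Real.pi * Complex.I * z k))‖ ≤ R := by
  refine (pi_norm_le_iff_of_nonneg hR).2 fun k => ?_
  rw [norm_mul, Complex.norm_real, Real.norm_eq_abs, abs_of_nonneg hR, Complex.norm_exp]
  have h1 : (2 * Real.pi * Complex.I * z k).re = -(2 * Real.pi * (z k).im) := by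
    simp [Complex.mul_re, Complex.mul_im]
  rw [h1]
  have h2 : Real.exp (-(2 * Real.pi * (z k).im)) ≤ 1 := by
    rw [Real.exp_le_one_iff]
    have := hz k
    have := Real.pi_pos
    nlinarith [mul_nonneg Real.pi_pos.le (hz k)]
  calc R * Real.exp (-(2 * Real.pi * (z k).im)) ≤ R * 1 := mul_le_mul_of_nonneg_left h2 hR
    _ = R := mul_one R

/-- `fc_le`. -/
theorem tc_le (h : (η → ℂ) → ℂ) (R : ℝ) (hR : 0 ≤ R) (B : ℝ)
    (hB : ∀ y, ‖y‖ ≤ R → ‖h y‖ ≤ B) (n : η → ℤ) : ‖tc h R n‖ ≤ B := by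
  refine fc_le _ B (fun x => ?_) n
  exact hB _ (tc_pt hR (rv x) fun k => by simp [rv])

/-- `fc_decay` with `w k = I T`, the others `0`, `T → ∞`: `|ev n w| = exp (- 2 pi n_k T)` and
`‖h‖ ≤ B` on the polydisc of radius `R`. -/
theorem tc_neg (h : (η → ℂ) → ℂ) (hh : Differentiable ℂ h) (R : ℝ) (hR : 0 ≤ R) (n : η → ℤ)
    (k : η) (hn : n k < 0) : tc h R n = 0 := by
  classical
  obtain ⟨B, hB⟩ : ∃ B, ∀ y ∈ Metric.closedBall (0 : η → ℂ) R, ‖h y‖ ≤ B :=
    (isCompact_closedBall (0 : η → ℂ) R).exists_bound_of_continuousOn hh.continuous.continuousOn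
  obtain ⟨hd, hp⟩ := tc_diff h hh R
  have key : ∀ T : ℝ, 0 ≤ T → ‖tc h R n‖ * T ≤ B := by
    intro T hT
    have h1 := fc_decay _ hd hp n (Pi.single k (Complex.I * (T : ℂ))) B (fun x => by
      refine hB _ ?_
      rw [mem_closedBall_zero_iff]
      refine tc_pt hR _ fun j => ?_
      rw [Pi.add_apply, Complex.add_im]
      have h2 : (rv x j).im = 0 := by simp [rv]
      rw [h2, zero_add]
      by_cases hj : j = k
      · subst hj
        rw [Pi.single_eq_same]
        simpa using hT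
      · rw [Pi.single_eq_of_ne hj]
        simp)
    refine le_trans (mul_le_mul_of_nonneg_left ?_ (norm_nonneg _)) h1
    rw [norm_ev]
    have h3 : ∑ i, (n i : ℝ) * ((Pi.single k (Complex.I * (T : ℂ)) : η → ℂ) i).im =
        (n k : ℝ) * T := by
      rw [Finset.sum_eq_single k]
      · rw [Pi.single_eq_same]
        simp
      · intro j _ hj
        rw [Pi.single_eq_of_ne hj]
        simp
      · intro hk
        exact absurd (Finset.mem_univ k) hk
    rw [h3]
    have h4 : (n k : ℝ) ≤ -1 := by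
      have : n k ≤ -1 := by omega
      exact_mod_cast this
    have h5 := Real.add_one_le_exp (-(2 * Real.pi * ((n k : ℝ) * T)))
    have h6 := Real.pi_gt_three
    have h7 : T ≤ -((n k : ℝ) * T) := by nlinarith
    have h8 : 1 * (-((n k : ℝ) * T)) ≤ (2 * Real.pi) * (-((n k : ℝ) * T)) :=
      mul_le_mul_of_nonneg_right (by linarith) (by linarith)
    nlinarith
  by_contra hne
  have hpos : 0 < ‖tc h R n‖ := norm_pos_iff.2 hne
  have hB0 : 0 ≤ B := by
    have := key 0 le_rfl
    rwa [mul_zero] at this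
  have h9 := key (B / ‖tc h R n‖ + 1) (by positivity)
  rw [mul_add, mul_div_cancel₀ _ hpos.ne'] at h9
  linarith

/-- `fc_sum`. -/
theorem tc_sum {I : Type} (s : Finset I) (c : I → ℂ) (h : I → (η → ℂ) → ℂ)
    (hh : ∀ i, Differentiable ℂ (h i)) (R : ℝ) (n : η → ℤ) :
    tc (fun y => ∑ i ∈ s, c i * h i y) R n = ∑ i ∈ s, c i * tc (h i) R n :=
  fc_sum s c _ (fun i => (tc_diff (h i) (hh i) R).1.continuous) n

private def tg (m : ℤ) : ℝ := if 0 ≤ m then (1 / 2) ^ m.toNat else 0

private theorem tg_nonneg (m : ℤ) : 0 ≤ tg m := by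
  unfold tg
  split_ifs
  · positivity
  · exact le_rfl

private theorem tg_hasSum : HasSum tg 2 := by
  have h1 : HasSum (tg ∘ (Nat.cast : ℕ → ℤ)) 2 := by
    have h2 : tg ∘ (Nat.cast : ℕ → ℤ) = fun m : ℕ => ((1 : ℝ) / 2) ^ m := by
      funext m
      simp [tg]
    rw [h2]
    exact hasSum_geometric_two
  refine (Function.Injective.hasSum_iff Nat.cast_injective ?_).1 h1
  intro m hm
  unfold tg
  rw [if_neg]
  intro h0
  exact hm ⟨m.toNat, Int.toNat_of_nonneg h0⟩

private theorem tg_prod_sum (s : Finset (η → ℤ)) : ∑ n ∈ s, ∏ k, tg (n k) ≤ 2 ^ Fintype.card η := by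
  classical
  set S : Finset ℤ := s.biUnion fun n => Finset.univ.image n with hS
  have h1 : s ⊆ Fintype.piFinset fun _ : η => S := by
    intro n hn
    rw [Fintype.mem_piFinset]
    intro k
    rw [hS, Finset.mem_biUnion]
    exact ⟨n, hn, Finset.mem_image_of_mem _ (Finset.mem_univ k)⟩
  calc ∑ n ∈ s, ∏ k, tg (n k) ≤ ∑ n ∈ Fintype.piFinset fun _ : η => S, ∏ k, tg (n k) :=
        Finset.sum_le_sum_of_subset_of_nonneg h1 fun n _ _ =>
          Finset.prod_nonneg fun k _ => tg_nonneg _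
    _ = ∏ _k : η, ∑ m ∈ S, tg m := (Finset.prod_univ_sum (fun _ => S) (fun _ m => tg m)).symm
    _ ≤ ∏ _k : η, (2 : ℝ) := Finset.prod_le_prod
        (fun k _ => Finset.sum_nonneg fun m _ => tg_nonneg m)
        (fun k _ => sum_le_hasSum S (fun m _ => tg_nonneg m) tg_hasSum)
    _ = 2 ^ Fintype.card η := by rw [Finset.prod_const, Finset.card_univ]

private theorem tc_small_aux (h : (η → ℂ) → ℂ) (hh : Differentiable ℂ h) (R : ℝ) (hR : 0 < R)
    (B ε : ℝ) (hε0 : 0 ≤ ε) (hB : ∀ y, ‖y‖ ≤ R → ‖h y‖ ≤ B) (J : ℕ)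
    (hε : ∀ n : η → ℤ, (∀ k, 0 ≤ n k) → (∀ k, n k < J) → ‖tc h R n‖ ≤ ε) (y : η → ℂ)
    (hy : ‖y‖ ≤ R / 4) (hy0 : ∀ k, y k ≠ 0) :
    ‖h y‖ ≤ 2 ^ Fintype.card η * (ε + B * (1 / 2) ^ J) := by
  obtain ⟨hd, hp⟩ := tc_diff h hh R
  have hRC : (R : ℂ) ≠ 0 := by exact_mod_cast hR.ne'
  have hB0 : 0 ≤ B := (norm_nonneg _).trans (hB 0 (by rw [norm_zero]; exact hR.le))
  have hc0 : 0 ≤ ε + B * (1 / 2) ^ J := by positivity
  have h2pi : (2 * Real.pi * Complex.I : ℂ) ≠ 0 := Complex.two_pi_I_ne_zero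
  set u : η → ℂ := fun k => Complex.log (y k / R) / (2 * Real.pi * Complex.I) with hu
  have hexp : ∀ k, Complex.exp (2 * Real.pi * Complex.I * u k) = y k / R := by
    intro k
    rw [hu]
    simp only
    rw [mul_div_cancel₀ _ h2pi, Complex.exp_log (div_ne_zero (hy0 k) hRC)]
  have hval : (fun k => (R : ℂ) * Complex.exp (2 * Real.pi * Complex.I * u k)) = y := by
    funext k
    rw [hexp, mul_div_cancel₀ _ hRC]
  have hs := hasSum_fc _ hd hp u
  rw [hval] at hs
  have him : ∀ k, Real.exp (-(2 * Real.pi * (u k).im)) ≤ 1 / 4 := by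
    intro k
    have h1 : (2 * Real.pi * Complex.I * u k).re = -(2 * Real.pi * (u k).im) := by
      simp [Complex.mul_re, Complex.mul_im]
    rw [← h1, ← Complex.norm_exp, hexp, norm_div, Complex.norm_real, Real.norm_eq_abs,
      abs_of_pos hR, div_le_iff₀ hR]
    have h2 := (norm_le_pi_norm y k).trans hy
    linarith
  have hterm : ∀ n : η → ℤ, ‖tc h R n * ev n u‖ ≤ (ε + B * (1 / 2) ^ J) * ∏ k, tg (n k) := by
    intro n
    by_cases hn : ∀ k, 0 ≤ n k
    · have hev : ‖ev n u‖ ≤ (∏ k, tg (n k)) * ∏ k, tg (n k) := by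
        rw [norm_ev, ← Finset.prod_mul_distrib]
        have h3 : -(2 * Real.pi * ∑ i, (n i : ℝ) * (u i).im) =
            ∑ i, (n i : ℝ) * (-(2 * Real.pi * (u i).im)) := by
          rw [Finset.mul_sum, ← Finset.sum_neg_distrib]
          refine Finset.sum_congr rfl fun i _ => ?_
          ring
        rw [h3, Real.exp_sum]
        refine Finset.prod_le_prod (fun i _ => (Real.exp_pos _).le) fun i _ => ?_
        have h4 : ((n i : ℤ) : ℝ) = ((n i).toNat : ℝ) := by
          have := Int.toNat_of_nonneg (hn i)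
          exact_mod_cast this.symm
        rw [h4, Real.exp_nat_mul]
        unfold tg
        rw [if_pos (hn i), ← mul_pow]
        refine pow_le_pow_left₀ (Real.exp_pos _).le ?_ _
        have := him i
        norm_num at this ⊢
        exact this
      have hP0 : 0 ≤ ∏ k, tg (n k) := Finset.prod_nonneg fun k _ => tg_nonneg _
      have hg1 : ∀ k, tg (n k) ≤ 1 := by
        intro k
        unfold tg
        split_ifs
        · exact pow_le_one₀ (by norm_num) (by norm_num)
        · exact zero_le_one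
      have hP1 : ∏ k, tg (n k) ≤ 1 := Finset.prod_le_one (fun k _ => tg_nonneg _) fun k _ => hg1 k
      rw [norm_mul]
      by_cases hJ : ∀ k, n k < J
      · have h5 := hε n hn hJ
        calc ‖tc h R n‖ * ‖ev n u‖ ≤ ε * ((∏ k, tg (n k)) * ∏ k, tg (n k)) :=
              mul_le_mul h5 hev (norm_nonneg _) hε0
          _ ≤ ε * (1 * ∏ k, tg (n k)) := by
              refine mul_le_mul_of_nonneg_left ?_ hε0
              exact mul_le_mul_of_nonneg_right hP1 hP0
          _ = ε * ∏ k, tg (n k) := by rw [one_mul]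
          _ ≤ (ε + B * (1 / 2) ^ J) * ∏ k, tg (n k) := by
              refine mul_le_mul_of_nonneg_right ?_ hP0
              have : 0 ≤ B * (1 / 2) ^ J := by positivity
              linarith
      · push Not at hJ
        obtain ⟨j, hj⟩ := hJ
        have h5 := tc_le h R hR.le B hB n
        have h6 : ∏ k, tg (n k) ≤ (1 / 2) ^ J := by
          classical
          rw [← Finset.mul_prod_erase Finset.univ _ (Finset.mem_univ j)]
          have h7 : tg (n j) ≤ (1 / 2) ^ J := by
            unfold tg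
            rw [if_pos (hn j)]
            refine pow_le_pow_of_le_one (by norm_num) (by norm_num) ?_
            omega
          have h8 : ∏ k ∈ Finset.univ.erase j, tg (n k) ≤ 1 :=
            Finset.prod_le_one (fun k _ => tg_nonneg _) fun k _ => hg1 k
          calc tg (n j) * ∏ k ∈ Finset.univ.erase j, tg (n k) ≤ (1 / 2) ^ J * 1 :=
                mul_le_mul h7 h8 (Finset.prod_nonneg fun k _ => tg_nonneg _) (by positivity)
            _ = (1 / 2) ^ J := mul_one _
        calc ‖tc h R n‖ * ‖ev n u‖ ≤ B * ((∏ k, tg (n k)) * ∏ k, tg (n k)) :=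
              mul_le_mul h5 hev (norm_nonneg _) hB0
          _ ≤ B * ((1 / 2) ^ J * ∏ k, tg (n k)) := by
              refine mul_le_mul_of_nonneg_left ?_ hB0
              exact mul_le_mul_of_nonneg_right h6 hP0
          _ = (B * (1 / 2) ^ J) * ∏ k, tg (n k) := by ring
          _ ≤ (ε + B * (1 / 2) ^ J) * ∏ k, tg (n k) := by
              refine mul_le_mul_of_nonneg_right ?_ hP0
              linarith
    · push Not at hn
      obtain ⟨k, hk⟩ := hn
      rw [tc_neg h hh R hR.le n k hk, zero_mul, norm_zero]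
      exact mul_nonneg hc0 (Finset.prod_nonneg fun k _ => tg_nonneg _)
  refine le_of_tendsto hs.norm (Filter.Eventually.of_forall fun s => ?_)
  calc ‖∑ n ∈ s, tc h R n * ev n u‖ ≤ ∑ n ∈ s, (ε + B * (1 / 2) ^ J) * ∏ k, tg (n k) :=
        norm_sum_le_of_le s fun n _ => hterm n
    _ = (ε + B * (1 / 2) ^ J) * ∑ n ∈ s, ∏ k, tg (n k) := by rw [Finset.mul_sum]
    _ ≤ (ε + B * (1 / 2) ^ J) * 2 ^ Fintype.card η :=
        mul_le_mul_of_nonneg_left (tg_prod_sum s) hc0
    _ = _ := mul_comm _ _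

/-- First `y` with all `y k ≠ 0`: `y k = R exp (2 pi i u_k)`, `u_k = log (y_k / R) / (2 pi i)`, and
`hasSum_fc` gives `h y = ∑ tc h R n ∏ (y_k / R)^(n_k)`. The terms with some `n_k < 0` are zero; the
others have norm `≤ ‖tc h R n‖ 4^(-∑ n_k) ≤ (ε + B 2^(-J)) 2^(- ∑ n_k)` (if all `n_k < J` use `hε`,
otherwise `∑ n_k ≥ J` and `tc_le`). The sum of `2^(-∑ n_k)` over `n ≥ 0` is `2^card η`.
General `y`: continuity of `h` (replace the coordinates `0` by `s > 0` and let `s → 0`). -/
theorem tc_small (h : (η → ℂ) → ℂ) (hh : Differentiable ℂ h) (R : ℝ) (hR : 0 < R) (B ε : ℝ)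
    (hε0 : 0 ≤ ε) (hB : ∀ y, ‖y‖ ≤ R → ‖h y‖ ≤ B) (J : ℕ)
    (hε : ∀ n : η → ℤ, (∀ k, 0 ≤ n k) → (∀ k, n k < J) → ‖tc h R n‖ ≤ ε) (y : η → ℂ)
    (hy : ‖y‖ ≤ R / 4) :
    ‖h y‖ ≤ 2 ^ Fintype.card η * (ε + B * (1 / 2) ^ J) := by
  classical
  have hcont : Filter.Tendsto (fun s : ℝ => (fun k => if y k = 0 then (s : ℂ) else y k))
      (nhdsWithin 0 (Set.Ioi 0)) (nhds y) := by
    refine tendsto_nhdsWithin_of_tendsto_nhds ?_
    rw [tendsto_pi_nhds]
    intro k
    by_cases hk : y k = 0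
    · simp only [hk, if_true]
      exact (Complex.continuous_ofReal.tendsto' 0 0 Complex.ofReal_zero)
    · simp only [hk, if_false]
      exact tendsto_const_nhds
  have hlim := ((hh.continuous.tendsto y).comp hcont).norm
  refine le_of_tendsto hlim ?_
  have hmem : Set.Ioc (0 : ℝ) (R / 4) ∈ nhdsWithin (0 : ℝ) (Set.Ioi 0) :=
    Ioc_mem_nhdsGT (by positivity)
  refine Filter.mem_of_superset hmem fun s hs => ?_
  refine tc_small_aux h hh R hR B ε hε0 hB J hε _ ?_ ?_
  · refine (pi_norm_le_iff_of_nonneg (by positivity)).2 fun k => ?_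
    by_cases hk : y k = 0
    · simp only [hk, if_true]
      rw [Complex.norm_real, Real.norm_eq_abs, abs_of_pos hs.1]
      exact hs.2
    · simp only [hk, if_false]
      exact (norm_le_pi_norm y k).trans hy
  · intro k
    by_cases hk : y k = 0
    · simp only [hk, if_true]
      exact_mod_cast hs.1.ne'
    · simp only [hk, if_false]
      exact hk

end

end Pool.Agent.Helper53.LT
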