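import Pool.Agent.Helper53.LT.Bt

/-!
PROJECT LT, block B, file Bx: the box principle for a finite family of entire functions.
It uses the lemmas of `Bt.lean`.
-/

namespace Pool.Agent.Helper53.LT

noncomputable section

variable {η : Type} [Fintype η]

private theorem B4_floor {x X : ℝ} (h : |x| ≤ X) : ⌊x⌋ ∈ Finset.Icc (-⌈X⌉) ⌊X⌋ := by
  obtain ⟨h1, h2⟩ := abs_le.1 h
  rw [Finset.mem_Icc]
  refine ⟨?_, Int.floor_le_floor h2⟩
  rw [Int.le_floor]
  push_cast
  have := Int.le_ceil X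
  linarith

private theorem B4_card {X : ℝ} (hX : 2 ≤ X) :
    (((Finset.Icc (-⌈X⌉) ⌊X⌋).card : ℕ) : ℝ) ≤ 4 * X := by
  have h1 : 0 ≤ ⌊X⌋ + 1 - -⌈X⌉ := by
    have h2 : 0 ≤ ⌊X⌋ := Int.floor_nonneg.2 (by linarith)
    have h3 : 0 ≤ ⌈X⌉ := Int.ceil_nonneg (by linarith)
    omega
  have h2 : (((Finset.Icc (-⌈X⌉) ⌊X⌋).card : ℕ) : ℝ) = (⌊X⌋ : ℝ) + 1 + (⌈X⌉ : ℝ) := by
    have h3 : (((Finset.Icc (-⌈X⌉) ⌊X⌋).card : ℕ) : ℤ) = ⌊X⌋ + 1 + ⌈X⌉ := by
      rw [Int.card_Icc, Int.toNat_of_nonneg h1]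
      ring
    exact_mod_cast congrArg (Int.cast : ℤ → ℝ) h3
  rw [h2]
  have h3 := Int.floor_le X
  have h4 := Int.ceil_lt_add_one X
  linarith

private theorem B4_close {x y X : ℝ} (hX : 0 < X) (h : ⌊2 * X * x⌋ = ⌊2 * X * y⌋) :
    |x - y| ≤ X⁻¹ / 2 := by
  have h1 := Int.floor_le (2 * X * x)
  have h2 := Int.lt_floor_add_one (2 * X * x)
  have h3 := Int.floor_le (2 * X * y)
  have h4 := Int.lt_floor_add_one (2 * X * y)
  rw [h] at h1 h2
  have h5 : |2 * X * x - 2 * X * y| ≤ 1 := by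
    rw [abs_le]
    constructor <;> linarith
  have h6 : 2 * X * x - 2 * X * y = (2 * X) * (x - y) := by ring
  rw [h6, abs_mul, abs_of_pos (by linarith)] at h5
  have h7 : |x - y| = X⁻¹ / 2 * (2 * X * |x - y|) := by
    field_simp
  rw [h7]
  have h8 : 0 < X⁻¹ / 2 := by positivity
  calc X⁻¹ / 2 * (2 * X * |x - y|) ≤ X⁻¹ / 2 * 1 := mul_le_mul_of_nonneg_left h5 h8.le
    _ = X⁻¹ / 2 := mul_one _

/-- Pigeonhole principle.
Proof. `M = ⌊exp S⌋₊`, `M + 1 > exp S`. There are `(M + 1)^|I| > exp (S |I|)` vectors `c` with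
`0 ≤ c i ≤ M` (`Finset.exists_ne_map_eq_of_card_lt_of_maps_to` or `Fintype` version with
`I → Fin (M + 1)`). To `c` associate `(⌊2 exp W Re s_p⌋, ⌊2 exp W Im s_p⌋)_p`, `s_p = ∑ c_i t_ip`;
`|s_p| ≤ |I| exp S exp V ≤ exp (3 V)`, so each of the `2 |P|` integers is in
`[-(2 exp (3 V + W) + 1), 2 exp (3 V + W)]`: at most `8 exp (3 V + W) ≤ exp (6 V + W) ≤ exp (7 W)`
values. As `14 W |P| < |I| S` two different vectors have the same image; their difference `c` has
`|c i| ≤ M ≤ exp S` and `|Re s_p|, |Im s_p| < exp (-W) / 2`. -/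
theorem pigeon {I P : Type} [Fintype I] [Fintype P] (t : I → P → ℂ) (S V W : ℝ) (hS : 1 ≤ S)
    (hSV : S ≤ V) (hVW : V ≤ W) (hI : (Fintype.card I : ℝ) ≤ Real.exp V)
    (ht : ∀ i p, ‖t i p‖ ≤ Real.exp V) (hc : 14 * W * Fintype.card P < Fintype.card I * S) :
    ∃ c : I → ℤ, c ≠ 0 ∧ (∀ i, |(c i : ℝ)| ≤ Real.exp S) ∧
      ∀ p, ‖∑ i, (c i : ℂ) * t i p‖ ≤ Real.exp (-W) := by
  classical
  have hV : 1 ≤ V := hS.trans hSV
  have hW : 1 ≤ W := hV.trans hVW
  set M := ⌊Real.exp S⌋₊ with hM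
  have hM1 : Real.exp S < (M : ℝ) + 1 := Nat.lt_floor_add_one _
  have hM2 : (M : ℝ) ≤ Real.exp S := Nat.floor_le (Real.exp_pos S).le
  -- the sums
  let sp : (I → Fin (M + 1)) → P → ℂ := fun c p => ∑ i, (((c i : ℕ) : ℂ)) * t i p
  have hsp : ∀ c p, ‖sp c p‖ ≤ Real.exp (3 * V) := by
    intro c p
    have h1 : ∀ i, ‖(((c i : ℕ) : ℂ)) * t i p‖ ≤ Real.exp S * Real.exp V := by
      intro i
      rw [norm_mul, Complex.norm_natCast]
      refine mul_le_mul ?_ (ht i p) (norm_nonneg _) (Real.exp_pos S).le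
      refine le_trans ?_ hM2
      have h2 := (c i).2
      exact_mod_cast Nat.lt_succ_iff.1 h2
    calc ‖sp c p‖ ≤ ∑ i, ‖(((c i : ℕ) : ℂ)) * t i p‖ := norm_sum_le _ _
      _ ≤ ∑ _i : I, Real.exp S * Real.exp V := Finset.sum_le_sum fun i _ => h1 i
      _ = (Fintype.card I : ℝ) * (Real.exp S * Real.exp V) := by
        rw [Finset.sum_const, Finset.card_univ, nsmul_eq_mul]
      _ ≤ Real.exp V * (Real.exp V * Real.exp V) := by
        refine mul_le_mul hI (mul_le_mul_of_nonneg_right (Real.exp_le_exp.2 hSV)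
          (Real.exp_pos V).le) (by positivity) (Real.exp_pos V).le
      _ = Real.exp (3 * V) := by
        rw [← Real.exp_add, ← Real.exp_add]
        congr 1
        ring
  set X : ℝ := 2 * Real.exp W * Real.exp (3 * V) with hX
  have hX2 : 2 ≤ X := by
    have h1 : 1 ≤ Real.exp W := Real.one_le_exp (by linarith)
    have h2 : 1 ≤ Real.exp (3 * V) := Real.one_le_exp (by linarith)
    rw [hX]
    nlinarith
  let T : Finset ℤ := Finset.Icc (-⌈X⌉) ⌊X⌋
  have hTcard : ((T.card : ℕ) : ℝ) ≤ Real.exp (7 * W) := by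
    refine (B4_card hX2).trans ?_
    have h1 : (8 : ℝ) ≤ Real.exp (3 * V) := by
      have h2 : Real.exp 3 ≤ Real.exp (3 * V) := Real.exp_le_exp.2 (by linarith)
      have h3 : (8 : ℝ) ≤ Real.exp 3 := by
        have h4 : (2 : ℝ) ≤ Real.exp 1 := by
          have := Real.add_one_le_exp (1 : ℝ)
          linarith
        have h5 : Real.exp 3 = Real.exp 1 ^ 3 := by
          rw [← Real.exp_nat_mul]
          norm_num
        rw [h5]
        calc (8 : ℝ) = 2 ^ 3 := by norm_num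
          _ ≤ Real.exp 1 ^ 3 := pow_le_pow_left₀ (by norm_num) h4 3
      linarith
    have h6 : 4 * X = 8 * (Real.exp W * Real.exp (3 * V)) := by
      rw [hX]
      ring
    rw [h6]
    calc 8 * (Real.exp W * Real.exp (3 * V)) ≤
        Real.exp (3 * V) * (Real.exp W * Real.exp (3 * V)) :=
          mul_le_mul_of_nonneg_right h1 (by positivity)
      _ = Real.exp (3 * V + (W + 3 * V)) := by rw [Real.exp_add, Real.exp_add W]
      _ ≤ Real.exp (7 * W) := Real.exp_le_exp.2 (by linarith)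
  let φ : (I → Fin (M + 1)) → P → ℤ × ℤ := fun c p =>
    (⌊2 * Real.exp W * (sp c p).re⌋, ⌊2 * Real.exp W * (sp c p).im⌋)
  let Y : Finset (P → ℤ × ℤ) := Fintype.piFinset fun _ => T ×ˢ T
  have hφ : ∀ c ∈ (Finset.univ : Finset (I → Fin (M + 1))), φ c ∈ Y := by
    intro c _
    rw [Fintype.mem_piFinset]
    intro p
    rw [Finset.mem_product]
    constructor
    · apply B4_floor
      rw [abs_mul, abs_of_pos (by positivity : (0 : ℝ) < 2 * Real.exp W)]
      exact mul_le_mul_of_nonneg_left ((Complex.abs_re_le_norm _).trans (hsp c p)) (by positivity)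
    · apply B4_floor
      rw [abs_mul, abs_of_pos (by positivity : (0 : ℝ) < 2 * Real.exp W)]
      exact mul_le_mul_of_nonneg_left ((Complex.abs_im_le_norm _).trans (hsp c p)) (by positivity)
  have hIpos : 0 < Fintype.card I := by
    by_contra h0
    have h1 : Fintype.card I = 0 := by omega
    rw [h1, Nat.cast_zero, zero_mul] at hc
    have h2 : (0 : ℝ) ≤ 14 * W * Fintype.card P := by positivity
    linarith
  have hcard : Y.card < (Finset.univ : Finset (I → Fin (M + 1))).card := by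
    have h1 : ((Y.card : ℕ) : ℝ) < (((Finset.univ : Finset (I → Fin (M + 1))).card : ℕ) : ℝ) := by
      have h2 : Y.card = (T.card * T.card) ^ Fintype.card P := by
        change (Fintype.piFinset fun _ : P => T ×ˢ T).card = _
        rw [Fintype.card_piFinset, Finset.prod_const, Finset.card_product, Finset.card_univ]
      have h3 : (Finset.univ : Finset (I → Fin (M + 1))).card = (M + 1) ^ Fintype.card I := by
        rw [Finset.card_univ, Fintype.card_fun, Fintype.card_fin]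
      rw [h2, h3]
      push_cast
      calc ((T.card : ℝ) * (T.card : ℝ)) ^ Fintype.card P ≤
          (Real.exp (7 * W) * Real.exp (7 * W)) ^ Fintype.card P := by
            refine pow_le_pow_left₀ (by positivity) ?_ _
            exact mul_le_mul hTcard hTcard (Nat.cast_nonneg _) (Real.exp_pos _).le
        _ = Real.exp (14 * W * Fintype.card P) := by
            rw [← Real.exp_add, ← Real.exp_nat_mul]
            congr 1
            ring
        _ < Real.exp (Fintype.card I * S) := Real.exp_lt_exp.2 hc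
        _ = Real.exp S ^ Fintype.card I := by rw [← Real.exp_nat_mul]
        _ ≤ ((M : ℝ) + 1) ^ Fintype.card I :=
            pow_le_pow_left₀ (Real.exp_pos S).le hM1.le _
    exact_mod_cast h1
  obtain ⟨c1, -, c2, -, hne, heq⟩ := Finset.exists_ne_map_eq_of_card_lt_of_maps_to hcard hφ
  refine ⟨fun i => ((c1 i : ℕ) : ℤ) - ((c2 i : ℕ) : ℤ), ?_, ?_, ?_⟩
  · intro h0
    apply hne
    funext i
    have h1 := congrFun h0 i
    apply Fin.ext
    simp only [Pi.zero_apply] at h1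
    omega
  · intro i
    refine le_trans ?_ hM2
    have h1 := (c1 i).2
    have h2 := (c2 i).2
    have h3 : |((c1 i : ℕ) : ℤ) - ((c2 i : ℕ) : ℤ)| ≤ (M : ℤ) := by
      rw [abs_le]
      constructor <;> omega
    have h4 := (Int.cast_le (R := ℝ)).2 h3
    rw [Int.cast_abs] at h4
    exact_mod_cast h4
  · intro p
    have h1 : ∑ i, (((((c1 i : ℕ) : ℤ) - ((c2 i : ℕ) : ℤ) : ℤ)) : ℂ) * t i p = sp c1 p - sp c2 p := by
      change _ = ∑ i, (((c1 i : ℕ) : ℂ)) * t i p - ∑ i, (((c2 i : ℕ) : ℂ)) * t i p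
      rw [← Finset.sum_sub_distrib]
      refine Finset.sum_congr rfl fun i _ => ?_
      push_cast
      ring
    rw [h1]
    have h2 : φ c1 p = φ c2 p := congrFun heq p
    have h3 := B4_close (Real.exp_pos W) (congrArg Prod.fst h2)
    have h4 := B4_close (Real.exp_pos W) (congrArg Prod.snd h2)
    refine (Complex.norm_le_abs_re_add_abs_im _).trans ?_
    rw [Complex.sub_re, Complex.sub_im, Real.exp_neg]
    linarith

/-- Proof. Radius `4 R`: `P = Q × (η → Fin J)`, `t i (q, n) = tc (h i q) (4 R) n`, bounded by `exp V`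
(`tc_le`). `∑ c_i h_iq` is bounded by `|I| exp S exp V ≤ exp (3 V)` on `‖y‖ ≤ 4 R`. Take
`J = ⌈c V⌉₊` with `2^r exp (3 V) 2^(-J) ≤ exp (-V) / 2` and `W = c' V` with
`2^r exp (-W) ≤ exp (-V) / 2` (`r = card η`; `V ≥ 1`), then `pigeon`, `tc_sum` and `tc_small`.
`14 W |Q| J^r ≤ const |Q| V^(r + 1)` and a strict inequality, `|Q| V^(r + 1) > 0`. -/
theorem box (η : Type) [Fintype η] : ∃ C : ℝ, 0 < C ∧ ∀ (I Q : Type) [Fintype I] [Fintype Q]
    [Nonempty Q] (R : ℝ), 0 < R → ∀ h : I → Q → (η → ℂ) → ℂ, (∀ i q, Differentiable ℂ (h i q)) →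
    ∀ S V : ℝ, 1 ≤ S → S ≤ V → (Fintype.card I : ℝ) ≤ Real.exp V →
    (∀ i q y, ‖y‖ ≤ 4 * R → ‖h i q y‖ ≤ Real.exp V) →
    C * Fintype.card Q * V ^ (Fintype.card η + 1) ≤ Fintype.card I * S →
    ∃ c : I → ℤ, c ≠ 0 ∧ (∀ i, |(c i : ℝ)| ≤ Real.exp S) ∧
      ∀ q y, ‖y‖ ≤ R → ‖∑ i, (c i : ℂ) * h i q y‖ ≤ Real.exp (-V) := by
  classical
  set r := Fintype.card η with hr
  refine ⟨14 * (r + 2) * (r + 8) ^ r + 1, by positivity, ?_⟩
  intro I Q _ _ _ R hR h hd S V hS hSV hI hh hC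
  have hV : 1 ≤ V := hS.trans hSV
  set W : ℝ := (r + 2) * V with hW
  set J : ℕ := ⌈((r : ℝ) + 7) * V⌉₊ with hJ
  have hr0 : (0 : ℝ) ≤ r := Nat.cast_nonneg _
  have hJ1 : ((r : ℝ) + 7) * V ≤ J := Nat.le_ceil _
  have hJ2 : (J : ℝ) ≤ ((r : ℝ) + 8) * V := by
    have h1 := Nat.ceil_lt_add_one (by positivity : (0 : ℝ) ≤ ((r : ℝ) + 7) * V)
    have h2 : ((r : ℝ) + 8) * V = ((r : ℝ) + 7) * V + V := by ring
    rw [h2]
    linarith
  have hVW : V ≤ W := by
    rw [hW]
    nlinarith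
  let t : I → Q × (η → Fin J) → ℂ := fun i p =>
    tc (h i p.1) (4 * R) (fun k => ((p.2 k : ℕ) : ℤ))
  have hcardP : (Fintype.card (Q × (η → Fin J)) : ℝ) = Fintype.card Q * (J : ℝ) ^ r := by
    rw [Fintype.card_prod, Fintype.card_fun, Fintype.card_fin]
    push_cast
    rfl
  have hQ : (0 : ℝ) < Fintype.card Q := by exact_mod_cast Fintype.card_pos
  have hc : 14 * W * Fintype.card (Q × (η → Fin J)) < Fintype.card I * S := by
    rw [hcardP]
    refine lt_of_lt_of_le ?_ hC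
    have h1 : (J : ℝ) ^ r ≤ ((r : ℝ) + 8) ^ r * V ^ r := by
      rw [← mul_pow]
      exact pow_le_pow_left₀ (Nat.cast_nonneg _) hJ2 r
    have h2 : 14 * W * (Fintype.card Q * (J : ℝ) ^ r) ≤
        14 * W * (Fintype.card Q * (((r : ℝ) + 8) ^ r * V ^ r)) := by
      refine mul_le_mul_of_nonneg_left (mul_le_mul_of_nonneg_left h1 hQ.le) ?_
      have : 0 ≤ W := by linarith
      positivity
    refine lt_of_le_of_lt h2 ?_
    have h3 : 14 * W * (Fintype.card Q * (((r : ℝ) + 8) ^ r * V ^ r)) =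
        14 * (r + 2) * (r + 8) ^ r * (Fintype.card Q * V ^ (r + 1)) := by
      rw [hW, pow_succ]
      ring
    rw [h3, mul_assoc (14 * ((r : ℝ) + 2) * (r + 8) ^ r + 1)]
    have h4 : 0 < Fintype.card Q * V ^ (r + 1) := mul_pos hQ (pow_pos (by linarith) _)
    rw [add_mul, one_mul]
    linarith
  obtain ⟨c, hc0, hc1, hc2⟩ := pigeon t S V W hS hSV hVW hI
    (fun i p => tc_le _ _ (by linarith) _ (fun y hy => hh i p.1 y hy) _) hc
  refine ⟨c, hc0, hc1, fun q y hy => ?_⟩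
  have hdiff : Differentiable ℂ (fun y => ∑ i, (c i : ℂ) * h i q y) :=
    Differentiable.fun_sum fun i _ => (hd i q).const_mul _
  have hB : ∀ y, ‖y‖ ≤ 4 * R → ‖∑ i, (c i : ℂ) * h i q y‖ ≤ Real.exp (3 * V) := by
    intro y hy
    calc ‖∑ i, (c i : ℂ) * h i q y‖ ≤ ∑ i, ‖(c i : ℂ) * h i q y‖ := norm_sum_le _ _
      _ ≤ ∑ _i : I, Real.exp S * Real.exp V := by
        refine Finset.sum_le_sum fun i _ => ?_
        rw [norm_mul, Complex.norm_intCast]
        exact mul_le_mul (hc1 i) (hh i q y hy) (norm_nonneg _) (Real.exp_pos S).le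
      _ = (Fintype.card I : ℝ) * (Real.exp S * Real.exp V) := by
        rw [Finset.sum_const, Finset.card_univ, nsmul_eq_mul]
      _ ≤ Real.exp V * (Real.exp V * Real.exp V) := by
        refine mul_le_mul hI (mul_le_mul_of_nonneg_right (Real.exp_le_exp.2 hSV)
          (Real.exp_pos V).le) (by positivity) (Real.exp_pos V).le
      _ = Real.exp (3 * V) := by
        rw [← Real.exp_add, ← Real.exp_add]
        congr 1
        ring
  have hsmall : ∀ n : η → ℤ, (∀ k, 0 ≤ n k) → (∀ k, n k < J) →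
      ‖tc (fun y => ∑ i, (c i : ℂ) * h i q y) (4 * R) n‖ ≤ Real.exp (-W) := by
    intro n hn0 hn1
    have h1 := tc_sum Finset.univ (fun i => (c i : ℂ)) (fun i => h i q) (fun i => hd i q) (4 * R) n
    rw [h1]
    have h2 := hc2 (q, fun k => ⟨(n k).toNat, by
      have h3 := hn0 k
      have h4 := hn1 k
      omega⟩)
    have h5 : (fun k => (((n k).toNat : ℕ) : ℤ)) = n := by
      funext k
      exact Int.toNat_of_nonneg (hn0 k)
    change ‖∑ i, (c i : ℂ) * tc (h i q) (4 * R) (fun k => (((n k).toNat : ℕ) : ℤ))‖ ≤ _ at h2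
    rw [h5] at h2
    exact h2
  have key := tc_small (fun y => ∑ i, (c i : ℂ) * h i q y) hdiff (4 * R) (by linarith)
    (Real.exp (3 * V)) (Real.exp (-W)) (Real.exp_pos _).le hB J hsmall y (by linarith)
  refine key.trans ?_
  have hl2 : Real.log 2 ≤ 1 := by
    have := Real.log_two_lt_d9
    linarith
  have hl3 : 4 ≤ 6 * Real.log 2 := by
    have := Real.log_two_gt_d9
    linarith
  have hl0 : 0 < Real.log 2 := Real.log_pos (by norm_num)
  have e2 : (2 : ℝ) ^ r = Real.exp (r * Real.log 2) := by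
    rw [Real.exp_nat_mul, Real.exp_log (by norm_num)]
  have e3 : ((1 : ℝ) / 2) ^ J = Real.exp (-(J * Real.log 2)) := by
    rw [one_div, inv_pow, Real.exp_neg, Real.exp_nat_mul, Real.exp_log (by norm_num)]
  have e4 : (1 : ℝ) / 2 = Real.exp (-Real.log 2) := by
    rw [Real.exp_neg, Real.exp_log (by norm_num), one_div]
  have f1 : (2 : ℝ) ^ r * Real.exp (-W) ≤ 1 / 2 * Real.exp (-V) := by
    rw [e2, e4, ← Real.exp_add, ← Real.exp_add]
    refine Real.exp_le_exp.2 ?_
    rw [hW]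
    have g1 : (r : ℝ) * Real.log 2 ≤ r * V :=
      mul_le_mul_of_nonneg_left (hl2.trans hV) hr0
    have g2 : ((r : ℝ) + 2) * V = r * V + V + V := by ring
    rw [g2]
    linarith
  have f2 : (2 : ℝ) ^ r * (Real.exp (3 * V) * (1 / 2) ^ J) ≤ 1 / 2 * Real.exp (-V) := by
    rw [e2, e3, e4, ← Real.exp_add, ← Real.exp_add, ← Real.exp_add]
    refine Real.exp_le_exp.2 ?_
    have g1 : ((r : ℝ) + 7) * V * Real.log 2 ≤ J * Real.log 2 :=
      mul_le_mul_of_nonneg_right hJ1 hl0.le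
    have g2 : ((r : ℝ) + 7) * V * Real.log 2 =
        r * Real.log 2 * V + Real.log 2 * V + 6 * Real.log 2 * V := by ring
    have g3 : (r : ℝ) * Real.log 2 ≤ r * Real.log 2 * V :=
      le_mul_of_one_le_right (by positivity) hV
    have g4 : Real.log 2 ≤ Real.log 2 * V := le_mul_of_one_le_right hl0.le hV
    have g5 : 4 * V ≤ 6 * Real.log 2 * V := mul_le_mul_of_nonneg_right hl3 (by linarith)
    linarith
  rw [mul_add]
  linarith

end

end Pool.Agent.Helper53.LT
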