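import Mathlib

/-!
PROJECT LT, block B, file Da: representatives of `Z^ι` modulo `N μ (Z^ι)`, Gaussian sums.
-/

namespace Pool.Agent.Helper53.LT

noncomputable section

variable {ι : Type} [Fintype ι]

/-- an additive map on `Z^ι` is bounded. -/
private theorem add_bound0 {E : Type} [NormedAddCommGroup E] (φ : (ι → ℤ) →+ E) :
    ∃ C : ℝ, 0 < C ∧ ∀ b, ‖φ b‖ ≤ C * ‖b‖ := by
  classical
  refine ⟨∑ i, ‖φ (Pi.single i 1)‖ + 1, by positivity, fun b => ?_⟩
  have h1 : b = ∑ i, b i • (Pi.single i (1 : ℤ) : ι → ℤ) := by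
    funext j
    rw [Finset.sum_apply, Finset.sum_eq_single j]
    · simp
    · intro i _ hij
      simp [hij.symm]
    · intro h; exact absurd (Finset.mem_univ j) h
  have h2 : φ b = ∑ i, b i • φ (Pi.single i 1) := by
    conv_lhs => rw [h1]
    rw [map_sum]
    exact Finset.sum_congr rfl (fun i _ => map_zsmul φ _ _)
  rw [h2]
  refine (norm_sum_le _ _).trans ?_
  have h3 : ∀ i ∈ Finset.univ, ‖b i • φ (Pi.single i 1)‖ ≤ ‖φ (Pi.single i (1 : ℤ))‖ * ‖b‖ := by
    intro i _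
    refine (norm_zsmul_le _ _).trans ?_
    rw [mul_comm]
    refine mul_le_mul_of_nonneg_left ?_ (norm_nonneg _)
    have h4 := norm_le_pi_norm b i
    rw [Int.norm_eq_abs] at h4
    simpa [Int.norm_eq_abs] using h4
  refine (Finset.sum_le_sum h3).trans ?_
  rw [← Finset.sum_mul, add_mul, one_mul]
  linarith [norm_nonneg b]

/-- Proof. Let `M` be the integer matrix of `μ`, `D = |det M| ≥ 1`; `D a = μ (± adj M a)` for all
`a ∈ Z^ι`. Write `m = m₀ + N D a` with `0 ≤ m₀ i < N D` (`Int.emod`, `Int.ediv`), so `m₀ = m - N μ b`,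
`b = ± adj M a`, `‖a‖ ≤ ‖m‖ / (N D) + 1`. `Q` is the box `[0, N D)^ι` (`Fintype.piFinset`), of cardinality
`(N D)^card ι`. (If `ι` is empty everything is trivial but covered.) -/
theorem rep (μ : (ι → ℤ) →+ (ι → ℤ)) (hμ : Function.Injective μ) : ∃ C : ℝ, 0 < C ∧
    ∀ N : ℕ, 1 ≤ N → ∃ Q : Finset (ι → ℤ), Q.Nonempty ∧
      (Q.card : ℝ) ≤ C * (N : ℝ) ^ Fintype.card ι ∧
      ∀ m : ι → ℤ, ∃ b : ι → ℤ, m - (N : ℤ) • μ b ∈ Q ∧ ‖b‖ ≤ C * (‖m‖ / N + 1) := by
  classical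
  set f : (ι → ℤ) →ₗ[ℤ] (ι → ℤ) := μ.toIntLinearMap with hf
  set M : Matrix ι ι ℤ := LinearMap.toMatrix' f with hM
  have hMf : ∀ v, M.mulVec v = μ v := fun v => by
    have h1 : M.mulVec v = Matrix.toLin' M v := rfl
    rw [h1, hM, Matrix.toLin'_toMatrix']
    rfl
  have hdet : M.det ≠ 0 := by
    intro h0
    obtain ⟨v, hv, hv'⟩ := Matrix.exists_mulVec_eq_zero_iff.2 h0
    apply hv
    apply hμ
    rw [← hMf, hv', map_zero]
  set D : ℕ := M.det.natAbs with hD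
  have hD1 : 1 ≤ D := Nat.one_le_iff_ne_zero.2 (Int.natAbs_ne_zero.2 hdet)
  set g : (ι → ℤ) →+ (ι → ℤ) :=
    AddMonoidHom.mk' (fun a => M.det.sign • M.adjugate.mulVec a) (fun a b => by
      rw [Matrix.mulVec_add, smul_add]) with hg
  have hga : ∀ a, g a = M.det.sign • M.adjugate.mulVec a := fun a => rfl
  have hμg : ∀ a, μ (g a) = (D : ℤ) • a := by
    intro a
    rw [← hMf, hga, Matrix.mulVec_smul, Matrix.mulVec_mulVec, Matrix.mul_adjugate,
      Matrix.smul_mulVec, Matrix.one_mulVec, smul_smul, hD]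
    congr 1
    exact Int.sign_mul_self M.det
  obtain ⟨C1, hC1, hC1'⟩ := add_bound0 g
  refine ⟨C1 + (D : ℝ) ^ Fintype.card ι, by positivity, fun N hN => ?_⟩
  have hND : (0 : ℤ) < (N : ℤ) * D := by positivity
  refine ⟨Fintype.piFinset fun _ => Finset.Ico (0 : ℤ) ((N : ℤ) * D), ?_, ?_, ?_⟩
  · refine ⟨fun _ => 0, ?_⟩
    rw [Fintype.mem_piFinset]
    intro i
    rw [Finset.mem_Ico]
    exact ⟨le_rfl, hND⟩
  · rw [Fintype.card_piFinset]
    have h1 : ((N : ℤ) * D - 0).toNat = N * D := by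
      rw [sub_zero, ← Nat.cast_mul, Int.toNat_natCast]
    simp only [Int.card_Ico, h1, Finset.prod_const, Finset.card_univ]
    push_cast
    rw [mul_pow, mul_comm]
    refine mul_le_mul_of_nonneg_right ?_ (by positivity)
    linarith
  · intro m
    set a : ι → ℤ := fun i => m i / ((N : ℤ) * D) with ha
    refine ⟨g a, ?_, ?_⟩
    · rw [Fintype.mem_piFinset]
      intro i
      rw [Finset.mem_Ico]
      have h1 : (m - (N : ℤ) • μ (g a)) i = m i % ((N : ℤ) * D) := by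
        rw [hμg, Pi.sub_apply, Pi.smul_apply, Pi.smul_apply, Int.emod_def]
        simp only [smul_eq_mul, ha]
        ring
      rw [h1]
      exact ⟨Int.emod_nonneg _ hND.ne', Int.emod_lt_of_pos _ hND⟩
    · have hN' : (1 : ℝ) ≤ N := by exact_mod_cast hN
      have hD' : (1 : ℝ) ≤ D := by exact_mod_cast hD1
      have h1 : ‖a‖ ≤ ‖m‖ / N + 1 := by
        rw [pi_norm_le_iff_of_nonneg (by positivity)]
        intro i
        have h2 : |(m i : ℝ)| ≤ ‖m‖ := by
          have := norm_le_pi_norm m i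
          rwa [Int.norm_eq_abs] at this
        have h3 : |(m i : ℝ)| / (N * D) ≤ ‖m‖ / N := by
          rw [div_le_div_iff₀ (by positivity) (by positivity)]
          have h4 : ‖m‖ * N ≤ ‖m‖ * (N * D) := by
            refine mul_le_mul_of_nonneg_left ?_ (norm_nonneg _)
            nlinarith
          have h5 : |(m i : ℝ)| * N ≤ ‖m‖ * N := mul_le_mul_of_nonneg_right h2 (by positivity)
          linarith
        have h6 : ((a i : ℤ) : ℝ) ≤ (m i : ℝ) / (N * D) := by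
          rw [le_div_iff₀ (by positivity)]
          have := Int.ediv_mul_le (m i) hND.ne'
          exact_mod_cast this
        have h7 : (m i : ℝ) / (N * D) < ((a i : ℤ) : ℝ) + 1 := by
          rw [div_lt_iff₀ (by positivity)]
          have := Int.lt_ediv_add_one_mul_self (m i) hND
          exact_mod_cast this
        rw [Int.norm_eq_abs, abs_le]
        have h8 := abs_le.1 (le_refl |(m i : ℝ)|)
        have h9 : |(m i : ℝ) / (N * D)| ≤ ‖m‖ / N := by
          rw [abs_div, abs_of_pos (by positivity : (0 : ℝ) < N * D)]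
          exact h3
        have h10 := abs_le.1 h9
        constructor <;> linarith [h10.1, h10.2]
      refine (hC1' a).trans ?_
      have h2 : 0 ≤ ‖m‖ / N + 1 := by positivity
      have h3 : (0 : ℝ) ≤ (D : ℝ) ^ Fintype.card ι := by positivity
      calc C1 * ‖a‖ ≤ C1 * (‖m‖ / N + 1) := mul_le_mul_of_nonneg_left h1 hC1.le
        _ ≤ (C1 + (D : ℝ) ^ Fintype.card ι) * (‖m‖ / N + 1) :=
          mul_le_mul_of_nonneg_right (by linarith) h2

/-- an additive map on `Z^ι` is bounded. -/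
theorem add_bound {E : Type} [NormedAddCommGroup E] (φ : (ι → ℤ) →+ E) :
    ∃ C : ℝ, 0 < C ∧ ∀ b, ‖φ b‖ ≤ C * ‖b‖ := add_bound0 φ

private theorem geo_int {ε : ℝ} (hε : 0 < ε) : Summable (fun x : ℤ => Real.exp (-(ε * |(x : ℝ)|))) ∧
    ∑' x : ℤ, Real.exp (-(ε * |(x : ℝ)|)) ≤ 1 + 2 / ε := by
  set r := Real.exp (-ε) with hr
  have hr0 : 0 < r := Real.exp_pos _
  have hr1 : r < 1 := by rw [hr, Real.exp_lt_one_iff]; linarith
  have h1 : HasSum (fun n : ℕ => r ^ n) (1 - r)⁻¹ := hasSum_geometric_of_lt_one hr0.le hr1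
  have h2 : HasSum (fun n : ℕ => r * r ^ n) (r * (1 - r)⁻¹) := h1.mul_left r
  have e1 : ∀ n : ℕ, Real.exp (-(ε * |(((n : ℤ) : ℤ) : ℝ)|)) = r ^ n := by
    intro n
    rw [hr, ← Real.exp_nat_mul]
    congr 1
    rw [Int.cast_natCast, abs_of_nonneg (Nat.cast_nonneg n)]
    ring
  have e2 : ∀ n : ℕ, Real.exp (-(ε * |((-((n : ℤ) + 1) : ℤ) : ℝ)|)) = r * r ^ n := by
    intro n
    rw [hr, ← Real.exp_nat_mul, ← Real.exp_add]
    congr 1
    push_cast
    rw [abs_neg, abs_of_nonneg (by positivity)]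
    ring
  have h3 : HasSum (fun x : ℤ => Real.exp (-(ε * |(x : ℝ)|))) ((1 - r)⁻¹ + r * (1 - r)⁻¹) := by
    refine HasSum.of_nat_of_neg_add_one (f := fun x : ℤ => Real.exp (-(ε * |(x : ℝ)|))) ?_ ?_
    · simpa only [e1] using h1
    · simpa only [e2] using h2
  refine ⟨h3.summable, ?_⟩
  rw [h3.tsum_eq]
  have h4 : (1 + ε) * r ≤ 1 := by
    have h5 : 1 + ε ≤ Real.exp ε := by linarith [Real.add_one_le_exp ε]
    calc (1 + ε) * r ≤ Real.exp ε * r := mul_le_mul_of_nonneg_right h5 hr0.le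
      _ = 1 := by rw [hr, ← Real.exp_add]; simp
  have h5 : 0 < 1 - r := by linarith
  have h6 : (1 - r)⁻¹ + r * (1 - r)⁻¹ = 1 + 2 * (r / (1 - r)) := by
    field_simp
    ring
  rw [h6]
  have h7 : r / (1 - r) ≤ 1 / ε := by
    rw [div_le_div_iff₀ h5 hε]
    linarith
  have h8 : 2 * (r / (1 - r)) ≤ 2 * (1 / ε) := by linarith
  calc 1 + 2 * (r / (1 - r)) ≤ 1 + 2 * (1 / ε) := by linarith
    _ = 1 + 2 / ε := by ring

/-- `‖m‖^2 ≥ (1/g) ∑ m_i^2 ≥ (1/g) ∑ |m_i|`, product of geometric series, each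
`1 + 2 / (exp (c / (g N)) - 1) ≤ 1 + 2 g N / c`, and `x ≤ exp x`. -/
theorem gauss_sum (ι : Type) [Fintype ι] (c : ℝ) (hc : 0 < c) : ∃ C : ℝ, 0 < C ∧
    ∀ N : ℕ, 1 ≤ N → Summable (fun m : ι → ℤ => Real.exp (-(c * ‖m‖ ^ 2 / N))) ∧
      ∑' m : ι → ℤ, Real.exp (-(c * ‖m‖ ^ 2 / N)) ≤ Real.exp (C * N) := by
  classical
  set k : ℝ := Fintype.card ι + 1 with hk
  have hk1 : 1 ≤ k := by rw [hk]; have : (0 : ℝ) ≤ Fintype.card ι := Nat.cast_nonneg _; linarith
  have hk0 : 0 < k := by linarith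
  refine ⟨2 * k * k / c, by positivity, fun N hN => ?_⟩
  have hN' : (1 : ℝ) ≤ N := by exact_mod_cast hN
  set ε : ℝ := c / (k * N) with hε
  have hε0 : 0 < ε := by positivity
  obtain ⟨g1, g2⟩ := geo_int hε0
  set G : ℝ := ∑' x : ℤ, Real.exp (-(ε * |(x : ℝ)|)) with hG
  have hG0 : 0 ≤ G := tsum_nonneg (fun _ => (Real.exp_pos _).le)
  -- the pointwise bound
  have hpt : ∀ m : ι → ℤ, Real.exp (-(c * ‖m‖ ^ 2 / N)) ≤
      ∏ i, Real.exp (-(ε * |(m i : ℝ)|)) := by
    intro m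
    rw [← Real.exp_sum]
    apply Real.exp_le_exp.2
    rw [Finset.sum_neg_distrib, neg_le_neg_iff, ← Finset.mul_sum]
    have h1 : ∀ i ∈ Finset.univ, |(m i : ℝ)| ≤ ‖m‖ ^ 2 := by
      intro i _
      have h2 : |(m i : ℝ)| ≤ ‖m‖ := by
        have := norm_le_pi_norm m i
        rwa [Int.norm_eq_abs] at this
      by_cases h3 : m i = 0
      · rw [h3]; simp
      · have h4 : (1 : ℝ) ≤ |(m i : ℝ)| := by
          have : 1 ≤ |m i| := Int.one_le_abs h3
          exact_mod_cast this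
        nlinarith
    have h2 : ∑ i, |(m i : ℝ)| ≤ k * ‖m‖ ^ 2 := by
      refine (Finset.sum_le_sum h1).trans ?_
      rw [Finset.sum_const, Finset.card_univ, nsmul_eq_mul]
      refine mul_le_mul_of_nonneg_right ?_ (by positivity)
      rw [hk]; linarith
    calc ε * ∑ i, |(m i : ℝ)| ≤ ε * (k * ‖m‖ ^ 2) := mul_le_mul_of_nonneg_left h2 hε0.le
      _ = c * ‖m‖ ^ 2 / N := by rw [hε]; field_simp
  -- finite sums
  have hfin : ∀ s : Finset (ι → ℤ), ∑ m ∈ s, Real.exp (-(c * ‖m‖ ^ 2 / N)) ≤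
      G ^ Fintype.card ι := by
    intro s
    set t : ι → Finset ℤ := fun i => s.image (fun m => m i) with ht
    have hs : s ⊆ Fintype.piFinset t := by
      intro m hm
      rw [Fintype.mem_piFinset]
      intro i
      exact Finset.mem_image_of_mem _ hm
    calc ∑ m ∈ s, Real.exp (-(c * ‖m‖ ^ 2 / N))
        ≤ ∑ m ∈ s, ∏ i, Real.exp (-(ε * |(m i : ℝ)|)) := Finset.sum_le_sum (fun m _ => hpt m)
      _ ≤ ∑ m ∈ Fintype.piFinset t, ∏ i, Real.exp (-(ε * |(m i : ℝ)|)) :=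
          Finset.sum_le_sum_of_subset_of_nonneg hs (fun m _ _ =>
            Finset.prod_nonneg (fun i _ => (Real.exp_pos _).le))
      _ = ∏ i, ∑ x ∈ t i, Real.exp (-(ε * |(x : ℝ)|)) :=
          (Finset.prod_univ_sum t (fun _ x => Real.exp (-(ε * |(x : ℝ)|)))).symm
      _ ≤ ∏ _i : ι, G := Finset.prod_le_prod
          (fun i _ => Finset.sum_nonneg (fun x _ => (Real.exp_pos _).le))
          (fun i _ => g1.sum_le_tsum _ (fun x _ => (Real.exp_pos _).le))
      _ = G ^ Fintype.card ι := by rw [Finset.prod_const, Finset.card_univ]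
  have hsum : Summable (fun m : ι → ℤ => Real.exp (-(c * ‖m‖ ^ 2 / N))) :=
    summable_of_sum_le (fun m => (Real.exp_pos _).le) hfin
  refine ⟨hsum, ?_⟩
  have h1 : ∑' m : ι → ℤ, Real.exp (-(c * ‖m‖ ^ 2 / N)) ≤ G ^ Fintype.card ι :=
    hsum.tsum_le_of_sum_le hfin
  refine h1.trans ?_
  have h2 : G ≤ Real.exp (2 / ε) := g2.trans (by
    have := Real.add_one_le_exp (2 / ε)
    linarith)
  refine (pow_le_pow_left₀ hG0 h2 _).trans ?_
  rw [← Real.exp_nat_mul]
  apply Real.exp_le_exp.2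
  rw [hε]
  have h3 : (2 : ℝ) / (c / (k * N)) = 2 * k * N / c := by field_simp
  rw [h3]
  have h4 : (Fintype.card ι : ℝ) ≤ k := by rw [hk]; linarith
  calc (Fintype.card ι : ℝ) * (2 * k * N / c) ≤ k * (2 * k * N / c) :=
        mul_le_mul_of_nonneg_right h4 (by positivity)
    _ = 2 * k * k / c * N := by ring

end

end Pool.Agent.Helper53.LT
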