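import Pool.Agent.Helper53.LT.Bd

/-!
PROJECT LT, block B, file Fa: basic properties of the Fourier coefficients `fc`, and the parametric integral.

Mathlib: `hasFDerivAt_integral_of_dominated_of_fderiv_le`, `measurable_fderiv_with_param`,
`Complex.norm_deriv_le_of_forall_mem_sphere_norm_le`.

Write `K` for the cube `{x | ∀ i, x i ∈ Ioc 0 (0 + 1)}` (measure `1`).
-/

namespace Pool.Agent.Helper53.LT

open MeasureTheory

noncomputable section

variable {ι η : Type} [Fintype ι] [Fintype η]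

theorem ev_add (n : ι → ℤ) (z w : ι → ℂ) : ev n (z + w) = ev n z * ev n w := by
  simp only [ev, ← Complex.exp_add, Pi.add_apply, mul_add, Finset.sum_add_distrib]

theorem ev_add_left (m n : ι → ℤ) (z : ι → ℂ) : ev (m + n) z = ev m z * ev n z := by
  simp only [ev, ← Complex.exp_add, Pi.add_apply, Int.cast_add, add_mul, mul_add,
    Finset.sum_add_distrib]

theorem ev_co (n a : ι → ℤ) : ev n (co a) = 1 := by
  rw [ev, Complex.exp_eq_one_iff]
  refine ⟨∑ i, n i * a i, ?_⟩
  simp only [co, Int.cast_sum, Int.cast_mul]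
  ring

theorem ev_ne (n : ι → ℤ) (z : ι → ℂ) : ev n z ≠ 0 := Complex.exp_ne_zero _

theorem ev_zero_left (z : ι → ℂ) : ev (0 : ι → ℤ) z = 1 := by
  simp [ev]

theorem norm_ev (n : ι → ℤ) (z : ι → ℂ) :
    ‖ev n z‖ = Real.exp (-(2 * Real.pi * ∑ i, (n i : ℝ) * (z i).im)) := by
  rw [ev, Complex.norm_exp]
  congr 1
  simp [Complex.mul_re, Complex.mul_im]

theorem norm_ev_le (n : ι → ℤ) (z : ι → ℂ) :
    ‖ev n z‖ ≤ Real.exp (2 * Real.pi * Fintype.card ι * ‖n‖ * ‖z‖) := by
  rw [norm_ev]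
  refine Real.exp_le_exp.2 ?_
  have h : ∀ i, -((n i : ℝ) * (z i).im) ≤ ‖n‖ * ‖z‖ := by
    intro i
    calc -((n i : ℝ) * (z i).im) ≤ |(n i : ℝ) * (z i).im| := neg_le_abs _
      _ = |(n i : ℝ)| * |(z i).im| := abs_mul _ _
      _ ≤ ‖n‖ * ‖z‖ := by
        refine mul_le_mul ?_ ?_ (abs_nonneg _) (norm_nonneg _)
        · have := norm_le_pi_norm n i
          rwa [Int.norm_eq_abs] at this
        · exact (Complex.abs_im_le_norm _).trans (norm_le_pi_norm z i)
  have h2 : ∑ i, -((n i : ℝ) * (z i).im) ≤ ∑ _i : ι, ‖n‖ * ‖z‖ :=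
    Finset.sum_le_sum fun i _ => h i
  rw [Finset.sum_neg_distrib, Finset.sum_const, Finset.card_univ, nsmul_eq_mul] at h2
  have := Real.pi_pos
  calc -(2 * Real.pi * ∑ i, (n i : ℝ) * (z i).im)
      = 2 * Real.pi * (-∑ i, (n i : ℝ) * (z i).im) := by ring
    _ ≤ 2 * Real.pi * (Fintype.card ι * (‖n‖ * ‖z‖)) :=
      mul_le_mul_of_nonneg_left h2 (by positivity)
    _ = _ := by ring

private lemma cube_eq : {x : ι → ℝ | ∀ i, x i ∈ Set.Ioc (0 : ℝ) (0 + 1)} =
    Set.pi Set.univ (fun _ : ι => Set.Ioc (0 : ℝ) (0 + 1)) := by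
  ext x
  simp

private lemma cube_meas : MeasurableSet {x : ι → ℝ | ∀ i, x i ∈ Set.Ioc (0 : ℝ) (0 + 1)} := by
  rw [cube_eq]
  exact MeasurableSet.univ_pi fun _ => measurableSet_Ioc

private lemma cube_vol : volume {x : ι → ℝ | ∀ i, x i ∈ Set.Ioc (0 : ℝ) (0 + 1)} = 1 := by
  rw [cube_eq, Real.volume_pi_Ioc]
  simp

private lemma cube_sub : {x : ι → ℝ | ∀ i, x i ∈ Set.Ioc (0 : ℝ) (0 + 1)} ⊆
    Set.Icc (0 : ι → ℝ) 1 := by
  intro x hx
  refine ⟨fun i => (hx i).1.le, fun i => ?_⟩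
  have := (hx i).2
  simpa using this

private lemma cube_int {f : (ι → ℝ) → ℂ} (hf : Continuous f) :
    IntegrableOn f {x : ι → ℝ | ∀ i, x i ∈ Set.Ioc (0 : ℝ) (0 + 1)} :=
  (hf.integrableOn_Icc (a := 0) (b := 1)).mono_set cube_sub

private lemma rv_cont : Continuous (rv : (ι → ℝ) → ι → ℂ) :=
  continuous_pi fun i => Complex.continuous_ofReal.comp (continuous_apply i)

private lemma rv_im (x : ι → ℝ) (i : ι) : (rv x i).im = 0 := by
  simp [rv]

private lemma norm_ev_rv (n : ι → ℤ) (x : ι → ℝ) : ‖ev n (rv x)‖ = 1 := by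
  rw [norm_ev]
  simp [rv_im]

private lemma ev_diff (n : ι → ℤ) : Differentiable ℂ (ev n : (ι → ℂ) → ℂ) := by
  unfold ev
  fun_prop

/-- no hypothesis is needed: the measure of the cube is `1` (`norm_setIntegral_le_of_norm_le_const`). -/
theorem fc_le (G : (ι → ℂ) → ℂ) (B : ℝ) (h : ∀ x : ι → ℝ, ‖G (rv x)‖ ≤ B) (n : ι → ℤ) :
    ‖fc G n‖ ≤ B := by
  have h1 := norm_setIntegral_le_of_norm_le_const (μ := volume)
    (s := {x : ι → ℝ | ∀ i, x i ∈ Set.Ioc (0 : ℝ) (0 + 1)})
    (f := fun x => ev (-n) (rv x) * G (rv x)) (C := B) (by rw [cube_vol]; exact ENNReal.one_lt_top)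
    (fun x _ => by rw [norm_mul, norm_ev_rv, one_mul]; exact h x)
  rwa [measureReal_def, cube_vol, ENNReal.toReal_one, mul_one] at h1

theorem fc_ev (G : (ι → ℂ) → ℂ) (k n : ι → ℤ) : fc (fun z => ev k z * G z) n = fc G (n - k) := by
  unfold fc
  congr 1
  funext x
  rw [← mul_assoc, ← ev_add_left]
  congr 2
  abel

theorem fc_const (G : (ι → ℂ) → ℂ) (a : ℂ) (n : ι → ℤ) : fc (fun z => a * G z) n = a * fc G n := by
  unfold fc
  rw [← integral_const_mul]
  congr 1
  funext x
  ring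

/-- the integrands are continuous, the closed cube is compact. -/
theorem fc_sum {I : Type} (s : Finset I) (c : I → ℂ) (G : I → (ι → ℂ) → ℂ)
    (hG : ∀ i, Continuous (G i)) (n : ι → ℤ) :
    fc (fun z => ∑ i ∈ s, c i * G i z) n = ∑ i ∈ s, c i * fc (G i) n := by
  have h : ∀ i ∈ s, IntegrableOn (fun x : ι → ℝ => c i * (ev (-n) (rv x) * G i (rv x)))
      {x : ι → ℝ | ∀ i, x i ∈ Set.Ioc (0 : ℝ) (0 + 1)} := fun i _ =>
    cube_int (continuous_const.mul (((ev_diff (-n)).continuous.comp rv_cont).mul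
      ((hG i).comp rv_cont)))
  have h2 := integral_finsetSum s h
  simp only [integral_const_mul] at h2
  unfold fc
  rw [← h2]
  congr 1
  funext x
  rw [Finset.mul_sum]
  refine Finset.sum_congr rfl fun i _ => ?_
  ring

/-- Parametric integral: `F : (ι → ℂ) × E → ℂ` (complex) differentiable, then
`y ↦ ∫_K ev (-n) x F (x, y) dx` is differentiable.
Proof. Let `y₀ ∈ E`. `F` is continuous, so `|F| ≤ M` on the compact set `closed cube × closedBall y₀ 2`.
By the Cauchy estimate on the complex line `t ↦ F (x, y + t v)`, `|t| ≤ 1`, `‖v‖ ≤ 1`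
(`Complex.norm_deriv_le_of_forall_mem_sphere_norm_le`) the derivative of `y ↦ F (x, y)` has norm
`≤ M` for `x` in the cube and `y ∈ ball y₀ 1` (`ContinuousLinearMap.opNorm_le_of_...`, or bound on all
`v` by homogeneity). Now `hasFDerivAt_integral_of_dominated_of_fderiv_le`; the measurability of
`x ↦ fderiv (fun y => F (x, y)) y₀` is `measurable_fderiv_with_param` (or `measurable_fderiv`)
composed with `x ↦ (x, y₀)`. -/
theorem differentiable_fc {E : Type} [NormedAddCommGroup E] [NormedSpace ℂ E]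
    [FiniteDimensional ℂ E] (F : (ι → ℂ) × E → ℂ) (hF : Differentiable ℂ F) (n : ι → ℤ) :
    Differentiable ℂ (fun y => fc (fun x => F (x, y)) n) := by
  set P : (ι → ℂ) × E → ℂ := fun p => ev (-n) p.1 * F p with hP
  have hPd : Differentiable ℂ P := ((ev_diff (-n)).comp differentiable_fst).mul hF
  have hPc : Continuous P := hPd.continuous
  set K : Set (ι → ℝ) := {x : ι → ℝ | ∀ i, x i ∈ Set.Ioc (0 : ℝ) (0 + 1)} with hK
  have : ProperSpace E := FiniteDimensional.proper ℂ E
  let _ : MeasurableSpace E := borel E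
  have : BorelSpace E := ⟨rfl⟩
  intro y₀
  -- bound
  obtain ⟨M, hM⟩ : ∃ M, ∀ p ∈ (rv '' (Set.Icc (0 : ι → ℝ) 1)) ×ˢ Metric.closedBall y₀ 2,
      ‖P p‖ ≤ M := by
    refine IsCompact.exists_bound_of_continuousOn ?_ hPc.continuousOn
    exact (isCompact_Icc.image rv_cont).prod (isCompact_closedBall _ _)
  set F' : E → (ι → ℝ) → E →L[ℂ] ℂ := fun y x =>
    (fderiv ℂ P (rv x, y)).comp (ContinuousLinearMap.inr ℂ (ι → ℂ) E) with hF'
  have hder : ∀ x y, HasFDerivAt (fun y => P (rv x, y)) (F' y x) y := by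
    intro x y
    exact (hPd (rv x, y)).hasFDerivAt.comp y (hasFDerivAt_prodMk_right (rv x) y)
  have key := hasFDerivAt_integral_of_dominated_of_fderiv_le (𝕜 := ℂ) (μ := volume.restrict K)
    (F := fun y x => P (rv x, y)) (F' := F') (x₀ := y₀) (s := Metric.ball y₀ 1)
    (bound := fun _ => 2 * M) (Metric.ball_mem_nhds y₀ one_pos) ?_ ?_ ?_ ?_ ?_ ?_
  · exact key.differentiableAt
  · refine Filter.Eventually.of_forall fun y => ?_
    exact (hPc.comp (rv_cont.prodMk continuous_const)).aestronglyMeasurable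
  · exact cube_int (hPc.comp (rv_cont.prodMk continuous_const))
  · have h1 : Measurable (fderiv ℂ P) := measurable_fderiv ℂ P
    have h2 : Measurable fun x : ι → ℝ => (rv x, y₀) :=
      (rv_cont.prodMk continuous_const).measurable
    have h3 : Continuous fun L : ((ι → ℂ) × E) →L[ℂ] ℂ =>
        L.comp (ContinuousLinearMap.inr ℂ (ι → ℂ) E) := by fun_prop
    exact (h3.measurable.comp (h1.comp h2)).aestronglyMeasurable
  · refine (ae_restrict_mem cube_meas).mono fun x hx y hy => ?_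
    have hmem : ∀ y' ∈ Metric.ball y 1, ‖P (rv x, y')‖ ≤ M := by
      intro y' hy'
      refine hM _ ⟨⟨x, cube_sub hx, rfl⟩, ?_⟩
      rw [Metric.mem_closedBall]
      rw [Metric.mem_ball] at hy hy'
      have := dist_triangle y' y y₀
      linarith
    have hM0 : ‖P (rv x, y)‖ ≤ M := hmem y (Metric.mem_ball_self one_pos)
    have h1 := Complex.norm_fderiv_le_div_of_mapsTo_ball (f := fun y => P (rv x, y)) (c := y)
      (R₁ := 1) (R₂ := 2 * M)
      (fun y' _ => ((hder x y').differentiableAt).differentiableWithinAt) ?_ one_pos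
    · rw [(hder x y).fderiv, div_one] at h1
      exact h1
    · intro y' hy'
      rw [Metric.mem_closedBall, dist_eq_norm]
      have := norm_sub_le (P (rv x, y')) (P (rv x, y))
      have := hmem y' hy'
      linarith
  · have : IsFiniteMeasure (volume.restrict K) := ⟨by
      rw [Measure.restrict_apply_univ, hK, cube_vol]
      exact ENNReal.one_lt_top⟩
    exact integrable_const _
  · exact Filter.Eventually.of_forall fun x y _ => hder x y

end

end Pool.Agent.Helper53.LT
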