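import Pool.Agent.Helper53.LT.Fa

/-!
PROJECT LT, block B, file Fb: Fourier series of entire functions on `C^ι` periodic under `Z^ι`.
It uses the lemmas of `Fa.lean`.

Mathlib: `UnitAddTorus.mFourierCoeff`, `UnitAddTorus.mFourierCoeff_eq_integral`,
`UnitAddTorus.hasSum_mFourier_series_apply_of_summable` in Mathlib.Analysis.Fourier.AddCircleMulti
(there the measure on `UnitAddCircle` is the local instance `⟨AddCircle.haarAddCircle⟩`),
`is_const_of_fderiv_eq_zero`, `IsOpenQuotientMap.piMap`.

Write `K` for the cube `{x | ∀ i, x i ∈ Ioc 0 (0 + 1)}` (measure `1`).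
-/

namespace Pool.Agent.Helper53.LT

open MeasureTheory

noncomputable section

variable {ι : Type} [Fintype ι]

private lemma rv_cont' : Continuous (rv : (ι → ℝ) → ι → ℂ) :=
  continuous_pi fun i => Complex.continuous_ofReal.comp (continuous_apply i)

private lemma rv_add (x y : ι → ℝ) : rv (x + y) = rv x + rv y := by
  funext i
  simp [rv]

private lemma rv_int (a : ι → ℤ) : rv (fun i => (a i : ℝ)) = co a := by
  funext i
  simp [rv, co]

private lemma ev_diff' (n : ι → ℤ) : Differentiable ℂ (ev n : (ι → ℂ) → ℂ) := by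
  unfold ev
  fun_prop

/-- the covering map of the torus -/
private def pr (x : ι → ℝ) : UnitAddTorus ι := fun i => (x i : UnitAddCircle)

private lemma pr_open : IsOpenQuotientMap (pr : (ι → ℝ) → UnitAddTorus ι) :=
  IsOpenQuotientMap.piMap (f := fun (_ : ι) (x : ℝ) => (x : UnitAddCircle))
    fun _ => QuotientAddGroup.isOpenQuotientMap_mk

/-- a section of the covering map -/
private def st (t : UnitAddTorus ι) : ι → ℝ := fun i => Quotient.out (t i)

private lemma st_spec (x : ι → ℝ) : ∃ a : ι → ℤ, st (pr x) = x + fun i => (a i : ℝ) := by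
  have h : ∀ i, ∃ m : ℤ, st (pr x) i = x i + m := by
    intro i
    have h1 : ((st (pr x) i : ℝ) : UnitAddCircle) = ((x i : ℝ) : UnitAddCircle) :=
      Quotient.out_eq' (pr x i)
    have h2 : ((st (pr x) i - x i : ℝ) : UnitAddCircle) = 0 := by
      rw [AddCircle.coe_sub, h1, sub_self]
    obtain ⟨m, hm⟩ := (AddCircle.coe_eq_zero_iff (1 : ℝ)).1 h2
    refine ⟨m, ?_⟩
    rw [zsmul_eq_mul, mul_one] at hm
    linarith
  choose a ha using h
  exact ⟨a, funext ha⟩

/-- the function on the torus induced by a periodic function -/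
private def fn (G : (ι → ℂ) → ℂ) (t : UnitAddTorus ι) : ℂ := G (rv (st t))

private lemma fn_pr (G : (ι → ℂ) → ℂ) (hp : Per G) (x : ι → ℝ) : fn G (pr x) = G (rv x) := by
  obtain ⟨a, ha⟩ := st_spec x
  rw [fn, ha, rv_add, rv_int, hp]

private lemma fn_cont (G : (ι → ℂ) → ℂ) (hG : Continuous G) (hp : Per G) :
    Continuous (fn G) := by
  rw [← pr_open.continuous_comp_iff]
  have : fn G ∘ pr = fun x => G (rv x) := funext fun x => fn_pr G hp x
  rw [this]
  exact hG.comp rv_cont'

private lemma mF_pr (n : ι → ℤ) (x : ι → ℝ) : UnitAddTorus.mFourier n (pr x) = ev n (rv x) := by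
  have : UnitAddTorus.mFourier n (pr x) = ∏ i, fourier (n i) (pr x i) := rfl
  rw [this, ev, Finset.mul_sum, Complex.exp_sum]
  refine Finset.prod_congr rfl fun i _ => ?_
  rw [pr, fourier_coe_apply]
  congr 1
  simp only [rv, Complex.ofReal_one, div_one]
  ring

private lemma mFC (G : (ι → ℂ) → ℂ) (hp : Per G) (n : ι → ℤ) :
    UnitAddTorus.mFourierCoeff (fn G) n = fc G n := by
  rw [UnitAddTorus.mFourierCoeff_eq_integral (fn G) n 0]
  unfold fc
  congr 1
  funext x
  rw [smul_eq_mul]
  exact congrArg₂ (· * ·) (mF_pr (-n) x) (fn_pr G hp x)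

/-- the integral over the cube is invariant under real translations -/
private lemma shift_real (G : (ι → ℂ) → ℂ) (hp : Per G) (r : ι → ℝ) :
    fc (fun z => G (z + rv r)) 0 = fc G 0 := by
  have h1 := UnitAddTorus.mFourierCoeff_eq_integral (fn G) 0 r
  rw [mFC G hp] at h1
  rw [h1]
  have hpre : {x : ι → ℝ | ∀ i, x i ∈ Set.Ioc (0 : ℝ) (0 + 1)} =
      (fun x => x + r) ⁻¹' {x : ι → ℝ | ∀ i, x i ∈ Set.Ioc (r i) (r i + 1)} := by
    ext x
    simp only [Set.mem_ofPred_eq, Set.mem_preimage, Set.mem_Ioc, Pi.add_apply]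
    refine forall_congr' fun i => ?_
    constructor
    · rintro ⟨h, h'⟩
      constructor <;> linarith
    · rintro ⟨h, h'⟩
      constructor <;> linarith
  have h2 := (measurePreserving_add_right (volume : Measure (ι → ℝ)) r).setIntegral_preimage_emb
    (measurableEmbedding_addRight r)
    (fun x => UnitAddTorus.mFourier (-0 : ι → ℤ) (pr x) • fn G (pr x))
    {x : ι → ℝ | ∀ i, x i ∈ Set.Ioc (r i) (r i + 1)}
  rw [← hpre] at h2
  refine Eq.trans ?_ h2
  unfold fc
  congr 1
  funext x
  rw [smul_eq_mul, fn_pr G hp, rv_add]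
  congr 1
  rw [mF_pr, neg_zero, ev_zero_left, ev_zero_left]

private lemma shift_zero (H : (ι → ℂ) → ℂ) (hH : Differentiable ℂ H) (hp : Per H) (w : ι → ℂ) :
    fc (fun z => H (z + w)) 0 = fc H 0 := by
  classical
  set I : (ι → ℂ) → ℂ := fun w => fc (fun z => H (z + w)) 0 with hI
  have hId : Differentiable ℂ I := by
    refine differentiable_fc (fun p : (ι → ℂ) × (ι → ℂ) => H (p.1 + p.2)) ?_ 0
    exact hH.comp (differentiable_fst.add differentiable_snd)
  have hreal : ∀ (w : ι → ℂ) (r : ι → ℝ), I (w + rv r) = I w := by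
    intro w r
    have h1 : Per (fun z => H (z + w)) := by
      intro a z
      have : z + co a + w = z + w + co a := by abel
      simp only [this]
      exact hp a (z + w)
    have h2 := shift_real (fun z => H (z + w)) h1 r
    simp only [hI]
    rw [← h2]
    congr 1
    funext z
    congr 1
    abel
  have hder : ∀ w, fderiv ℂ I w = 0 := by
    intro w
    have h0 : ∀ r : ι → ℝ, fderiv ℂ I w (rv r) = 0 := by
      intro r
      have h1 := ((hId w).hasFDerivAt.restrictScalars ℝ).hasLineDerivAt (rv r)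
      have h2 : HasLineDerivAt ℝ I 0 w (rv r) := by
        unfold HasLineDerivAt
        have : (fun t : ℝ => I (w + t • rv r)) = fun _ => I w := by
          funext t
          have h3 : t • rv r = rv (t • r) := by
            funext i
            simp [rv]
          rw [h3, hreal]
        rw [this]
        exact hasDerivAt_const _ _
      exact h1.unique h2
    ext v
    have hv : v = ∑ i, v i • rv (Pi.single i (1 : ℝ)) := by
      conv_lhs => rw [pi_eq_sum_univ' v]
      refine Finset.sum_congr rfl fun i _ => ?_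
      congr 1
      funext j
      by_cases hij : j = i
      · subst hij
        simp [rv]
      · simp [rv, hij]
    rw [hv, map_sum]
    simp only [map_smul, h0, smul_zero, Finset.sum_const_zero, zero_apply]
  have h := is_const_of_fderiv_eq_zero hId hder w 0
  simp only [hI, add_zero] at h
  exact h

/-- Shift of the contour.
Proof. Let `H z = ev (-n) z * G z`, periodic (`ev_co`). `I w = ∫_K H (x + w) dx` is differentiable
(`differentiable_fc` with `n = 0` and `F (x, w) = H (x + w)`). For real `r`: `I (w + r) = I w`: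
apply the following to `z ↦ H (z + w)`: for `P` continuous periodic,
`∫_K P (x + r) dx = ∫_{K + r} P (x) dx = ∫_K P`, because both are `mFourierCoeff f 0` for the function
`f` induced on `UnitAddTorus ι` (`mFourierCoeff_eq_integral` with `a = 0` and with `a = r`). So the
derivative of `I` at every `w` kills all real vectors, hence, being `ℂ`-linear, it is zero;
`I` is constant, and `I w = ev (-n) w * fc (G (· + w)) n`, `I 0 = fc G n`. -/
theorem fc_shift (G : (ι → ℂ) → ℂ) (hG : Differentiable ℂ G) (hp : Per G) (n : ι → ℤ)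
    (w : ι → ℂ) : fc (fun z => G (z + w)) n = ev n w * fc G n := by
  set H : (ι → ℂ) → ℂ := fun z => ev (-n) z * G z with hH
  have hHd : Differentiable ℂ H := (ev_diff' (-n)).mul hG
  have hHp : Per H := by
    intro a z
    simp only [hH]
    rw [ev_add, ev_co, mul_one, hp]
  have h := shift_zero H hHd hHp w
  have h0 : fc H 0 = fc G n := by
    rw [hH, fc_ev]
    congr 1
    abel
  have h1 : fc (fun z => H (z + w)) 0 = ev (-n) w * fc (fun z => G (z + w)) n := by
    have : (fun z => H (z + w)) = fun z => ev (-n) w * (ev (-n) z * G (z + w)) := by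
      funext z
      simp only [hH]
      rw [ev_add]
      ring
    rw [this, fc_const, fc_ev (fun z => G (z + w)) (-n) 0]
    congr 2
    abel
  rw [← h0, ← h, h1, ← mul_assoc, ← ev_add_left]
  rw [add_neg_cancel, ev_zero_left, one_mul]

/-- `fc_shift` and `fc_le`. -/
theorem fc_decay (G : (ι → ℂ) → ℂ) (hG : Differentiable ℂ G) (hp : Per G) (n : ι → ℤ)
    (w : ι → ℂ) (B : ℝ) (h : ∀ x : ι → ℝ, ‖G (rv x + w)‖ ≤ B) : ‖fc G n‖ * ‖ev n w‖ ≤ B := by
  have h1 := fc_le (fun z => G (z + w)) B h n
  rw [fc_shift G hG hp n w, norm_mul] at h1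
  linarith [mul_comm ‖fc G n‖ ‖ev n w‖]

private lemma summable_exp_abs :
    Summable fun n : ι → ℤ => Real.exp (-∑ i, |(n i : ℝ)|) := by
  classical
  have h1 : Summable fun m : ℤ => Real.exp (-|(m : ℝ)|) := by
    refine Summable.of_nat_of_neg ?_ ?_
    · refine Real.summable_exp_neg_nat.congr fun n => ?_
      simp
    · refine Real.summable_exp_neg_nat.congr fun n => ?_
      simp
  have h0 : ∀ m : ℤ, 0 ≤ Real.exp (-|(m : ℝ)|) := fun m => (Real.exp_pos _).le
  refine summable_of_sum_le (c := ∏ _i : ι, ∑' m : ℤ, Real.exp (-|(m : ℝ)|))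
    (fun n => (Real.exp_pos _).le) fun u => ?_
  have hsub : u ⊆ Fintype.piFinset fun i => u.image fun n : ι → ℤ => n i := by
    intro n hn
    rw [Fintype.mem_piFinset]
    exact fun i => Finset.mem_image_of_mem _ hn
  calc ∑ n ∈ u, Real.exp (-∑ i, |(n i : ℝ)|)
      ≤ ∑ n ∈ Fintype.piFinset fun i => u.image fun n : ι → ℤ => n i,
          Real.exp (-∑ i, |(n i : ℝ)|) :=
        Finset.sum_le_sum_of_subset_of_nonneg hsub fun _ _ _ => (Real.exp_pos _).le
    _ = ∑ n ∈ Fintype.piFinset fun i => u.image fun n : ι → ℤ => n i,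
          ∏ i, Real.exp (-|(n i : ℝ)|) := by
        refine Finset.sum_congr rfl fun n _ => ?_
        rw [← Finset.sum_neg_distrib, Real.exp_sum]
    _ = ∏ i, ∑ m ∈ u.image fun n : ι → ℤ => n i, Real.exp (-|(m : ℝ)|) :=
        (Finset.prod_univ_sum (fun i => u.image fun n : ι → ℤ => n i)
          fun (_ : ι) (m : ℤ) => Real.exp (-|(m : ℝ)|)).symm
    _ ≤ _ := by
        refine Finset.prod_le_prod (fun i _ => Finset.sum_nonneg fun m _ => h0 m) fun i _ => ?_
        exact h1.sum_le_tsum _ fun m _ => h0 m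

/-- `fc_decay` with `w i = - I T sign (n i)`, `2 pi T = R + 1`: `G` is bounded by some `B` on the compact
set `|Re z i| ≤ 1, |Im z i| ≤ T`, hence for all real `x`: `‖G (rv x + w)‖ ≤ B` (periodicity), and
`‖fc G n‖ ≤ B exp (-(R + 1) ∑ |n i|)`. The sum of `exp (- ∑ |n i|)` over `ι → ℤ` is a product of
geometric series (`summable_prod_of_summable...`, induction on `ι`, or `Summable.of_norm_bounded` and
`∏`; a possible tool: `Summable.pi_prod`/`hasSum_prod`; see also `EReal` free proof by
`Fintype.induction_empty_option`). -/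
theorem summable_fc (G : (ι → ℂ) → ℂ) (hG : Differentiable ℂ G) (hp : Per G) (R : ℝ) :
    Summable fun n : ι → ℤ => ‖fc G n‖ * Real.exp (R * ∑ i, |(n i : ℝ)|) := by
  set T : ℝ := (R + 1) / (2 * Real.pi) with hT
  have hpi := Real.pi_pos
  -- bound on the compact set
  obtain ⟨B, hB⟩ : ∃ B, ∀ z ∈ (fun p : (ι → ℝ) × (ι → ℝ) => rv p.1 + Complex.I • rv p.2) ''
      ((Set.Icc (-1 : ι → ℝ) 1) ×ˢ (Set.Icc (fun _ => -|T| : ι → ℝ) (fun _ => |T|))),
      ‖G z‖ ≤ B := by
    refine IsCompact.exists_bound_of_continuousOn ?_ hG.continuous.continuousOn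
    refine (isCompact_Icc.prod isCompact_Icc).image ?_
    have h1 : Continuous fun p : (ι → ℝ) × (ι → ℝ) => rv p.1 := rv_cont'.comp continuous_fst
    have h2 : Continuous fun p : (ι → ℝ) × (ι → ℝ) => rv p.2 := rv_cont'.comp continuous_snd
    fun_prop
  have hB2 : ∀ (x y : ι → ℝ), (∀ i, |y i| ≤ |T|) → ‖G (rv x + Complex.I • rv y)‖ ≤ B := by
    intro x y hy
    have h1 : rv (fun i => Int.fract (x i)) + Complex.I • rv y + co (fun i => ⌊x i⌋) =
        rv x + Complex.I • rv y := by
      funext i
      simp only [Pi.add_apply, rv, co, Pi.smul_apply]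
      have : (x i : ℂ) = ((Int.fract (x i) : ℝ) : ℂ) + (⌊x i⌋ : ℂ) := by
        exact_mod_cast (Int.fract_add_floor (x i)).symm
      rw [this]
      ring
    rw [← h1, hp]
    refine hB _ ⟨(fun i => Int.fract (x i), y), ⟨⟨fun i => ?_, fun i => ?_⟩,
      ⟨fun i => ?_, fun i => ?_⟩⟩, rfl⟩
    · simp only [Pi.neg_apply, Pi.one_apply]
      linarith [Int.fract_nonneg (x i)]
    · simp only [Pi.one_apply]
      exact (Int.fract_lt_one (x i)).le
    · exact (abs_le.1 (hy i)).1
    · exact (abs_le.1 (hy i)).2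
  have key : ∀ n : ι → ℤ, ‖fc G n‖ * Real.exp (R * ∑ i, |(n i : ℝ)|) ≤
      B * Real.exp (-∑ i, |(n i : ℝ)|) := by
    intro n
    set y : ι → ℝ := fun i => -(T * (SignType.sign (n i : ℝ) : ℝ)) with hy
    have hyb : ∀ i, |y i| ≤ |T| := by
      intro i
      simp only [hy, abs_neg, abs_mul]
      have : |(SignType.sign (n i : ℝ) : ℝ)| ≤ 1 := by
        rcases lt_trichotomy (n i : ℝ) 0 with h | h | h
        · rw [sign_neg h]; simp
        · rw [h]; simp
        · rw [sign_pos h]; simp
      calc |T| * |(SignType.sign (n i : ℝ) : ℝ)| ≤ |T| * 1 :=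
            mul_le_mul_of_nonneg_left this (abs_nonneg _)
        _ = |T| := mul_one _
    have h1 := fc_decay G hG hp n (Complex.I • rv y) B fun x => hB2 x y hyb
    rw [norm_ev] at h1
    have h2 : -(2 * Real.pi * ∑ i, (n i : ℝ) * ((Complex.I • rv y) i).im) =
        (R + 1) * ∑ i, |(n i : ℝ)| := by
      rw [Finset.mul_sum, Finset.mul_sum, ← Finset.sum_neg_distrib]
      refine Finset.sum_congr rfl fun i _ => ?_
      have h3 : ((Complex.I • rv y) i).im = y i := by
        simp [rv]
      have h4 : (n i : ℝ) * (SignType.sign (n i : ℝ) : ℝ) = |(n i : ℝ)| := by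
        rw [mul_comm]
        exact sign_mul_self (n i : ℝ)
      rw [h3, ← h4, hy, hT]
      field_simp
    rw [h2] at h1
    have h3 : Real.exp ((R + 1) * ∑ i, |(n i : ℝ)|) =
        Real.exp (R * ∑ i, |(n i : ℝ)|) * Real.exp (∑ i, |(n i : ℝ)|) := by
      rw [← Real.exp_add]
      congr 1
      ring
    rw [h3, ← mul_assoc] at h1
    rw [Real.exp_neg, ← div_eq_mul_inv, le_div_iff₀ (Real.exp_pos _)]
    exact h1
  exact Summable.of_nonneg_of_le (fun n => by positivity) key (summable_exp_abs.mul_left B)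

private lemma hasSum_real (G : (ι → ℂ) → ℂ) (hG : Differentiable ℂ G) (hp : Per G) (x : ι → ℝ) :
    HasSum (fun n : ι → ℤ => fc G n * ev n (rv x)) (G (rv x)) := by
  set f : C(UnitAddTorus ι, ℂ) := ⟨fn G, fn_cont G hG.continuous hp⟩ with hf
  have hc : ∀ n, UnitAddTorus.mFourierCoeff (⇑f) n = fc G n := fun n => mFC G hp n
  have hs : Summable (UnitAddTorus.mFourierCoeff (⇑f)) := by
    have h1 := summable_fc G hG hp 0
    simp only [zero_mul, Real.exp_zero, mul_one] at h1
    exact h1.of_norm.congr fun n => (hc n).symm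
  have h := UnitAddTorus.hasSum_mFourier_series_apply_of_summable hs (pr x)
  have h2 : f (pr x) = G (rv x) := fn_pr G hp x
  rw [h2] at h
  convert h using 2 with n
  rw [hc, smul_eq_mul, mF_pr]

/-- For real `z` this is `UnitAddTorus.hasSum_mFourier_series_apply_of_summable` (the function on the
torus: `IsOpenQuotientMap.piMap` for the continuity); in general write `z = rv x + w` and apply the
real case to `G (· + w)` and `fc_shift`. -/
theorem hasSum_fc (G : (ι → ℂ) → ℂ) (hG : Differentiable ℂ G) (hp : Per G) (z : ι → ℂ) :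
    HasSum (fun n : ι → ℤ => fc G n * ev n z) (G z) := by
  set w : ι → ℂ := Complex.I • rv (fun i => (z i).im) with hw
  set x : ι → ℝ := fun i => (z i).re with hx
  have hz : rv x + w = z := by
    funext i
    simp only [hw, hx, Pi.add_apply, rv, Pi.smul_apply, smul_eq_mul]
    rw [mul_comm]
    exact Complex.re_add_im (z i)
  have hd : Differentiable ℂ fun z => G (z + w) := hG.comp (differentiable_id.add_const w)
  have hp' : Per fun z => G (z + w) := by
    intro a z
    have : z + co a + w = z + w + co a := by abel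
    simp only [this]
    exact hp a (z + w)
  have h := hasSum_real (fun z => G (z + w)) hd hp' x
  simp only [hz] at h
  convert h using 2 with n
  rw [fc_shift G hG hp n w]
  have : ev n z = ev n w * ev n (rv x) := by
    rw [← ev_add, add_comm, hz]
  rw [this]
  ring

end

end Pool.Agent.Helper53.LT
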