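import Pool.Agent.Helper34.LT.Df

/-!
PROJECT LT, block B, file Mx: coordinates on `C^Ψ`.

`q` an odd prime, `g = (q - 1) / 2`, `Ψ ⊆ [1, q - 1]` contains at least one of `u, q - u` for every `u`.
`Pc j = X^(j+1) + X^(q-1-j)`, `Ps j = X^(j+1) - X^(q-1-j)` (`j < g`); with `s(u) = min (u, q - u)` and
`ε(u) = 1` if `u ≤ g`, `-1` otherwise: `Pc j (ζ^u) = 2 cos (2 pi (j+1) s(u) / q)`,
`Ps j (ζ^u) = ε(u) 2 i sin (2 pi (j+1) s(u) / q)`.
Orthogonality (`1 ≤ s, s' ≤ g`), from `∑_{k=1}^{q-1} ζ^(m k) = q [q ∣ m] - 1` and the pairing `k ↔ q - k`: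
`∑_{j=1}^g 2 cos (2 pi j s/q) 2 cos (2 pi j s'/q) = q [s = s'] - 2`,
`∑_{j=1}^g 2 sin (2 pi j s/q) 2 sin (2 pi j s'/q) = q [s = s']`.
So the matrices `A = (2 cos (2 pi j s / q))`, `B = (2 i sin (2 pi j s / q))`, `1 ≤ j, s ≤ g`, are symmetric
with `A^2 = q - 2 J` (`J` all ones, invertible: eigenvalues `q` and `q - 2 g = 1`), `B^2 = -q`.
-/

namespace Pool.Agent.Helper53.LT

open Finset Pool.Agent.Helper34.LT

noncomputable section

/-- real polynomials -/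
def Pc (q : ℕ) (j : Fin ((q - 1) / 2)) : Polynomial ℤ :=
  Polynomial.X ^ ((j : ℕ) + 1) + Polynomial.X ^ (q - 1 - (j : ℕ))

/-- antireal polynomials -/
def Ps (q : ℕ) (j : Fin ((q - 1) / 2)) : Polynomial ℤ :=
  Polynomial.X ^ ((j : ℕ) + 1) - Polynomial.X ^ (q - 1 - (j : ℕ))

private theorem mx_pow (q : ℕ) (hq : 1 ≤ q) : zt q ^ q = 1 := by
  unfold zt
  rw [← Complex.exp_nat_mul, mul_div_cancel₀ _ (by exact_mod_cast (by omega : q ≠ 0)),
    Complex.exp_two_pi_mul_I]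

private theorem mx_prim (q : ℕ) (hq : 1 ≤ q) : IsPrimitiveRoot (zt q) q :=
  Complex.isPrimitiveRoot_exp q (by omega)

private theorem mx_ne (q : ℕ) : zt q ≠ 0 := Complex.exp_ne_zero _

private theorem mx_conj (q : ℕ) (hq : 1 ≤ q) (u : ℕ) :
    (starRingEnd ℂ) (zt q ^ u) = (zt q ^ u)⁻¹ := by
  have h1 : ‖zt q ^ u‖ = 1 := by
    rw [norm_pow, (mx_prim q hq).norm'_eq_one (by omega), one_pow]
  exact (Complex.inv_eq_conj h1).symm

private theorem mx_inv {q : ℕ} {x : ℂ} (hx : x ^ q = 1) {j : ℕ} (hj : j + 1 ≤ q) :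
    x ^ (q - 1 - j) = (x ^ (j + 1))⁻¹ := by
  refine eq_inv_of_mul_eq_one_left ?_
  have h1 : q - 1 - j + (j + 1) = q := by omega
  rw [← pow_add, h1, hx]

private theorem mx_xq {q : ℕ} (hq : 1 ≤ q) (u : ℕ) : (zt q ^ u) ^ q = 1 := by
  rw [← pow_mul, mul_comm, pow_mul, mx_pow q hq, one_pow]

private theorem mx_Pc {q : ℕ} (hq : 1 ≤ q) (u : ℕ) (j : Fin ((q - 1) / 2)) :
    Polynomial.aeval (zt q ^ u) (Pc q j) =
      (zt q ^ u) ^ ((j : ℕ) + 1) + ((zt q ^ u) ^ ((j : ℕ) + 1))⁻¹ := by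
  have hj := j.2
  unfold Pc
  rw [map_add, map_pow, map_pow, Polynomial.aeval_X, mx_inv (mx_xq hq u) (by omega)]

private theorem mx_Ps {q : ℕ} (hq : 1 ≤ q) (u : ℕ) (j : Fin ((q - 1) / 2)) :
    Polynomial.aeval (zt q ^ u) (Ps q j) =
      (zt q ^ u) ^ ((j : ℕ) + 1) - ((zt q ^ u) ^ ((j : ℕ) + 1))⁻¹ := by
  have hj := j.2
  unfold Ps
  rw [map_sub, map_pow, map_pow, Polynomial.aeval_X, mx_inv (mx_xq hq u) (by omega)]

private theorem mx_conj_Ps {q : ℕ} (hq : 1 ≤ q) (u : ℕ) (j : Fin ((q - 1) / 2)) :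
    (starRingEnd ℂ) (Polynomial.aeval (zt q ^ u) (Ps q j)) =
      -Polynomial.aeval (zt q ^ u) (Ps q j) := by
  rw [mx_Ps hq, map_sub, map_inv₀, map_pow, mx_conj q hq, inv_pow, inv_inv, neg_sub]

/-- sum over the pairs `k ↔ q - k` -/
private theorem mx_pair (g : ℕ) {z : ℂ} (hz : z ^ (2 * g + 1) = 1) :
    ∑ j : Fin g, (z ^ ((j : ℕ) + 1) + (z ^ ((j : ℕ) + 1))⁻¹) =
      (if z = 1 then ((2 * g + 1 : ℕ) : ℂ) else 0) - 1 := by
  have h1 : ∑ k ∈ range (2 * g + 1), z ^ k = if z = 1 then ((2 * g + 1 : ℕ) : ℂ) else 0 := by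
    split_ifs with h
    · rw [h]
      simp
    · rw [geom_sum_eq h, hz, sub_self, zero_div]
  have h2 : ∑ k ∈ range (2 * g + 1), z ^ k =
      (∑ j ∈ range g, z ^ (j + 1) + ∑ j ∈ range g, z ^ (2 * g - j)) + 1 := by
    rw [Finset.sum_range_succ', pow_zero, two_mul, Finset.sum_range_add]
    congr 2
    rw [← Finset.sum_range_reflect]
    refine Finset.sum_congr rfl fun j hj => ?_
    rw [Finset.mem_range] at hj
    congr 1
    omega
  rw [← h1, h2, add_sub_cancel_right, ← Finset.sum_add_distrib, Finset.sum_range]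
  refine Finset.sum_congr rfl fun j _ => ?_
  have hj := j.2
  rw [← mx_inv hz (by omega)]
  rfl

private theorem mx_ne_one {g a : ℕ} (h1 : 0 < a) (h2 : a < 2 * g + 1) : zt (2 * g + 1) ^ a ≠ 1 :=
  (mx_prim (2 * g + 1) (by omega)).pow_ne_one_of_pos_of_lt (by omega) h2

private theorem mx_div {g s t : ℕ} (hs : s < g) (ht : t < g) :
    zt (2 * g + 1) ^ (s + 1) * (zt (2 * g + 1) ^ (t + 1))⁻¹ = 1 ↔ s = t := by
  rw [← div_eq_mul_inv, div_eq_one_iff_eq (pow_ne_zero _ (mx_ne _))]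
  constructor
  · intro h
    have := (mx_prim (2 * g + 1) (by omega)).pow_inj (by omega) (by omega) h
    omega
  · rintro rfl
    rfl

private theorem mx_sum {g s t : ℕ} (hs : s < g) (ht : t < g) :
    ∑ j : Fin g, ((zt (2 * g + 1) ^ (s + 1) * zt (2 * g + 1) ^ (t + 1)) ^ ((j : ℕ) + 1) +
      ((zt (2 * g + 1) ^ (s + 1) * zt (2 * g + 1) ^ (t + 1)) ^ ((j : ℕ) + 1))⁻¹) = -1 := by
  have h1 : (zt (2 * g + 1) ^ (s + 1) * zt (2 * g + 1) ^ (t + 1)) ^ (2 * g + 1) = 1 := by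
    rw [mul_pow, mx_xq (by omega), mx_xq (by omega), one_mul]
  have h2 : zt (2 * g + 1) ^ (s + 1) * zt (2 * g + 1) ^ (t + 1) ≠ 1 := by
    rw [← pow_add]
    exact mx_ne_one (by omega) (by omega)
  rw [mx_pair g h1, if_neg h2, zero_sub]

private theorem mx_dif {g s t : ℕ} (hs : s < g) (ht : t < g) :
    ∑ j : Fin g, ((zt (2 * g + 1) ^ (s + 1) * (zt (2 * g + 1) ^ (t + 1))⁻¹) ^ ((j : ℕ) + 1) +
      ((zt (2 * g + 1) ^ (s + 1) * (zt (2 * g + 1) ^ (t + 1))⁻¹) ^ ((j : ℕ) + 1))⁻¹) =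
      (if s = t then ((2 * g + 1 : ℕ) : ℂ) else 0) - 1 := by
  have h1 : (zt (2 * g + 1) ^ (s + 1) * (zt (2 * g + 1) ^ (t + 1))⁻¹) ^ (2 * g + 1) = 1 := by
    rw [mul_pow, inv_pow, mx_xq (by omega), mx_xq (by omega), one_mul, inv_one]
  rw [mx_pair g h1]
  congr 1
  exact if_congr (mx_div hs ht) rfl rfl

private theorem mx_orth_c {g s t : ℕ} (hs : s < g) (ht : t < g) :
    ∑ j : Fin g, ((zt (2 * g + 1) ^ (s + 1)) ^ ((j : ℕ) + 1) +
        ((zt (2 * g + 1) ^ (s + 1)) ^ ((j : ℕ) + 1))⁻¹) *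
      ((zt (2 * g + 1) ^ (t + 1)) ^ ((j : ℕ) + 1) +
        ((zt (2 * g + 1) ^ (t + 1)) ^ ((j : ℕ) + 1))⁻¹) =
      (if s = t then ((2 * g + 1 : ℕ) : ℂ) else 0) - 2 := by
  have h : (if s = t then ((2 * g + 1 : ℕ) : ℂ) else 0) - 2 =
      -1 + ((if s = t then ((2 * g + 1 : ℕ) : ℂ) else 0) - 1) := by ring
  rw [h, ← mx_dif hs ht, ← mx_sum hs ht, ← Finset.sum_add_distrib]
  refine Finset.sum_congr rfl fun j _ => ?_
  rw [mul_pow, mul_pow, mul_inv, mul_inv, inv_pow, inv_inv]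
  ring

private theorem mx_orth_s {g s t : ℕ} (hs : s < g) (ht : t < g) :
    ∑ j : Fin g, ((zt (2 * g + 1) ^ (s + 1)) ^ ((j : ℕ) + 1) -
        ((zt (2 * g + 1) ^ (s + 1)) ^ ((j : ℕ) + 1))⁻¹) *
      ((zt (2 * g + 1) ^ (t + 1)) ^ ((j : ℕ) + 1) -
        ((zt (2 * g + 1) ^ (t + 1)) ^ ((j : ℕ) + 1))⁻¹) =
      if s = t then -((2 * g + 1 : ℕ) : ℂ) else 0 := by
  have h : (if s = t then -((2 * g + 1 : ℕ) : ℂ) else 0) =
      -1 - ((if s = t then ((2 * g + 1 : ℕ) : ℂ) else 0) - 1) := by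
    split_ifs <;> ring
  rw [h, ← mx_dif hs ht, ← mx_sum hs ht, ← Finset.sum_sub_distrib]
  refine Finset.sum_congr rfl fun j _ => ?_
  rw [mul_pow, mul_pow, mul_inv, mul_inv, inv_pow, inv_inv]
  ring

theorem conj_Pc (q : ℕ) (hq : 1 ≤ q) (s : Finset ℕ) (j : Fin ((q - 1) / 2)) (u : s) :
    (starRingEnd ℂ) (pt q s (Pc q j) u) = pt q s (Pc q j) u := by
  change (starRingEnd ℂ) (Polynomial.aeval (zt q ^ (u : ℕ)) (Pc q j)) =
    Polynomial.aeval (zt q ^ (u : ℕ)) (Pc q j)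
  rw [mx_Pc hq, map_add, map_inv₀, map_pow, mx_conj q hq, inv_pow, inv_inv, add_comm]

theorem conj_Ps (q : ℕ) (hq : 1 ≤ q) (s : Finset ℕ) (b : Fin ((q - 1) / 2) → ℤ) (u : s) :
    (starRingEnd ℂ) (pt q s (∑ k, b k • Ps q k) u) = -pt q s (∑ k, b k • Ps q k) u := by
  change (starRingEnd ℂ) (Polynomial.aeval (zt q ^ (u : ℕ)) (∑ k, b k • Ps q k)) =
    -Polynomial.aeval (zt q ^ (u : ℕ)) (∑ k, b k • Ps q k)
  rw [map_sum, map_sum, ← Finset.sum_neg_distrib]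
  refine Finset.sum_congr rfl fun k _ => ?_
  rw [map_zsmul, map_zsmul, mx_conj_Ps hq, smul_neg]

theorem pt_add (q : ℕ) (s : Finset ℕ) (P Q : Polynomial ℤ) : pt q s (P + Q) = pt q s P + pt q s Q := by
  funext u
  exact map_add _ _ _

/-- `∑_j 2 cos (2 pi (j+1) (s+1)/q) 2 cos (2 pi (j+1) (s'+1)/q) = q [s = s'] - 2`, written with `ζ`. -/
theorem orth_c (q : ℕ) (hq : q.Prime) (h3 : 3 ≤ q) (s t : Fin ((q - 1) / 2)) :
    ∑ j : Fin ((q - 1) / 2), Polynomial.aeval (zt q ^ ((s : ℕ) + 1)) (Pc q j) *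
      Polynomial.aeval (zt q ^ ((t : ℕ) + 1)) (Pc q j) = (if s = t then (q : ℂ) else 0) - 2 := by
  obtain ⟨g, hg⟩ : ∃ g, q = 2 * g + 1 := by
    have := hq.eq_two_or_odd'
    rcases this with h | h
    · omega
    · exact h
  subst hg
  have hg' : (2 * g + 1 - 1) / 2 = g := by omega
  have hs := s.2
  have ht := t.2
  have h1 := mx_orth_c (g := g) (s := s) (t := t) (by omega) (by omega)
  simp only [mx_Pc (q := 2 * g + 1) (by omega)]
  have h2 : (if s = t then ((2 * g + 1 : ℕ) : ℂ) else 0) =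
      if (s : ℕ) = t then ((2 * g + 1 : ℕ) : ℂ) else 0 := if_congr Fin.ext_iff rfl rfl
  rw [h2, ← h1]
  exact Fintype.sum_equiv (finCongr hg') _ _ fun j => rfl

theorem orth_s (q : ℕ) (hq : q.Prime) (h3 : 3 ≤ q) (s t : Fin ((q - 1) / 2)) :
    ∑ j : Fin ((q - 1) / 2), Polynomial.aeval (zt q ^ ((s : ℕ) + 1)) (Ps q j) *
      Polynomial.aeval (zt q ^ ((t : ℕ) + 1)) (Ps q j) = if s = t then -(q : ℂ) else 0 := by
  obtain ⟨g, hg⟩ : ∃ g, q = 2 * g + 1 := by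
    have := hq.eq_two_or_odd'
    rcases this with h | h
    · omega
    · exact h
  subst hg
  have hg' : (2 * g + 1 - 1) / 2 = g := by omega
  have hs := s.2
  have ht := t.2
  have h1 := mx_orth_s (g := g) (s := s) (t := t) (by omega) (by omega)
  simp only [mx_Ps (q := 2 * g + 1) (by omega)]
  have h2 : (if s = t then -((2 * g + 1 : ℕ) : ℂ) else 0) =
      if (s : ℕ) = t then -((2 * g + 1 : ℕ) : ℂ) else 0 := if_congr Fin.ext_iff rfl rfl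
  rw [h2, ← h1]
  exact Fintype.sum_equiv (finCongr hg') _ _ fun j => rfl

end

end Pool.Agent.Helper53.LT
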